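import Pool.Agent.Lib.THU.NB.Defs
import Pool.Agent.Lib.THU.EC.Defs

/-!
From weak quasisymmetry to a power bound for cross ratios.
-/

namespace Pool.Agent.Lib.THU.NB

open Matrix
open scoped NNReal

lemma qs_chain {h : ℂ → ℂ} {M : ℝ} (hM : 1 ≤ M)
    (H : ∀ x y z : ℂ, x ≠ z → ‖y - x‖ ≤ 2 * ‖z - x‖ → ‖h y - h x‖ ≤ M * ‖h z - h x‖) (n : ℕ) :
    ∀ x y z : ℂ, x ≠ z → ‖y - x‖ ≤ 2 ^ (n + 1) * ‖z - x‖ →
      ‖h y - h x‖ ≤ M ^ (n + 1) * ‖h z - h x‖ := by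
  induction n with
  | zero => simpa using H
  | succ n ih =>
    intro x y z hxz hy
    have e : ‖x + 2 * (z - x) - x‖ = 2 * ‖z - x‖ := by
      rw [add_sub_cancel_left, norm_mul]; simp
    have hne : x ≠ x + 2 * (z - x) := by
      intro h0
      have : 2 * (z - x) = 0 := by linear_combination -h0
      exact hxz (sub_eq_zero.1 (by simpa using this)).symm
    have h1 := ih x y (x + 2 * (z - x)) hne (by rw [e, ← mul_assoc, ← pow_succ]; exact hy)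
    have h2 := H x (x + 2 * (z - x)) z hxz e.le
    calc ‖h y - h x‖ ≤ M ^ (n + 1) * (M * ‖h z - h x‖) :=
          h1.trans (mul_le_mul_of_nonneg_left h2 (by positivity))
      _ = _ := by ring

lemma qs_log {h : ℂ → ℂ} {M : ℝ} (hM : 1 ≤ M) (hi : Function.Injective h)
    (H : ∀ x y z : ℂ, x ≠ z → ‖y - x‖ ≤ 2 * ‖z - x‖ → ‖h y - h x‖ ≤ M * ‖h z - h x‖)
    {x y z : ℂ} (hz : x ≠ z) (hy : x ≠ y) :
    Real.log ‖h y - h x‖ - Real.log ‖h z - h x‖ ≤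
      Real.log M / Real.log 2 * max (Real.log ‖y - x‖ - Real.log ‖z - x‖) 0 + 2 * Real.log M := by
  have l2 : 0 < Real.log 2 := Real.log_pos one_lt_two
  have lM : 0 ≤ Real.log M := Real.log_nonneg hM
  have p1 : 0 < ‖y - x‖ := norm_pos_iff.2 (sub_ne_zero.2 hy.symm)
  have p2 : 0 < ‖z - x‖ := norm_pos_iff.2 (sub_ne_zero.2 hz.symm)
  have p3 : 0 < ‖h y - h x‖ := norm_pos_iff.2 (sub_ne_zero.2 (hi.ne hy.symm))
  have p4 : 0 < ‖h z - h x‖ := norm_pos_iff.2 (sub_ne_zero.2 (hi.ne hz.symm))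
  set r := max (Real.log ‖y - x‖ - Real.log ‖z - x‖) 0 with hr
  have r0 : 0 ≤ r := le_max_right _ _
  have r1 : Real.log ‖y - x‖ - Real.log ‖z - x‖ ≤ r := le_max_left _ _
  set n := ⌈r / Real.log 2⌉₊ with hn
  have n1 : r / Real.log 2 ≤ n := Nat.le_ceil _
  have n2 : (n : ℝ) < r / Real.log 2 + 1 := Nat.ceil_lt_add_one (by positivity)
  have k1 : ‖y - x‖ ≤ 2 ^ (n + 1) * ‖z - x‖ := by
    rw [← Real.log_le_log_iff p1 (by positivity), Real.log_mul (by positivity) p2.ne',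
      Real.log_pow]
    rw [div_le_iff₀ l2] at n1
    push_cast
    nlinarith
  have k2 := Real.log_le_log p3 (qs_chain hM H n x y z hz k1)
  rw [Real.log_mul (by positivity) p4.ne', Real.log_pow] at k2
  push_cast at k2
  have k3 : ((n : ℝ) + 1) * Real.log M ≤ (r / Real.log 2 + 2) * Real.log M :=
    mul_le_mul_of_nonneg_right (by linarith) lM
  have k4 : (r / Real.log 2 + 2) * Real.log M =
      Real.log M / Real.log 2 * r + 2 * Real.log M := by ring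
  linarith

lemma om_mulVec (N : Matrix (Fin 2) (Fin 2) ℂ) (x y : Fin 2 → ℂ) :
    om (N *ᵥ x) (N *ᵥ y) = N.det * om x y := by
  simp [om, mulVec, dotProduct, Fin.sum_univ_two, det_fin_two]; ring

/-- the cross ratio in a frame in which the last point is at infinity -/
lemma crl_frame {P : Type} (v : P → Fin 2 → ℂ) (N : Matrix (Fin 2) (Fin 2) ℂ) (hN : N.det ≠ 0)
    {a b c e : P} (he : (N *ᵥ v e) 1 = 0) (hab : om (v a) (v b) ≠ 0) (hce : om (v c) (v e) ≠ 0)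
    (hac : om (v a) (v c) ≠ 0) (hbe : om (v b) (v e) ≠ 0) (ha : (N *ᵥ v a) 1 ≠ 0) :
    crl v a b c e =
      Real.log ‖(N *ᵥ v b) 0 / (N *ᵥ v b) 1 - (N *ᵥ v a) 0 / (N *ᵥ v a) 1‖ -
      Real.log ‖(N *ᵥ v c) 0 / (N *ᵥ v c) 1 - (N *ᵥ v a) 0 / (N *ᵥ v a) 1‖ := by
  have e1 := om_mulVec N (v a) (v b)
  have e2 := om_mulVec N (v c) (v e)
  have e3 := om_mulVec N (v a) (v c)
  have e4 := om_mulVec N (v b) (v e)
  generalize N *ᵥ v a = A at *
  generalize N *ᵥ v b = B at *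
  generalize N *ᵥ v c = C at *
  generalize N *ᵥ v e = E at *
  rw [om] at e1 e2 e3 e4
  rw [he] at e2 e4
  have c1 : C 1 * E 0 ≠ 0 := fun h => mul_ne_zero hN hce (by rw [← e2, h]; simp)
  have b1 : B 1 * E 0 ≠ 0 := fun h => mul_ne_zero hN hbe (by rw [← e4, h]; simp)
  have hc := left_ne_zero_of_mul c1
  have hb := left_ne_zero_of_mul b1
  have hE := right_ne_zero_of_mul b1
  have f1 : B 0 / B 1 - A 0 / A 1 = -(N.det * om (v a) (v b)) / (A 1 * B 1) := by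
    rw [← e1]; field_simp; ring
  have f3 : C 0 / C 1 - A 0 / A 1 = -(N.det * om (v a) (v c)) / (A 1 * C 1) := by
    rw [← e3]; field_simp; ring
  have f2 : om (v c) (v e) = -(C 1 * E 0) / N.det := by
    field_simp; linear_combination -e2
  have f4 : om (v b) (v e) = -(B 1 * E 0) / N.det := by
    field_simp; linear_combination -e4
  rw [crl, f1, f3, f2, f4]
  simp only [norm_div, norm_neg, norm_mul]
  have n := fun {x : ℂ} (h : x ≠ 0) => norm_ne_zero_iff.2 h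
  simp only [Real.log_div, Real.log_mul, n hN, n hab, n hac, n ha, n hb, n hc, n hE, ne_eq,
    mul_eq_zero, or_self, not_false_eq_true]
  ring

/-- power quasi-Moebius bound -/
theorem pqm (hQ : EC.St_QS) (K : ℝ≥0) : ∃ L B : ℝ, ∀ (P P' : Type) (v : P → Fin 2 → ℂ)
    (v' : P' → Fin 2 → ℂ) (N N' : Matrix (Fin 2) (Fin 2) ℂ) (h : ℂ ≃ₜ ℂ) (a b c e : P)
    (a' b' c' e' : P'), EC.QC K h → N.det ≠ 0 → N'.det ≠ 0 → (N *ᵥ v e) 1 = 0 →
    (N' *ᵥ v' e') 1 = 0 → om (v a) (v b) ≠ 0 → om (v c) (v e) ≠ 0 → om (v a) (v c) ≠ 0 →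
    om (v b) (v e) ≠ 0 → om (v a) (v e) ≠ 0 → om (v' a') (v' b') ≠ 0 → om (v' c') (v' e') ≠ 0 →
    om (v' a') (v' c') ≠ 0 → om (v' b') (v' e') ≠ 0 → om (v' a') (v' e') ≠ 0 →
    h ((N *ᵥ v a) 0 / (N *ᵥ v a) 1) = (N' *ᵥ v' a') 0 / (N' *ᵥ v' a') 1 →
    h ((N *ᵥ v b) 0 / (N *ᵥ v b) 1) = (N' *ᵥ v' b') 0 / (N' *ᵥ v' b') 1 →
    h ((N *ᵥ v c) 0 / (N *ᵥ v c) 1) = (N' *ᵥ v' c') 0 / (N' *ᵥ v' c') 1 →
    crl v' a' b' c' e' ≤ L * max (crl v a b c e) 0 + B := by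
  obtain ⟨M, hM⟩ := hQ K
  refine ⟨Real.log (max (M 2) 1) / Real.log 2, 2 * Real.log (max (M 2) 1), ?_⟩
  intro P P' v v' N N' h a b c e a' b' c' e' hq hN hN' he he' ab ce ac be ae ab' ce' ac' be' ae'
    ha hb hc
  have fin : ∀ {Q : Type} (u : Q → Fin 2 → ℂ) (X : Matrix (Fin 2) (Fin 2) ℂ) {p q : Q},
      X.det ≠ 0 → (X *ᵥ u q) 1 = 0 → om (u p) (u q) ≠ 0 → (X *ᵥ u p) 1 ≠ 0 := by
    intro Q u X p q h1 h2 h3 h4
    apply mul_ne_zero h1 h3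
    rw [← om_mulVec, om, h2, h4]; simp
  have dis : ∀ {Q : Type} (u : Q → Fin 2 → ℂ) (X : Matrix (Fin 2) (Fin 2) ℂ) {p q : Q},
      X.det ≠ 0 → om (u p) (u q) ≠ 0 → (X *ᵥ u p) 1 ≠ 0 → (X *ᵥ u q) 1 ≠ 0 →
      (X *ᵥ u p) 0 / (X *ᵥ u p) 1 ≠ (X *ᵥ u q) 0 / (X *ᵥ u q) 1 := by
    intro Q u X p q h1 h2 h3 h4 h5
    apply mul_ne_zero h1 h2
    rw [div_eq_div_iff h3 h4] at h5
    rw [← om_mulVec, om]; linear_combination h5
  rw [crl_frame v N hN he ab ce ac be (fin v N hN he ae),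
    crl_frame v' N' hN' he' ab' ce' ac' be' (fin v' N' hN' he' ae'), ← ha, ← hb, ← hc]
  refine qs_log (le_max_right _ _) h.injective (fun x y z h1 h2 => ?_)
    (dis v N hN ac (fin v N hN he ae) (fin v N hN he ce))
    (dis v N hN ab (fin v N hN he ae) (fin v N hN he be))
  exact (hM h hq x y z 2 h1 h2).trans
    (mul_le_mul_of_nonneg_right (le_max_left _ _) (norm_nonneg _))

end Pool.Agent.Lib.THU.NB
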