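import Pool.Agent.Lib.THU.NB.RT

/-!
Block ACT: the invariant tree-like function gives an action on a real tree.
-/

namespace Pool.Agent.Lib.THU.NB

open scoped Classical

section
variable {T : Type} [MetricSpace T]

/-- a point of a segment separates `y` from one of the ends -/
lemma RT.act_side (h : RT T) {x y u v : T} (hx : x ∈ seg u v) : x ∈ seg u y ∨ x ∈ seg v y := by
  rcases h.seg_sub u y v hx with h1 | h1
  · exact Or.inl h1
  · exact Or.inr (seg_comm y v ▸ h1)

end

theorem stACT (hH : St_HORO) (hT : St_TREE) : St_ACT := by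
  intro G _ P _ C w hw hinv hD
  let w' : P → P → ℝ := fun a b => if a = b then 0 else w a b
  have e0 : ∀ a, w' a a = 0 := fun a => if_pos rfl
  have e1 : ∀ a b, a ≠ b → w' a b = w a b := fun a b h => if_neg h
  have sy : ∀ a b, w' a b = w' b a := by
    intro a b
    by_cases h : a = b
    · rw [h]
    · rw [e1 a b h, e1 b a (Ne.symm h), hw.symm a b h]
  have nn : ∀ a b, 0 ≤ w' a b := by
    intro a b
    by_cases h : a = b
    · rw [h, e0]
    · have := hw.low a b h
      rw [e1 a b h]; linarith
  have tri : ∀ a b e, w' b e ≤ w' a b + w' a e := by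
    intro a b e
    by_cases h1 : a = b
    · rw [h1, e0, zero_add]
    by_cases h2 : a = e
    · rw [h2, e0, add_zero, sy]
    by_cases h3 : b = e
    · rw [h3, e0]; linarith [nn a e]
    rw [e1 _ _ h1, e1 _ _ h2, e1 _ _ h3]
    exact hH G P C w hw a b e h1 h2 h3
  have four : ∀ a b c e, w' a b + w' c e ≤ max (w' a c + w' b e) (w' a e + w' b c) := by
    intro a b c e
    by_cases h1 : a = b
    · subst h1
      exact le_max_of_le_left (by linarith [tri a c e, e0 a])
    by_cases h2 : c = e
    · subst h2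
      exact le_max_of_le_left (by linarith [tri c a b, e0 c, sy a c, sy b c])
    by_cases h3 : a = c
    · subst h3
      exact le_max_of_le_right (by linarith [sy a b])
    by_cases h4 : a = e
    · subst h4
      exact le_max_of_le_left (by linarith [sy a b, sy a c])
    by_cases h5 : b = c
    · subst h5
      exact le_max_of_le_left le_rfl
    by_cases h6 : b = e
    · subst h6
      exact le_max_of_le_right (by linarith [sy b c])
    have := hw.four a b c e ⟨h1, h3, h4, h5, h6, h2⟩
    rw [e1 _ _ h1, e1 _ _ h2, e1 _ _ h3, e1 _ _ h4, e1 _ _ h5, e1 _ _ h6]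
    linarith
  have inv : ∀ (g : G) a b, w' (g • a) (g • b) = w' a b := by
    intro g a b
    by_cases h : a = b
    · rw [h, e0, e0]
    · rw [e1 _ _ h, e1 _ _ fun e => h (MulAction.injective g e), hinv g a b h]
  obtain ⟨a0, -, -⟩ := C.two
  obtain ⟨T, _, _, p, rt, iso, eqv, hull, hd⟩ := hT G P w' ⟨a0⟩ e0 sy four inv
  refine ⟨T, inferInstance, inferInstance, p, rt, iso, eqv, hull, ?_, ?_, ?_⟩
  · intro x hx hne a ha y
    obtain ⟨k, hk⟩ := Subgroup.mem_zpowers_iff.1 ((C.stab a x hx).1 ha)
    have k0 : k ≠ 0 := by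
      rintro rfl
      exact hne (by rw [← hk, zpow_zero])
    have h1 : ∀ b, dist (p b) (x • p b) = 2 * dist (p a) (p b) := by
      intro b
      rw [← eqv, hd, hd]
      by_cases h : a = b
      · rw [← h, ha, e0, mul_zero]
      · have h2 : b ≠ x • b := fun e => h (C.fix1 x hx hne a b ha e.symm)
        have h3 := hw.par a b h k k0
        rw [zero_mul, hk] at h3
        rw [e1 _ _ h2, e1 _ _ h]
        linarith [abs_nonpos_iff.1 h3]
    have h2 : x • p a = p a := by rw [← eqv, ha]
    have h3 : ∃ b, y ∈ seg (p b) (p a) := by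
      obtain ⟨b, c, hy⟩ := hull y
      rcases rt.act_side (y := p a) hy with h | h
      · exact ⟨b, h⟩
      · exact ⟨c, h⟩
    obtain ⟨b, hy⟩ := h3
    rw [mem_seg] at hy
    have h4 := iso x (p a) y
    rw [h2] at h4
    have h5 := iso x y (p b)
    have t1 := dist_triangle y (p a) (x • y)
    have t2 := dist_triangle4 (p b) y (x • y) (x • p b)
    have h6 := h1 b
    rw [dist_comm (p a) y] at h4
    rw [dist_comm y (p b)] at h5
    rw [dist_comm (p a) (p b)] at h6
    linarith
  · intro g hg h hh x y hne gx gy hx hy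
    by_contra hc
    have ha : ∃ a, x ∈ seg (p a) y := by
      obtain ⟨b, c, h1⟩ := hull x
      rcases rt.act_side (y := y) h1 with h2 | h2
      · exact ⟨b, h2⟩
      · exact ⟨c, h2⟩
    have hb : ∃ b, y ∈ seg x (p b) := by
      obtain ⟨b, c, h1⟩ := hull y
      rcases rt.act_side (y := x) h1 with h2 | h2
      · exact ⟨b, seg_comm (p b) x ▸ h2⟩
      · exact ⟨c, seg_comm (p c) x ▸ h2⟩
    obtain ⟨a, ha⟩ := ha
    obtain ⟨b, hb⟩ := hb
    have hp := dist_pos.2 hne
    have key : ∀ u v : G, u • x = x → u • y = y → v • x = x → v • y = y →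
        u • a ≠ v • b ∧ w (u • a) (v • b) = dist (p a) x + dist x y + dist y (p b) := by
      intro u v ux uy vx vy
      have h1 := (smul_mem_seg iso u).2 ha
      have h2 := (smul_mem_seg iso v).2 hb
      have h3 := iso u (p a) x
      have h4 := iso v y (p b)
      rw [ux] at h1 h3
      rw [uy] at h1
      rw [vy] at h2 h4
      rw [vx] at h2
      have h5 := rt.align hne h1 h2
      rw [h3, h4, ← eqv, ← eqv, hd] at h5
      have h6 : u • a ≠ v • b := by
        intro e
        rw [e, e0] at h5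
        linarith [dist_nonneg (x := p a) (y := x), dist_nonneg (x := y) (y := p b)]
      exact ⟨h6, by rw [← e1 _ _ h6, h5]⟩
    have g2x : g ^ 2 • x = x := by rw [pow_two, mul_smul, gx, gx]
    have g2y : g ^ 2 • y = y := by rw [pow_two, mul_smul, gy, gy]
    have h2x : h ^ 2 • x = x := by rw [pow_two, mul_smul, hx, hx]
    have h2y : h ^ 2 • y = y := by rw [pow_two, mul_smul, hy, hy]
    have k0 := key 1 1 (one_smul _ _) (one_smul _ _) (one_smul _ _) (one_smul _ _)
    have k1 := key (g ^ 2) 1 g2x g2y (one_smul _ _) (one_smul _ _)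
    have k2 := key (h ^ 2) 1 h2x h2y (one_smul _ _) (one_smul _ _)
    have k3 := key 1 (g ^ 2) (one_smul _ _) (one_smul _ _) g2x g2y
    have k4 := key 1 (h ^ 2) (one_smul _ _) (one_smul _ _) h2x h2y
    simp only [one_smul] at k0 k1 k2 k3 k4
    obtain ⟨e, f, he, ea, hf, fb, hs⟩ :=
      hw.small g hg h hh hc a b k0.1 k1.1 k2.1 k3.1.symm k4.1.symm
    have z1 : X1 w a b (g ^ 2) = 0 := by
      rw [X1, k0.2, k1.2, k3.2, abs_eq_zero]; ring
    have z2 : X2 w a b (g ^ 2) = 0 := by rw [X2, k1.2, k3.2, sub_self, abs_zero]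
    have z3 : X1 w a b (h ^ 2) = 0 := by
      rw [X1, k0.2, k2.2, k4.2, abs_eq_zero]; ring
    have z4 : X2 w a b (h ^ 2) = 0 := by rw [X2, k2.2, k4.2, sub_self, abs_zero]
    rw [z1, z2, z3, z4] at hs
    have le1 : ∀ u : G, u • x = x → u • a ≠ a → w a (u • a) ≤ 2 * dist (p a) x := by
      intro u ux ua
      have h3 := iso u x (p a)
      rw [ux, dist_comm x (p a)] at h3
      rw [← e1 _ _ ua.symm, ← hd, eqv]
      linarith [dist_triangle (p a) x (u • p a)]
    have le2 : ∀ u : G, u • y = y → u • b ≠ b → w b (u • b) ≤ 2 * dist y (p b) := by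
      intro u uy ub
      have h3 := iso u y (p b)
      rw [uy] at h3
      rw [← e1 _ _ ub.symm, ← hd, eqv]
      linarith [dist_triangle (p b) y (u • p b), dist_comm (p b) y]
    have s1 : w b e = dist (p a) x + dist x y + dist y (p b) ∧ w a e ≤ 2 * dist (p a) x := by
      rcases he with rfl | rfl
      · exact ⟨by rw [← hw.symm _ _ k1.1, k1.2], le1 _ g2x ea⟩
      · exact ⟨by rw [← hw.symm _ _ k2.1, k2.2], le1 _ h2x ea⟩
    have s2 : w a f = dist (p a) x + dist x y + dist y (p b) ∧ w b f ≤ 2 * dist y (p b) := by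
      rcases hf with rfl | rfl
      · exact ⟨k3.2, le2 _ g2y fb⟩
      · exact ⟨k4.2, le2 _ h2y fb⟩
    linarith [s1.1, s1.2, s2.1, s2.2]
  · by_contra hc
    push Not at hc
    have : C.D w = 0 := by
      refine Finset.sum_eq_zero fun e he => ?_
      rw [← e1 _ _ (C.E0_ne e he), ← hd, hc e.1 e.2, dist_self, abs_zero]
    rw [hD] at this
    exact one_ne_zero this

end Pool.Agent.Lib.THU.NB
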