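import Pool.Agent.Lib.THU.NB.Defs

/-!
Averaging the tropical limit over the powers of `t` (section 4).
-/

namespace Pool.Agent.Lib.THU.NB

open Filter Topology

namespace Avg

variable {G : Type} [Group G] {P : Type} [MulAction G P]

/-- symmetric and invariant under the fibre group -/
structure SI (C : Cusp G P) (w : P → P → ℝ) : Prop where
  symm : ∀ a b, a ≠ b → w a b = w b a
  inv : ∀ g ∈ C.d.ker, ∀ a b, a ≠ b → w (g • a) (g • b) = w a b

/-- the convex cone of tree-like functions aligned with `w0` -/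
structure Good (C : Cusp G P) (w0 w : P → P → ℝ) : Prop extends SI C w where
  low : ∀ a b, a ≠ b → 0 ≤ w a b
  par : ∀ a b, a ≠ b → ∀ k : ℤ, k ≠ 0 → w b (C.c a ^ k • b) = 2 * w a b
  al : ∀ a b c e, a ≠ b → c ≠ e → a ≠ c → b ≠ e → cw w0 a b c e ≤ 0 → cw w a b c e ≤ 0
  small : ∀ g ∈ C.d.ker, ∀ h ∈ C.d.ker, ¬ Commute g h → ∀ a b, a ≠ b →
    g ^ 2 • a ≠ b → h ^ 2 • a ≠ b → g ^ 2 • b ≠ a → h ^ 2 • b ≠ a →
    ∀ e f, (e = g ^ 2 • a ∨ e = h ^ 2 • a) → e ≠ a → (f = g ^ 2 • b ∨ f = h ^ 2 • b) → f ≠ b →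
      (∀ e', (e' = g ^ 2 • a ∨ e' = h ^ 2 • a) → e' ≠ a → w0 a e' - w0 b e' ≤ w0 a e - w0 b e) →
      (∀ f', (f' = g ^ 2 • b ∨ f' = h ^ 2 • b) → f' ≠ b → w0 a f - w0 b f ≤ w0 a f' - w0 b f') →
      w a f - w b f - w a e + w b e ≤
        100 * (X1 w a b (g ^ 2) + X2 w a b (g ^ 2) + X1 w a b (h ^ 2) + X2 w a b (h ^ 2))

variable {C : Cusp G P} {w0 w w' : P → P → ℝ}

lemma smul_ne (g : G) {a b : P} (h : a ≠ b) : g • a ≠ g • b := fun e => h (MulAction.injective g e)

lemma cw_swap (w : P → P → ℝ) (a b c e : P) : cw w a c b e = - cw w a b c e := by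
  simp only [cw]; ring

lemma X1_eq (h : SI C w) {g : G} (hg : g ∈ C.d.ker) {a b : P} (hab : a ≠ b) (h2 : g • b ≠ a) :
    X1 w a b g = |cw w (g • a) b (g • b) a| := by
  rw [X1, cw, h.inv g hg a b hab, h.symm _ _ h2, h.symm b a hab.symm]
  congr 1; ring

lemma X2_eq (h : SI C w) {g : G} (hg : g ∈ C.d.ker) {a b : P} (h1 : g • a ≠ b)
    (h2 : g • b ≠ a) (h3 : g • a ≠ a) : X2 w a b g = |cw w b (g⁻¹ • a) (g • a) a| := by
  have e1 : b ≠ g⁻¹ • a := fun e => h2 (by rw [e, smul_inv_smul])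
  have e2 : g⁻¹ • a ≠ a := fun e => h3 (by nth_rewrite 1 [← e]; rw [smul_inv_smul])
  have e3 := h.inv g hg _ _ e1
  have e4 := h.inv g hg _ _ e2
  rw [smul_inv_smul] at e3 e4
  rw [X2, cw, ← e3, ← e4, h.symm _ _ h2, h.symm _ _ h3, h.symm _ _ h1.symm]
  congr 1; ring

lemma X2_zero (h : SI C w) {g : G} (hg : g ∈ C.d.ker) {a b : P} (hab : a ≠ b)
    (h3 : g • a = a) : X2 w a b g = 0 := by
  have := h.inv g hg a b hab
  rw [h3] at this
  rw [X2, h3, this, sub_self, abs_zero]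

lemma SI.add (h : SI C w) (h' : SI C w') : SI C (w + w') :=
  ⟨fun a b hab => by simp only [Pi.add_apply]; rw [h.symm a b hab, h'.symm a b hab],
   fun g hg a b hab => by simp only [Pi.add_apply]; rw [h.inv g hg a b hab, h'.inv g hg a b hab]⟩

lemma cw_add (w w' : P → P → ℝ) (a b c e : P) :
    cw (w + w') a b c e = cw w a b c e + cw w' a b c e := by
  simp only [cw, Pi.add_apply]; ring

lemma abs_cw_add (h : Good C w0 w) (h' : Good C w0 w') {a b c e : P} (h1 : a ≠ b) (h2 : c ≠ e)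
    (h3 : a ≠ c) (h4 : b ≠ e) : |cw (w + w') a b c e| = |cw w a b c e| + |cw w' a b c e| := by
  rw [cw_add]
  rcases le_total (cw w0 a b c e) 0 with s | s
  · have p := h.al a b c e h1 h2 h3 h4 s
    have q := h'.al a b c e h1 h2 h3 h4 s
    rw [abs_of_nonpos p, abs_of_nonpos q, abs_of_nonpos (by linarith)]; ring
  · have s' : cw w0 a c b e ≤ 0 := by rw [cw_swap]; linarith
    have p := h.al a c b e h3 h4 h1 h2 s'
    have q := h'.al a c b e h3 h4 h1 h2 s'
    rw [cw_swap] at p q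
    rw [abs_of_nonneg (by linarith), abs_of_nonneg (by linarith), abs_of_nonneg (by linarith)]

lemma X1_add (h : Good C w0 w) (h' : Good C w0 w') {g : G} (hg : g ∈ C.d.ker) {a b : P}
    (hab : a ≠ b) (h1 : g • a ≠ b) (h2 : g • b ≠ a) :
    X1 (w + w') a b g = X1 w a b g + X1 w' a b g := by
  rw [X1_eq (h.toSI.add h'.toSI) hg hab h2, X1_eq h.toSI hg hab h2, X1_eq h'.toSI hg hab h2,
    abs_cw_add h h' h1 h2 (smul_ne g hab) hab.symm]

lemma X2_add (h : Good C w0 w) (h' : Good C w0 w') {g : G} (hg : g ∈ C.d.ker) {a b : P}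
    (hab : a ≠ b) (h1 : g • a ≠ b) (h2 : g • b ≠ a) :
    X2 (w + w') a b g = X2 w a b g + X2 w' a b g := by
  by_cases h3 : g • a = a
  · rw [X2_zero (h.toSI.add h'.toSI) hg hab h3, X2_zero h.toSI hg hab h3,
      X2_zero h'.toSI hg hab h3, add_zero]
  · have e1 : b ≠ g⁻¹ • a := fun e => h2 (by rw [e, smul_inv_smul])
    have e2 : g⁻¹ • a ≠ a := fun e => h3 (by nth_rewrite 1 [← e]; rw [smul_inv_smul])
    rw [X2_eq (h.toSI.add h'.toSI) hg h1 h2 h3, X2_eq h.toSI hg h1 h2 h3,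
      X2_eq h'.toSI hg h1 h2 h3, abs_cw_add h h' e1 h3 h1.symm e2]

lemma Good.add (h : Good C w0 w) (h' : Good C w0 w') : Good C w0 (w + w') where
  toSI := h.toSI.add h'.toSI
  low a b hab := add_nonneg (h.low a b hab) (h'.low a b hab)
  par a b hab k hk := by
    simp only [Pi.add_apply]; rw [h.par a b hab k hk, h'.par a b hab k hk]; ring
  al a b c e h1 h2 h3 h4 s := by
    rw [cw_add]; exact add_nonpos (h.al a b c e h1 h2 h3 h4 s) (h'.al a b c e h1 h2 h3 h4 s)
  small g hg k hk hn a b hab h1 h2 h3 h4 e f he he' hf hf' hE hF := by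
    have p := h.small g hg k hk hn a b hab h1 h2 h3 h4 e f he he' hf hf' hE hF
    have q := h'.small g hg k hk hn a b hab h1 h2 h3 h4 e f he he' hf hf' hE hF
    rw [X1_add h h' (pow_mem hg 2) hab h1 h3, X2_add h h' (pow_mem hg 2) hab h1 h3,
      X1_add h h' (pow_mem hk 2) hab h2 h4, X2_add h h' (pow_mem hk 2) hab h2 h4]
    simp only [Pi.add_apply]; linarith

lemma X1_smul {r : ℝ} (hr : 0 ≤ r) (w : P → P → ℝ) (a b : P) (g : G) :
    X1 (r • w) a b g = r * X1 w a b g := by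
  simp only [X1, Pi.smul_apply, smul_eq_mul]
  rw [← abs_of_nonneg hr, ← abs_mul, abs_of_nonneg hr]; congr 1; ring

lemma X2_smul {r : ℝ} (hr : 0 ≤ r) (w : P → P → ℝ) (a b : P) (g : G) :
    X2 (r • w) a b g = r * X2 w a b g := by
  simp only [X2, Pi.smul_apply, smul_eq_mul]
  rw [← abs_of_nonneg hr, ← abs_mul, abs_of_nonneg hr]; congr 1; ring

lemma Good.smul (h : Good C w0 w) {r : ℝ} (hr : 0 ≤ r) : Good C w0 (r • w) where
  symm a b hab := by simp only [Pi.smul_apply]; rw [h.symm a b hab]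
  inv g hg a b hab := by simp only [Pi.smul_apply]; rw [h.inv g hg a b hab]
  low a b hab := mul_nonneg hr (h.low a b hab)
  par a b hab k hk := by
    simp only [Pi.smul_apply, smul_eq_mul]; rw [h.par a b hab k hk]; ring
  al a b c e h1 h2 h3 h4 s := by
    have := mul_nonpos_of_nonneg_of_nonpos hr (h.al a b c e h1 h2 h3 h4 s)
    simp only [cw, Pi.smul_apply, smul_eq_mul] at this ⊢; linarith
  small g hg k hk hn a b hab h1 h2 h3 h4 e f he he' hf hf' hE hF := by
    have p := mul_le_mul_of_nonneg_left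
      (h.small g hg k hk hn a b hab h1 h2 h3 h4 e f he he' hf hf' hE hF) hr
    rw [X1_smul hr, X1_smul hr, X2_smul hr, X2_smul hr]
    simp only [Pi.smul_apply, smul_eq_mul]; linarith

lemma Good.lim {ι : Type} {U : Filter ι} [U.NeBot] {V : ι → P → P → ℝ}
    (h : ∀ n, Good C w0 (V n))
    (hl : ∀ a b, a ≠ b → Tendsto (fun n => V n a b) U (𝓝 (w a b)))
    (hu : ∀ a b x, Tendsto (fun n => V n a b) U (𝓝 x) → w a b = x) : Good C w0 w where
  symm a b hab := hu _ _ _ ((hl b a hab.symm).congr fun n => ((h n).symm a b hab).symm)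
  inv g hg a b hab := hu _ _ _ ((hl a b hab).congr fun n => ((h n).inv g hg a b hab).symm)
  low a b hab := ge_of_tendsto' (hl a b hab) fun n => (h n).low a b hab
  par a b hab k hk := hu _ _ _ (((hl a b hab).const_mul 2).congr
    fun n => ((h n).par a b hab k hk).symm)
  al a b c e h1 h2 h3 h4 s :=
    le_of_tendsto' ((((hl a b h1).add (hl c e h2)).sub (hl a c h3)).sub (hl b e h4))
      fun n => (h n).al a b c e h1 h2 h3 h4 s
  small g hg k hk hn a b hab h1 h2 h3 h4 e f he he' hf hf' hE hF := by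
    have eb : b ≠ e := by rcases he with rfl | rfl; exacts [h1.symm, h2.symm]
    have fa : a ≠ f := by rcases hf with rfl | rfl; exacts [h3.symm, h4.symm]
    have x1 : ∀ s : G, s • a ≠ b → s • b ≠ a →
        Tendsto (fun n => X1 (V n) a b s) U (𝓝 (X1 w a b s)) := fun s p q =>
      (((hl _ _ p).add (hl _ _ q.symm)).sub ((hl a b hab).const_mul 2)).abs
    have x2 : ∀ s : G, s • a ≠ b → s • b ≠ a →
        Tendsto (fun n => X2 (V n) a b s) U (𝓝 (X2 w a b s)) := fun s p q =>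
      ((hl _ _ q.symm).sub (hl _ _ p)).abs
    exact le_of_tendsto_of_tendsto'
      ((((hl a f fa).sub (hl b f hf'.symm)).sub (hl a e he'.symm)).add (hl b e eb))
      (((((x1 _ h1 h3).add (x2 _ h1 h3)).add (x1 _ h2 h4)).add (x2 _ h2 h4)).const_mul 100)
      fun n => (h n).small g hg k hk hn a b hab h1 h2 h3 h4 e f he he' hf hf' hE hF

lemma exists_max (u : P → ℝ) {x y a : P} (h : ∃ e, (e = x ∨ e = y) ∧ e ≠ a) :
    ∃ e, (e = x ∨ e = y) ∧ e ≠ a ∧ ∀ e', (e' = x ∨ e' = y) → e' ≠ a → u e' ≤ u e := by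
  obtain ⟨e, he, he'⟩ := h
  by_cases hx : x = a
  · have : e = y := he.resolve_left fun s => he' (s.trans hx)
    subst this
    refine ⟨e, Or.inr rfl, he', fun e' p q => ?_⟩
    rw [p.resolve_left fun s => q (s.trans hx)]
  by_cases hy : y = a
  · refine ⟨x, Or.inl rfl, hx, fun e' p q => ?_⟩
    rw [p.resolve_right fun s => q (s.trans hy)]
  rcases le_total (u x) (u y) with s | s
  · exact ⟨y, Or.inr rfl, hy, by rintro e' (rfl | rfl) -; exacts [s, le_rfl]⟩
  · exact ⟨x, Or.inl rfl, hx, by rintro e' (rfl | rfl) -; exacts [le_rfl, s]⟩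

lemma Good.tr (h0 : Tr C w0 0) (h : Good C w0 w) : Tr C w 0 where
  symm := h.symm
  inv := h.inv
  low a b hab := by simpa using h.low a b hab
  four a b c e hd := by
    obtain ⟨h1, h2, h3, h4, h5, h6⟩ := hd
    have := h0.four a b c e ⟨h1, h2, h3, h4, h5, h6⟩
    rw [add_zero] at this ⊢
    rcases le_max_iff.1 this with s | s
    · have := h.al a b c e h1 h6 h2 h5 (by simp only [cw]; linarith)
      simp only [cw] at this
      exact le_max_of_le_left (by linarith)
    · have := h.al a b e c h1 h6.symm h3 h4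
        (by simp only [cw]; rw [h0.symm e c h6.symm]; linarith)
      simp only [cw] at this
      rw [h.symm e c h6.symm] at this
      exact le_max_of_le_right (by linarith)
  par a b hab k hk := by rw [h.par a b hab k hk]; simp
  small g hg k hk hn a b hab h1 h2 h3 h4 := by
    obtain ⟨e0, f0, p1, p2, p3, p4, -⟩ := h0.small g hg k hk hn a b hab h1 h2 h3 h4
    obtain ⟨e, q1, q2, q3⟩ := exists_max (fun x => w0 a x - w0 b x) ⟨e0, p1, p2⟩
    obtain ⟨f, r1, r2, r3⟩ := exists_max (fun x => -(w0 a x - w0 b x)) ⟨f0, p3, p4⟩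
    refine ⟨e, f, q1, q2, r1, r2, ?_⟩
    rw [add_zero]
    exact h.small g hg k hk hn a b hab h1 h2 h3 h4 e f q1 q2 r1 r2 q3
      fun f' s s' => by have := r3 f' s s'; linarith

lemma good_of_tr (h0 : Tr C w0 0) (h : Tr C w 0)
    (hal : ∀ a b c e, Dis a b c e → cw w0 a b c e ≤ 0 → cw w a b c e ≤ 0) : Good C w0 w := by
  have al : ∀ a b c e, a ≠ b → c ≠ e → a ≠ c → b ≠ e → cw w0 a b c e ≤ 0 → cw w a b c e ≤ 0 := by
    intro a b c e h1 h2 h3 h4 s
    by_cases h5 : a = e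
    · subst h5
      simp only [cw]; rw [h.symm c a h2, h.symm b a h4]; linarith
    by_cases h6 : b = c
    · subst h6
      simp only [cw]; linarith
    exact hal a b c e ⟨h1, h3, h5, h6, h4, h2⟩ s
  have mono : ∀ a b x y, a ≠ x → a ≠ y → x ≠ b → y ≠ b → w0 a x - w0 b x ≤ w0 a y - w0 b y →
      w a x - w b x ≤ w a y - w b y := by
    intro a b x y h1 h2 h3 h4 s
    have := al a x y b h1 h4 h2 h3 (by
      simp only [cw]; rw [h0.symm y b h4, h0.symm x b h3]; linarith)
    simp only [cw] at this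
    rw [h.symm y b h4, h.symm x b h3] at this
    linarith
  refine ⟨⟨h.symm, h.inv⟩, fun a b hab => by simpa using h.low a b hab, fun a b hab k hk => ?_,
    al, ?_⟩
  · have := h.par a b hab k hk
    rw [zero_mul, abs_nonpos_iff] at this
    linarith
  · intro g hg k hk hn a b hab h1 h2 h3 h4 e f he he' hf hf' hE hF
    obtain ⟨e0, f0, p1, p2, p3, p4, p5⟩ := h.small g hg k hk hn a b hab h1 h2 h3 h4
    have eb : ∀ x, (x = g ^ 2 • a ∨ x = k ^ 2 • a) → x ≠ b := by
      rintro x (rfl | rfl); exacts [h1, h2]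
    have fa : ∀ x, (x = g ^ 2 • b ∨ x = k ^ 2 • b) → a ≠ x := by
      rintro x (rfl | rfl); exacts [h3.symm, h4.symm]
    have s1 := mono a b e0 e p2.symm he'.symm (eb _ p1) (eb _ he) (hE e0 p1 p2)
    have s2 := mono a b f f0 (fa _ hf) (fa _ p3) hf' p4 (hF f0 p3 p4)
    linarith

lemma comp_zpow (hc : Comp C w0) (j : ℤ) (a b c e : P) (hd : Dis a b c e)
    (s : cw w0 a b c e ≤ 0) : cw (sh w0 (C.t ^ j)) a b c e ≤ 0 := by
  have ds : ∀ g : G, Dis (g • a) (g • b) (g • c) (g • e) := fun g =>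
    ⟨smul_ne g hd.1, smul_ne g hd.2.1, smul_ne g hd.2.2.1, smul_ne g hd.2.2.2.1,
      smul_ne g hd.2.2.2.2.1, smul_ne g hd.2.2.2.2.2⟩
  induction j using Int.induction_on with
  | zero => simpa [cw, sh] using s
  | succ i ih =>
    have := (hc _ _ _ _ (ds (C.t ^ (i : ℤ))) ih).1
    rw [add_comm, zpow_add, zpow_one]
    simpa only [cw, sh, mul_smul] using this
  | pred i ih =>
    have := (hc _ _ _ _ (ds (C.t ^ (-i : ℤ))) ih).2
    rw [sub_eq_neg_add, zpow_add, zpow_neg_one]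
    simpa only [cw, sh, mul_smul] using this

lemma D_add (h : Good C w0 w) (h' : Good C w0 w') : C.D (w + w') = C.D w + C.D w' := by
  simp only [Cusp.D, ← Finset.sum_add_distrib, Pi.add_apply]
  refine Finset.sum_congr rfl fun e he => ?_
  have p := h.low _ _ (C.E0_ne e he)
  have q := h'.low _ _ (C.E0_ne e he)
  rw [abs_of_nonneg p, abs_of_nonneg q, abs_of_nonneg (add_nonneg p q)]

lemma D_smul {r : ℝ} (hr : 0 ≤ r) (w : P → P → ℝ) : C.D (r • w) = r * C.D w := by
  simp only [Cusp.D, Finset.mul_sum, Pi.smul_apply, smul_eq_mul, abs_mul, abs_of_nonneg hr]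

lemma D_nonneg (w : P → P → ℝ) : 0 ≤ C.D w := Finset.sum_nonneg fun _ _ => abs_nonneg _

lemma window {d : ℤ → ℝ} {a : ℕ → ℝ} (h0 : ∀ j, 0 ≤ d j) (h1 : ∀ j, d j ≤ 1) (a0 : a 0 = 1)
    (hs : ∀ M : ℕ, a (M + 1) = a M + d (M + 1) + d (-(M + 1))) :
    (∀ M, 1 ≤ a M) ∧ ∀ ε > 0, ∃ M : ℕ, d (M + 1) + d (-M) ≤ ε * a M := by
  have ha : ∀ M, 1 ≤ a M := by
    intro M
    induction M with
    | zero => exact a0.ge
    | succ M ih => rw [hs]; linarith [h0 (M + 1), h0 (-(M + 1))]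
  refine ⟨ha, fun ε hε => ?_⟩
  by_contra hn
  push Not at hn
  have hA : ∀ M : ℕ, ε * M ≤ a M + d (M + 1) := by
    intro M
    induction M with
    | zero => simp only [Nat.cast_zero, mul_zero]; linarith [h0 (0 + 1), ha 0]
    | succ M ih =>
      have p := hn (M + 1)
      have q := mul_le_mul_of_nonneg_left (ha (M + 1)) hε.le
      have r := hs M
      push_cast at p ⊢
      linarith
  obtain ⟨M, hM⟩ := exists_nat_ge ((2 / ε + 1) / ε)
  rw [div_le_iff₀ hε] at hM
  have p : 2 / ε ≤ a M := by linarith [hA M, h1 (M + 1)]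
  rw [div_le_iff₀ hε] at p
  linarith [hn M, h1 (M + 1), h1 (-M)]

/-- the sum over a symmetric window -/
def W (C : Cusp G P) (w0 : P → P → ℝ) : ℕ → P → P → ℝ
  | 0 => sh w0 (C.t ^ (0 : ℤ))
  | M + 1 => W C w0 M + sh w0 (C.t ^ ((M : ℤ) + 1)) + sh w0 (C.t ^ (-((M : ℤ) + 1)))

lemma sh_t (j : ℤ) (a b : P) :
    sh w0 (C.t ^ j) (C.t • a) (C.t • b) = sh w0 (C.t ^ (j + 1)) a b := by
  simp only [sh, zpow_add_one, mul_smul]

lemma W_shift (M : ℕ) (a b : P) : W C w0 M (C.t • a) (C.t • b) - W C w0 M a b =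
    sh w0 (C.t ^ ((M : ℤ) + 1)) a b - sh w0 (C.t ^ (-(M : ℤ))) a b := by
  induction M with
  | zero => simp only [W, sh_t, Nat.cast_zero, neg_zero]
  | succ M ih =>
    simp only [W, Pi.add_apply, sh_t]
    rw [show -((M : ℤ) + 1) + 1 = -M by ring]
    push_cast
    linarith

lemma inv_all (h : SI C w) (ht : ∀ a b, a ≠ b → w (C.t • a) (C.t • b) = w a b) (g : G) (a b : P)
    (hab : a ≠ b) : w (g • a) (g • b) = w a b := by
  have hz : ∀ (k : ℤ) a b, a ≠ b → w (C.t ^ k • a) (C.t ^ k • b) = w a b := by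
    intro k
    induction k using Int.induction_on with
    | zero => intro a b _; simp
    | succ i ih =>
      intro a b hab
      rw [zpow_add_one, mul_smul, mul_smul, ih _ _ (smul_ne _ hab), ht a b hab]
    | pred i ih =>
      intro a b hab
      rw [zpow_sub_one, mul_smul, mul_smul, ih _ _ (smul_ne _ hab),
        ← ht _ _ (smul_ne C.t⁻¹ hab), smul_inv_smul, smul_inv_smul]
  have hk : g * (C.t ^ (C.d g).toAdd)⁻¹ ∈ C.d.ker := by
    rw [MonoidHom.mem_ker, map_mul, map_inv, map_zpow, C.dt, ← ofAdd_zsmul]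
    simp
  have := h.inv _ hk _ _ (smul_ne (C.t ^ (C.d g).toAdd) hab)
  rw [smul_smul, smul_smul, inv_mul_cancel_right, hz _ a b hab] at this
  exact this

end Avg

open Avg

theorem stAVG (hG : St_GENB) (hS : St_SHIFT) : St_AVG := by
  intro G _ P _ C w0 h0 hc hD hD'
  have hj : ∀ j : ℤ, Good C w0 (sh w0 (C.t ^ j)) := fun j =>
    good_of_tr h0 (hS G P C w0 0 _ h0) (comp_zpow hc j)
  have hW : ∀ M, Good C w0 (W C w0 M) := by
    intro M
    induction M with
    | zero => exact hj 0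
    | succ M ih => exact (ih.add (hj _)).add (hj _)
  obtain ⟨ha, hε⟩ := window (d := fun j => C.D (sh w0 (C.t ^ j))) (a := fun M => C.D (W C w0 M))
    (fun j => D_nonneg _) hD' (by
      have : sh w0 (C.t ^ (0 : ℤ)) = w0 := by ext a b; simp [sh]
      simp only [W]; rw [this, hD])
    (fun M => by simp only [W]; rw [D_add ((hW M).add (hj _)) (hj _), D_add (hW M) (hj _)])
  choose M hM using fun n : ℕ => hε (1 / ((n : ℝ) + 1)) Nat.one_div_pos_of_nat
  set V : ℕ → P → P → ℝ := fun n => (C.D (W C w0 (M n)))⁻¹ • W C w0 (M n) with hV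
  have pos : ∀ n, 0 < C.D (W C w0 n) := fun n => one_pos.trans_le (ha n)
  have gV : ∀ n, Good C w0 (V n) := fun n => (hW _).smul (inv_nonneg.2 (pos _).le)
  have dV : ∀ n, C.D (V n) = 1 := fun n => by
    rw [hV]; simp only; rw [D_smul (inv_nonneg.2 (pos _).le), inv_mul_cancel₀ (pos _).ne']
  let U : Ultrafilter ℕ := hyperfilter ℕ
  let w : P → P → ℝ := fun a b => limUnder (U : Filter ℕ) fun n => V n a b
  have hu : ∀ a b x, Tendsto (fun n => V n a b) U (𝓝 x) → w a b = x := fun a b x h => h.limUnder_eq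
  have hl : ∀ a b, a ≠ b → Tendsto (fun n => V n a b) U (𝓝 (w a b)) := by
    intro a b hab
    obtain ⟨K, -, hK⟩ := hG G P C a b hab
    obtain ⟨x, -, hx⟩ := (isCompact_Icc (a := -K) (b := K)).ultrafilter_le_nhds
      (U.map fun n => V n a b) (by
        rw [Ultrafilter.coe_map, le_principal_iff, mem_map]
        refine Eventually.of_forall fun n => ?_
        have := hK _ 0 le_rfl ((gV n).tr h0)
        rw [dV, add_zero, mul_one] at this
        exact abs_le.1 this)
    rw [hu a b x hx]; exact hx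
  have gw : Good C w0 w := Good.lim gV hl hu
  refine ⟨w, gw.tr h0, inv_all gw.toSI fun a b hab => ?_, ?_⟩
  · obtain ⟨K, K0, hK⟩ := hG G P C a b hab
    have z : Tendsto (fun n => V n (C.t • a) (C.t • b) - V n a b) atTop (𝓝 0) := by
      have lim0 : Tendsto (fun n : ℕ => K * (1 / ((n : ℝ) + 1))) atTop (𝓝 0) := by
        simpa using tendsto_one_div_add_atTop_nhds_zero_nat.const_mul K
      refine squeeze_zero_norm (fun n => ?_) lim0
      have p := hK _ 0 le_rfl ((hj ((M n : ℤ) + 1)).tr h0)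
      have q := hK _ 0 le_rfl ((hj (-(M n : ℤ))).tr h0)
      have r := mul_le_mul_of_nonneg_left (hM n) K0
      simp only [hV, Pi.smul_apply, smul_eq_mul]
      rw [← mul_sub, W_shift, Real.norm_eq_abs, abs_mul, abs_of_pos (inv_pos.2 (pos _)),
        inv_mul_le_iff₀ (pos _)]
      refine (abs_sub _ _).trans ?_
      linarith
    have z' := (z.mono_left (Nat.hyperfilter_le_atTop)).add (hl a b hab)
    rw [zero_add] at z'
    exact hu _ _ _ (z'.congr fun n => by ring)
  · have : Tendsto (fun n => C.D (V n)) U (𝓝 (C.D w)) :=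
      tendsto_finsetSum _ fun e he => (hl _ _ (C.E0_ne e he)).abs
    simp only [dV] at this
    exact tendsto_nhds_unique this tendsto_const_nhds

end Pool.Agent.Lib.THU.NB
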