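import Pool.Agent.Lib.THU.NB.RT

/-!
Sections 10 and 11: an element outside the fibre group fixes an arc, and a wandering arc.
-/

namespace Pool.Agent.Lib.THU.NB

open Set

section
variable {G : Type} [Group G] {P : Type} [MulAction G P]

/-- every cusp is fixed by an element outside the fibre group -/
lemma Cusp.ex_fix (C : Cusp G P) (a : P) : ∃ H : G, H ∉ C.d.ker ∧ H • a = a := by
  classical
  have key : ∀ n : ℤ, ∃ g ∈ C.d.ker, g • C.t ^ n • a ∈ C.E0.image Prod.fst ∪ C.E0.image Prod.snd := by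
    intro n
    obtain ⟨g, hg, e, he, h⟩ := C.ex_rep (C.t ^ n • a)
    refine ⟨g, hg, ?_⟩
    rcases h with h | h
    · exact Finset.mem_union_left _ (Finset.mem_image.2 ⟨e, he, h.symm⟩)
    · exact Finset.mem_union_right _ (Finset.mem_image.2 ⟨e, he, h.symm⟩)
  choose g hg hq using key
  obtain ⟨n, k, hnk, e⟩ := Finite.exists_ne_map_eq_of_infinite
    (fun n : ℤ => (⟨_, hq n⟩ : ↥(C.E0.image Prod.fst ∪ C.E0.image Prod.snd)))
  have e' : g n • C.t ^ n • a = g k • C.t ^ k • a := congrArg Subtype.val e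
  refine ⟨(g n * C.t ^ n)⁻¹ * (g k * C.t ^ k), ?_, ?_⟩
  · rw [MonoidHom.mem_ker, map_mul, map_inv, map_mul, map_mul, MonoidHom.mem_ker.1 (hg n),
      MonoidHom.mem_ker.1 (hg k), C.d_t_zpow, C.d_t_zpow, one_mul, one_mul, inv_mul_eq_one]
    intro h
    exact hnk (Multiplicative.ofAdd.injective h)
  · rw [mul_smul, inv_smul_eq_iff, mul_smul, mul_smul, e']

variable {C : Cusp G P} {T : Type} [MetricSpace T] [MulAction G T] {p : P → T}

/-- the cusp point is the midpoint of a point and its image under a rotation -/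
lemma Act.mid (h : Act C p) {x : G} (hx : x ∈ C.d.ker) (h1 : x ≠ 1) {a : P} (ha : x • a = a)
    (y : T) : p a ∈ seg y (x • y) ∧ 2 * dist y (p a) = dist y (x • y) := by
  have e1 := h.rot x hx h1 a ha y
  have e2 := h.iso x (p a) y
  rw [← h.eqv, ha, dist_comm (p a) y] at e2
  refine ⟨?_, e1.symm⟩
  rw [mem_seg, e2, e1]
  ring

/-- the centraliser of an element outside the fibre group consists of rotations with one centre -/
lemma Act.centre (h : Act C p) {g : G} (hg : g ∉ C.d.ker) (x0 : T) :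
    ∃ r : T, ∀ u ∈ C.d.ker, u ≠ 1 → Commute g u → ∀ y : T, dist y (u • y) = 2 * dist y r := by
  by_cases hex : ∃ u ∈ C.d.ker, u ≠ 1 ∧ Commute g u
  swap
  · exact ⟨x0, fun u hu h1 hc => absurd ⟨u, hu, h1, hc⟩ hex⟩
  obtain ⟨u, hu, h1, hc⟩ := hex
  obtain ⟨a, ha⟩ := C.per u hu g hg hc
  have ha' : u⁻¹ • a = a := inv_smul_eq_iff.2 ha.symm
  refine ⟨p a, fun v hv h2 hd => ?_⟩
  by_cases huv : u * v = 1
  · exact h.rot v hv h2 a (by rw [eq_inv_of_mul_eq_one_right huv]; exact ha')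
  obtain ⟨b, hb⟩ := C.per v hv g hg hd
  obtain ⟨e, he⟩ := C.per (u * v) (mul_mem hu hv) g hg (hc.mul_right hd)
  have he' : v • p e = u⁻¹ • p e := by
    rw [eq_inv_smul_iff, ← mul_smul, ← h.eqv, he]
  have m1 := h.mid hv h2 hb (p e)
  have m2 := h.mid (inv_mem hu) (inv_ne_one.2 h1) ha' (p e)
  rw [← he'] at m2
  have hab : p a = p b := h.rt.uniq m2.1 m1.1 (by linarith [m1.2, m2.2])
  rw [hab]
  exact h.rot v hv h2 b hb

end

theorem stFIX (hGL : St_GL) : St_FIX := by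
  intro G _ P _ C T _ _ p h hTA
  obtain ⟨a, b, hab⟩ := h.nt
  obtain ⟨H, hH, hHa⟩ := C.ex_fix a
  have hp : H • p a = p a := by rw [← h.eqv, hHa]
  have hpn : ∀ n : ℕ, H ^ n • p a = p a := fun n =>
    MulAction.mem_stabilizer_iff.1 (pow_mem (MulAction.mem_stabilizer_iff.2 hp) n)
  have hpn' : ∀ n : ℕ, (H ^ n)⁻¹ • p a = p a := fun n => inv_smul_eq_iff.2 (hpn n).symm
  have hcb : C.c b • b = b := (C.stab b _ (C.c_mem b)).2 (Subgroup.mem_zpowers _)
  have hy : C.c b • p a ≠ p a := by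
    intro e
    have e1 := h.rot _ (C.c_mem b) (C.c_ne b) b hcb (p a)
    rw [e, dist_self] at e1
    exact hab (dist_eq_zero.1 (by linarith))
  obtain ⟨i, j, hij, g, hg1, hg2⟩ := hGL C.d.ker C.m C.bas T h.rt
    (fun g x y => h.iso g x y)
    (fun u x y hxy e1 e2 => Subtype.ext (hTA u u.2 x y hxy e1 e2)) (p a)
    (fun l => H ^ (l : ℕ) • C.c b • p a) (fun l => by
      refine ⟨fun e => hy (MulAction.injective (H ^ (l : ℕ)) (e.trans (hpn l).symm)),
        ⟨H ^ (l : ℕ) * C.c b * (H ^ (l : ℕ))⁻¹, C.conj_mem _ (C.c_mem b)⟩, ?_⟩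
      change _ = (H ^ (l : ℕ) * C.c b * (H ^ (l : ℕ))⁻¹) • p a
      rw [mul_smul, mul_smul, hpn'])
  change (g : G) • p a = p a at hg1
  change (g : G) • H ^ (i : ℕ) • C.c b • p a ∈ dir (p a) (H ^ (j : ℕ) • C.c b • p a) at hg2
  have e1 : ((H ^ (j : ℕ))⁻¹ * g * H ^ (i : ℕ)) • p a = p a := by
    rw [mul_smul, mul_smul, hpn, hg1, hpn']
  have e2 : ((H ^ (j : ℕ))⁻¹ * g * H ^ (i : ℕ)) • C.c b • p a ∈ dir (p a) (C.c b • p a) := by
    rw [← smul_mem_dir h.iso (H ^ (j : ℕ)), hpn, mul_smul, mul_smul, smul_inv_smul]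
    exact hg2
  obtain ⟨m, -, hm, hfix⟩ := h.rt.fix_dir h.iso e1 e2
  refine ⟨_, ?_, p a, m, hm.symm, e1, hfix⟩
  rw [MonoidHom.mem_ker, map_mul, map_mul, map_inv, MonoidHom.mem_ker.1 g.2, mul_one,
    inv_mul_eq_one, map_pow, map_pow]
  intro e
  have e3 := congrArg Multiplicative.toAdd e
  rw [toAdd_pow, toAdd_pow, nsmul_eq_mul, nsmul_eq_mul] at e3
  have h0 : (C.d H).toAdd ≠ 0 := fun e0 => hH (by
    rw [MonoidHom.mem_ker]; exact toAdd_eq_zero.1 e0)
  exact hij (Fin.ext (by exact_mod_cast (mul_right_cancel₀ h0 e3).symm))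

theorem stWAND : St_WAND := by
  rintro G _ P _ C T _ _ p h hTA ⟨g, hg, x0, y0, hxy, hx0, hy0⟩
  have hA : ∀ u ∈ C.d.ker, ∀ z z' : T, z ≠ z' → z ∈ seg x0 y0 → z' ∈ seg x0 y0 →
      u • z ∈ seg x0 y0 → u • z' ∈ seg x0 y0 → Commute g u := by
    intro u hu z z' hne h1 h2 h3 h4
    have key : ∀ w ∈ seg x0 y0, u • w ∈ seg x0 y0 → (u⁻¹ * (g * u * g⁻¹)) • w = w := by
      intro w k1 k2
      have e1 : g⁻¹ • w = w := inv_smul_eq_iff.2 (h.rt.fix_seg h.iso hx0 hy0 k1).symm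
      rw [mul_smul, mul_smul, mul_smul, e1, h.rt.fix_seg h.iso hx0 hy0 k2, inv_smul_smul]
    have e := hTA _ (mul_mem (inv_mem hu) (C.conj_mem g hu)) z z' hne (key z h1 h3) (key z' h2 h4)
    rw [inv_mul_eq_one, eq_mul_inv_iff_mul_eq] at e
    exact e.symm
  obtain ⟨r, hr⟩ := h.centre hg x0
  obtain ⟨m, hm⟩ := h.rt.ex_med x0 y0 r
  have hJ : ∃ x : T, x ≠ m ∧ seg x m ⊆ seg x0 y0 ∧ seg x m ⊆ seg r x := by
    by_cases e : x0 = m
    · refine ⟨y0, fun e' => hxy (e.trans e'.symm), ?_, fun z hz => ?_⟩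
      · rw [← e, seg_comm]
      · rw [seg_comm]; exact seg_left hm.2.1 hz
    · refine ⟨x0, e, fun z hz => seg_left hm.1 hz, fun z hz => ?_⟩
      rw [seg_comm]; exact seg_left hm.2.2 hz
  obtain ⟨x, hxm, s1, s2⟩ := hJ
  refine ⟨x, m, hxm, fun u hu h1 z hz z' hz' => ?_⟩
  by_contra hne
  have hc := hA u hu z z' hne (s1 hz.1) (s1 hz'.1) (s1 hz.2) (s1 hz'.2)
  have hrot := hr u hu h1 hc
  have hur : u • r = r := by
    have e := hrot r
    rw [dist_self, mul_zero] at e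
    exact (dist_eq_zero.1 e).symm
  have key : ∀ w ∈ seg x m, u • w ∈ seg x m → w = r := by
    intro w k1 k2
    have e1 := h.iso u r w
    rw [hur] at e1
    have e2 := h.rt.uniq (s2 k2) (s2 k1) e1
    have e3 := hrot w
    rw [e2, dist_self] at e3
    exact dist_eq_zero.1 (by linarith)
  exact hne ((key z hz.1 hz.2).trans (key z' hz'.1 hz'.2).symm)

end Pool.Agent.Lib.THU.NB
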