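import Mathlib

/-!
Step (5) of the hyperbolization of fibred manifolds (no bump): definitions and block statements.
Paper: team store, file thurston91_geo.md.
-/

namespace Pool.Agent.Lib.THU.NB

open Matrix
open scoped Classical

/-- four pairwise distinct points -/
def Dis {P : Type} (a b c e : P) : Prop := a ≠ b ∧ a ≠ c ∧ a ≠ e ∧ b ≠ c ∧ b ≠ e ∧ c ≠ e

/-- The combinatorial data: `G` is (free of rank `m`)-by-`ℤ`, `P` is the set of cusps, `E` the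
Farey edges. -/
structure Cusp (G : Type) [Group G] (P : Type) [MulAction G P] where
  d : G →* Multiplicative ℤ
  m : ℕ
  bas : FreeGroupBasis (Fin m) d.ker
  t : G
  dt : d t = Multiplicative.ofAdd 1
  c : P → G
  E : P → P → Prop
  E0 : Finset (P × P)
  c_mem : ∀ a, c a ∈ d.ker
  c_ne : ∀ a, c a ≠ 1
  stab : ∀ a, ∀ g ∈ d.ker, g • a = a ↔ g ∈ Subgroup.zpowers (c a)
  fix1 : ∀ x ∈ d.ker, x ≠ 1 → ∀ a b : P, x • a = a → x • b = b → a = b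
  per : ∀ x ∈ d.ker, ∀ g : G, g ∉ d.ker → Commute g x → ∃ a : P, x • a = a
  two : ∃ a b : P, a ≠ b
  E_ne : ∀ a b, E a b → a ≠ b
  E_fin : ∀ a b, E a b → ∃ g ∈ d.ker, (g • a, g • b) ∈ E0
  E0_ne : ∀ e ∈ E0, e.1 ≠ e.2
  gen : ∀ R : P → P → Prop, (∀ a b, E a b → R a b) →
    (∀ a b c e, Dis a b c e → R a b → R a e → R c b → R c e → R a c) → ∀ a c, a ≠ c → R a c
  prop : ∀ (a : P) (χ : P → Prop), (∃ b, b ≠ a ∧ χ b) → (∃ e, e ≠ a ∧ ¬ χ e) →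
    ∀ S : Finset (P × P), ∃ p q, E p q ∧ p ≠ a ∧ q ≠ a ∧ χ p ∧ ¬ χ q ∧
      ∀ g ∈ d.ker, g • a = a → (g • p, g • q) ∉ S

section
variable {G : Type} [Group G] {P : Type} [MulAction G P]

/-- determinant of two vectors -/
def om (x y : Fin 2 → ℂ) : ℂ := x 0 * y 1 - x 1 * y 0

/-- the matrix `A` induces `g` on the points `v a` of the projective line -/
def Rp (v : P → Fin 2 → ℂ) (A : Matrix (Fin 2) (Fin 2) ℂ) (g : G) : Prop :=
  ∀ a, om (v (g • a)) (A *ᵥ v a) = 0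

/-- the matrix `A` composed with complex conjugation induces `g` -/
def Rq (v : P → Fin 2 → ℂ) (A : Matrix (Fin 2) (Fin 2) ℂ) (g : G) : Prop :=
  ∀ a, om (v (g • a)) (A *ᵥ star (v a)) = 0

/-- logarithm of the absolute value of the cross ratio -/
noncomputable def crl (v : P → Fin 2 → ℂ) (a b c e : P) : ℝ :=
  Real.log ‖om (v a) (v b)‖ + Real.log ‖om (v c) (v e)‖ - Real.log ‖om (v a) (v c)‖
    - Real.log ‖om (v b) (v e)‖

/-- a discrete faithful type preserving representation of the fibre group, seen on the cusps -/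
structure Rep (C : Cusp G P) (v : P → Fin 2 → ℂ) : Prop where
  inj : ∀ a b, a ≠ b → om (v a) (v b) ≠ 0
  mob : ∀ g ∈ C.d.ker, ∃ A : Matrix (Fin 2) (Fin 2) ℂ, A.det = 1 ∧ (Rp v A g ∨ Rq v A g)
  par : ∀ a, ∃ A : Matrix (Fin 2) (Fin 2) ℂ, A.det = 1 ∧ A.trace = 2 ∧ Rp v A (C.c a)
  disc : ∃ ε > 0, ∀ g ∈ C.d.ker, ∀ A : Matrix (Fin 2) (Fin 2) ℂ, A.det = 1 → Rp v A g →
    (∀ i j, ‖A i j - (1 : Matrix (Fin 2) (Fin 2) ℂ) i j‖ < ε) → g = 1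

/-- additive cross ratio of a function on pairs -/
def cw (w : P → P → ℝ) (a b c e : P) : ℝ := w a b + w c e - w a c - w b e

/-- shift by a group element -/
def sh (w : P → P → ℝ) (s : G) : P → P → ℝ := fun a b => w (s • a) (s • b)

def X1 (w : P → P → ℝ) (a b : P) (g : G) : ℝ := |w (g • a) b + w a (g • b) - 2 * w a b|

def X2 (w : P → P → ℝ) (a b : P) (g : G) : ℝ := |w a (g • b) - w (g • a) b|

/-- size of `w`: the sum over the edge representatives -/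
noncomputable def Cusp.D (C : Cusp G P) (w : P → P → ℝ) : ℝ := ∑ e ∈ C.E0, |w e.1 e.2|

/-- `w` is tree-like up to the error `δ` -/
structure Tr (C : Cusp G P) (w : P → P → ℝ) (δ : ℝ) : Prop where
  symm : ∀ a b, a ≠ b → w a b = w b a
  inv : ∀ g ∈ C.d.ker, ∀ a b, a ≠ b → w (g • a) (g • b) = w a b
  low : ∀ a b, a ≠ b → -δ ≤ w a b
  four : ∀ a b c e, Dis a b c e → w a b + w c e ≤ max (w a c + w b e) (w a e + w b c) + δ
  par : ∀ a b, a ≠ b → ∀ k : ℤ, k ≠ 0 → |w b (C.c a ^ k • b) - 2 * w a b| ≤ δ * |(k : ℝ)|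
  small : ∀ g ∈ C.d.ker, ∀ h ∈ C.d.ker, ¬ Commute g h → ∀ a b, a ≠ b →
    g ^ 2 • a ≠ b → h ^ 2 • a ≠ b → g ^ 2 • b ≠ a → h ^ 2 • b ≠ a →
    ∃ e f, (e = g ^ 2 • a ∨ e = h ^ 2 • a) ∧ e ≠ a ∧ (f = g ^ 2 • b ∨ f = h ^ 2 • b) ∧ f ≠ b ∧
      w a f - w b f - w a e + w b e ≤
        100 * (X1 w a b (g ^ 2) + X2 w a b (g ^ 2) + X1 w a b (h ^ 2) + X2 w a b (h ^ 2)) + δ

/-- the sign of cross ratios is kept by `t` and `t⁻¹` -/
def Comp (C : Cusp G P) (w : P → P → ℝ) : Prop :=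
  ∀ a b c e, Dis a b c e → cw w a b c e ≤ 0 →
    cw (sh w C.t) a b c e ≤ 0 ∧ cw (sh w C.t⁻¹) a b c e ≤ 0

end

section
variable {T : Type} [MetricSpace T]

/-- real trees: four point condition and geodesic -/
structure RT (T : Type) [MetricSpace T] : Prop where
  four : ∀ x y z u : T, dist x y + dist z u ≤ max (dist x z + dist y u) (dist x u + dist y z)
  geo : ∀ (x y : T) (s : ℝ), 0 ≤ s → s ≤ dist x y → ∃ z, dist x z = s ∧ dist z y = dist x y - s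

/-- the segment -/
def seg (x y : T) : Set T := {z | dist x z + dist z y = dist x y}

/-- the direction at `x` containing `y` -/
def dir (x y : T) : Set T := {z | dist y z < dist x y + dist x z}

/-- `m` is the median -/
def Med (x y z m : T) : Prop := m ∈ seg x y ∧ m ∈ seg y z ∧ m ∈ seg x z

/-- closed under medians -/
def MC (Z : Finset T) : Prop := ∀ x ∈ Z, ∀ y ∈ Z, ∀ z ∈ Z, ∀ m, Med x y z m → m ∈ Z

end

section
variable {G : Type} [Group G] {P : Type} [MulAction G P]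

/-- the limit action on a real tree -/
structure Act (C : Cusp G P) {T : Type} [MetricSpace T] [MulAction G T] (p : P → T) : Prop where
  rt : RT T
  iso : ∀ (g : G) (x y : T), dist (g • x) (g • y) = dist x y
  eqv : ∀ (g : G) a, p (g • a) = g • p a
  hull : ∀ x : T, ∃ a b, x ∈ seg (p a) (p b)
  rot : ∀ x ∈ C.d.ker, x ≠ 1 → ∀ a : P, x • a = a → ∀ y : T, dist y (x • y) = 2 * dist y (p a)
  small : ∀ g ∈ C.d.ker, ∀ h ∈ C.d.ker, ∀ x y : T, x ≠ y → g • x = x → g • y = y → h • x = x →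
    h • y = y → Commute g h
  nt : ∃ a b, p a ≠ p b

/-- trivial arc stabilisers in the fibre group -/
def TA (C : Cusp G P) (T : Type) [MulAction G T] : Prop :=
  ∀ u ∈ C.d.ker, ∀ x y : T, x ≠ y → u • x = x → u • y = y → u = 1

/-- the finite union of segments whose translates cover the tree -/
def KK (C : Cusp G P) {T : Type} [MetricSpace T] (p : P → T) : Set T :=
  ⋃ e ∈ C.E0, seg (p e.1) (p e.2)

end

/-! ### Block statements -/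

/-- sec. 1 -/
def St_LAM : Prop := ∃ δ : ℝ, 0 ≤ δ ∧ ∀ (G : Type) [Group G] (P : Type) [MulAction G P]
  (C : Cusp G P) (v : P → Fin 2 → ℂ), Rep C v → ∃ w : P → P → ℝ, Tr C w δ ∧
    (∀ a b c e, Dis a b c e → cw w a b c e = 2 * crl v a b c e) ∧
    ∀ a b, a ≠ b → ∃ A : Matrix (Fin 2) (Fin 2) ℂ, A.det = 1 ∧ Rp v A (C.c a * C.c b) ∧
      w a b ≤ ‖A.trace‖ + 2

/-- sec. 2 -/
def St_GENB : Prop := ∀ (G : Type) [Group G] (P : Type) [MulAction G P] (C : Cusp G P) (a b : P),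
  a ≠ b → ∃ K : ℝ, 0 ≤ K ∧ ∀ (w : P → P → ℝ) (δ : ℝ), 0 ≤ δ → Tr C w δ →
    |w a b| ≤ K * (C.D w + δ)

/-- sec. 2 -/
def St_SHIFT : Prop := ∀ (G : Type) [Group G] (P : Type) [MulAction G P] (C : Cusp G P)
  (w : P → P → ℝ) (δ : ℝ) (s : G), Tr C w δ → Tr C (sh w s) δ

/-- sec. 3 -/
def St_LIM : Prop := ∀ (G : Type) [Group G] (P : Type) [MulAction G P] (C : Cusp G P)
  (w : ℕ → P → P → ℝ) (δ L B : ℝ), 0 ≤ δ → (∀ n, Tr C (w n) δ) →
  (∀ n a b c e, Dis a b c e → cw (sh (w n) C.t) a b c e ≤ L * max (cw (w n) a b c e) 0 + B ∧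
    cw (sh (w n) C.t⁻¹) a b c e ≤ L * max (cw (w n) a b c e) 0 + B) →
  (∀ n : ℕ, C.D (sh (w n) (C.t ^ (n : ℤ))) ≤ B ∧ C.D (sh (w n) (C.t ^ (-(n : ℤ)))) ≤ B) →
  (∃ B' : ℝ, ∀ (n : ℕ) (k : ℤ), |k| ≤ n → C.D (sh (w n) (C.t ^ k)) ≤ B') ∨
    ∃ w0 : P → P → ℝ, Tr C w0 0 ∧ Comp C w0 ∧ C.D w0 = 1 ∧ ∀ j : ℤ, C.D (sh w0 (C.t ^ j)) ≤ 1

/-- sec. 4 -/
def St_AVG : Prop := ∀ (G : Type) [Group G] (P : Type) [MulAction G P] (C : Cusp G P)
  (w0 : P → P → ℝ), Tr C w0 0 → Comp C w0 → C.D w0 = 1 → (∀ j : ℤ, C.D (sh w0 (C.t ^ j)) ≤ 1) →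
    ∃ w : P → P → ℝ, Tr C w 0 ∧ (∀ (g : G) a b, a ≠ b → w (g • a) (g • b) = w a b) ∧ C.D w = 1

/-- sec. 5 -/
def St_HORO : Prop := ∀ (G : Type) [Group G] (P : Type) [MulAction G P] (C : Cusp G P)
  (w : P → P → ℝ), Tr C w 0 → ∀ a b e, a ≠ b → a ≠ e → b ≠ e → w b e ≤ w a b + w a e

/-- sec. 6 -/
def St_TREE : Prop := ∀ (G : Type) [Group G] (P : Type) [MulAction G P] (w : P → P → ℝ),
  Nonempty P → (∀ a, w a a = 0) → (∀ a b, w a b = w b a) →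
  (∀ a b c e, w a b + w c e ≤ max (w a c + w b e) (w a e + w b c)) →
  (∀ (g : G) a b, w (g • a) (g • b) = w a b) →
  ∃ (T : Type) (_ : MetricSpace T) (_ : MulAction G T) (p : P → T), RT T ∧
    (∀ (g : G) (x y : T), dist (g • x) (g • y) = dist x y) ∧ (∀ (g : G) a, p (g • a) = g • p a) ∧
    (∀ x : T, ∃ a b, x ∈ seg (p a) (p b)) ∧ ∀ a b, dist (p a) (p b) = w a b

/-- sec. 7 (uses HORO, TREE, GENB) -/
def St_ACT : Prop := ∀ (G : Type) [Group G] (P : Type) [MulAction G P] (C : Cusp G P)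
  (w : P → P → ℝ), Tr C w 0 → (∀ (g : G) a b, a ≠ b → w (g • a) (g • b) = w a b) → C.D w = 1 →
    ∃ (T : Type) (_ : MetricSpace T) (_ : MulAction G T) (p : P → T), Act C p

/-- sec. 8 -/
def St_TRIV : Prop := ∀ (G : Type) [Group G] (P : Type) [MulAction G P] (C : Cusp G P)
  (T : Type) [MetricSpace T] [MulAction G T] (p : P → T), Act C p → TA C T

/-- sec. 9, valence count -/
def St_GL1 : Prop := ∀ (T : Type) [MetricSpace T], RT T → ∀ Z : Finset T, Z.Nonempty → MC Z →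
  ∑ z ∈ Z, ((Z.erase z).image (dir z)).card + 2 = 2 * Z.card

/-- sec. 9, median closure -/
def St_GL1b : Prop := ∀ (T : Type) [MetricSpace T], RT T → ∀ S : Finset T, ∃ Z : Finset T,
  S ⊆ Z ∧ MC Z ∧ ∀ z ∈ Z, z ∉ S → ∃ a ∈ Z, ∃ b ∈ Z, a ≠ z ∧ b ≠ z ∧ dir z a ≠ dir z b

/-- sec. 9, forest inequality -/
def St_GL2 : Prop := ∀ (F : Type) [Group F] (m : ℕ) (β : FreeGroupBasis (Fin m) F) (X : Type)
  [MulAction F X] (Y : Type) (V : Finset X) (Ed : Finset (Fin m × X)) (κ : X → Y),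
  (∀ x ∈ V, ∀ g : F, g • x = x → g = 1) →
  (∀ e ∈ Ed, e.2 ∈ V ∧ β e.1 • e.2 ∈ V ∧ κ e.2 = κ (β e.1 • e.2)) →
  Ed.card + (V.image κ).card ≤ V.card

/-- sec. 9, spanning tree -/
def St_GL3 : Prop := ∀ (F : Type) [Group F] (m : ℕ) (x : Fin m → F) (X : Type) [MulAction F X]
  (O : Finset X) (Ed : Finset (Fin m × X)) (y : X), y ∈ O →
  (∀ e, e ∈ Ed ↔ e.2 ∈ O ∧ x e.1 • e.2 ∈ O) →
  (∀ z ∈ O, Relation.EqvGen (fun u v => ∃ i, (i, u) ∈ Ed ∧ v = x i • u) y z) →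
  O.card ≤ Ed.card + 1 ∧ (O.card = Ed.card + 1 → ∃ γ : X → F, (∀ z ∈ O, γ z • y = z) ∧
    ∀ e ∈ Ed, γ (x e.1 • e.2) = x e.1 * γ e.2)

/-- sec. 9 (uses GL1, GL1b, GL2, GL3) -/
def St_GL : Prop := ∀ (F : Type) [Group F] (m : ℕ) (_ : FreeGroupBasis (Fin m) F) (T : Type)
  [MetricSpace T] [MulAction F T], RT T → (∀ (g : F) (x y : T), dist (g • x) (g • y) = dist x y) →
  (∀ (u : F) (x y : T), x ≠ y → u • x = x → u • y = y → u = 1) →
  ∀ (p : T) (y : Fin (2 * m + 1) → T), (∀ i, y i ≠ p ∧ ∃ g : F, y i = g • p) →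
    ∃ i j, i ≠ j ∧ ∃ g : F, g • p = p ∧ g • y i ∈ dir p (y j)

/-- sec. 10 (uses GL) -/
def St_FIX : Prop := ∀ (G : Type) [Group G] (P : Type) [MulAction G P] (C : Cusp G P)
  (T : Type) [MetricSpace T] [MulAction G T] (p : P → T), Act C p → TA C T →
    ∃ g : G, g ∉ C.d.ker ∧ ∃ x y : T, x ≠ y ∧ g • x = x ∧ g • y = y

/-- sec. 11 -/
def St_WAND : Prop := ∀ (G : Type) [Group G] (P : Type) [MulAction G P] (C : Cusp G P)
  (T : Type) [MetricSpace T] [MulAction G T] (p : P → T), Act C p → TA C T →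
    (∃ g : G, g ∉ C.d.ker ∧ ∃ x y : T, x ≠ y ∧ g • x = x ∧ g • y = y) →
    ∃ x y : T, x ≠ y ∧ ∀ u ∈ C.d.ker, u ≠ 1 → {z | z ∈ seg x y ∧ u • z ∈ seg x y}.Subsingleton

/-- sec. 12 -/
def St_NW : Prop := ∀ (G : Type) [Group G] (P : Type) [MulAction G P] (C : Cusp G P)
  (T : Type) [MetricSpace T] [MulAction G T] (p : P → T), Act C p → ∀ x y : T, x ≠ y →
    ¬ ∀ u ∈ C.d.ker, u ≠ 1 → {z | z ∈ seg x y ∧ u • z ∈ seg x y}.Subsingleton

/-- the theorem of step (5) -/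
def St_NB : Prop := ∀ (G : Type) [Group G] (P : Type) [MulAction G P] (C : Cusp G P)
  (v : ℕ → P → Fin 2 → ℂ) (L B : ℝ), (∀ n, Rep C (v n)) →
  (∀ n a b c e, Dis a b c e →
    crl (v n) (C.t • a) (C.t • b) (C.t • c) (C.t • e) ≤ L * max (crl (v n) a b c e) 0 + B ∧
    crl (v n) (C.t⁻¹ • a) (C.t⁻¹ • b) (C.t⁻¹ • c) (C.t⁻¹ • e) ≤
      L * max (crl (v n) a b c e) 0 + B) →
  (∀ g ∈ C.d.ker, ∃ M : ℝ, ∀ (n : ℕ) (A : Matrix (Fin 2) (Fin 2) ℂ), A.det = 1 →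
    (Rp (v n) A (C.t ^ (n : ℤ) * g * (C.t ^ (n : ℤ))⁻¹) ∨
      Rp (v n) A (C.t ^ (-(n : ℤ)) * g * (C.t ^ (-(n : ℤ)))⁻¹)) → ‖A.trace‖ ≤ M) →
  ∀ a b c e, Dis a b c e → ∃ M : ℝ, ∀ (n : ℕ) (k : ℤ), |k| ≤ n →
    |crl (v n) (C.t ^ k • a) (C.t ^ k • b) (C.t ^ k • c) (C.t ^ k • e)| ≤ M

end Pool.Agent.Lib.THU.NB
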