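import Pool.Agent.Lib.THU.GL1
import Pool.Agent.Lib.THU.NB.Defs

/-!
Finitely many orbits of directions (finite form of the index count).
-/

set_option autoImplicit false

namespace Pool.Agent.Lib.THU.NB

open Finset FreeGroup Pointwise
open scoped Classical

namespace GLc

variable {T : Type} [MetricSpace T]

lemma dsymm {x y z : T} (h : z ∈ dir x y) : y ∈ dir x z := by
  simp only [dir, Set.mem_setOf_eq] at h ⊢
  rw [dist_comm]; linarith

lemma dtrans (R : RT T) {x y z u : T} (h : z ∈ dir x y) (h' : u ∈ dir x z) : u ∈ dir x y := by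
  simp only [dir, Set.mem_setOf_eq] at h h' ⊢
  have := R.four y u x z
  rw [dist_comm y x, dist_comm u z, dist_comm u x] at this
  rcases le_max_iff.1 this with h | h <;> linarith

lemma deq (R : RT T) {x y z : T} (h : z ∈ dir x y) : dir x z = dir x y :=
  Set.ext fun _ => ⟨dtrans R h, dtrans R (dsymm h)⟩

lemma dself {x y : T} (h : y ≠ x) : y ∈ dir x y := by
  simp only [dir, Set.mem_setOf_eq, dist_self]
  have := dist_pos.2 h.symm
  linarith

lemma dnot (x y : T) : x ∉ dir x y := by simp [dir, dist_comm]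

lemma seg_of_not {x y z : T} (h : z ∉ dir x y) : x ∈ seg z y := by
  simp only [dir, seg, Set.mem_setOf_eq, not_lt] at h ⊢
  have := dist_triangle z x y
  rw [dist_comm y z, dist_comm x z] at h
  linarith

lemma not_of_seg {x y z : T} (h : x ∈ seg z y) : z ∉ dir x y := by
  simp only [dir, seg, Set.mem_setOf_eq, not_lt] at h ⊢
  rw [dist_comm y z, dist_comm x z]
  linarith

lemma sdist (R : RT T) {x y m n : T} (hm : m ∈ seg x y) (hn : n ∈ seg x y)
    (h : dist x m ≤ dist x n) : dist x m + dist m n = dist x n := by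
  simp only [seg, Set.mem_setOf_eq] at hm hn
  have h1 := R.four x y m n
  have h2 := dist_triangle x m n
  rw [dist_comm y n, dist_comm y m] at h1
  rcases le_max_iff.1 h1 with h | h <;> linarith

lemma tripod (R : RT T) {a b z : T} (h : z ∈ seg a b) (x : T) : z ∈ seg x a ∨ z ∈ seg x b := by
  simp only [seg, Set.mem_setOf_eq] at h ⊢
  have h1 := R.four a b x z
  have h2 := dist_triangle x z a
  have h3 := dist_triangle x z b
  rw [dist_comm a x, dist_comm b z, dist_comm b x] at h1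
  rw [dist_comm a z] at h h1
  rcases le_max_iff.1 h1 with h | h
  · left; linarith
  · right; linarith

lemma exmed (R : RT T) (x y z : T) : ∃ m, Med x y z m := by
  have t1 := dist_triangle y x z
  have t2 := dist_triangle x y z
  have t3 := dist_triangle x z y
  rw [dist_comm y x] at t1
  rw [dist_comm z y] at t3
  obtain ⟨m, h1, h2⟩ := R.geo x y ((dist x y + dist x z - dist y z) / 2) (by linarith)
    (by linarith)
  have h3 := R.four x y m z
  have h4 := dist_triangle x m z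
  rw [dist_comm y m] at h3
  have h5 : dist m z = dist x z - dist x m := by
    rcases le_max_iff.1 h3 with h | h <;> linarith
  refine ⟨m, ?_, ?_, ?_⟩ <;> simp only [seg, Set.mem_setOf_eq]
  · linarith
  · rw [dist_comm y m]; linarith
  · linarith

lemma umed (R : RT T) {x y z m n : T} (hm : Med x y z m) (hn : Med x y z n) : m = n := by
  have e : dist x m = dist x n := by
    obtain ⟨a1, a2, a3⟩ := hm
    obtain ⟨b1, b2, b3⟩ := hn
    simp only [seg, Set.mem_setOf_eq] at a1 a2 a3 b1 b2 b3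
    rw [dist_comm y m] at a2
    rw [dist_comm y n] at b2
    linarith
  have := sdist R hm.1 hn.1 e.le
  exact dist_eq_zero.1 (by linarith)

/-- medians of a finite set -/
noncomputable def Z (R : RT T) (Y : Finset T) : Finset T :=
  (Y ×ˢ Y ×ˢ Y).image fun q => (exmed R q.1 q.2.1 q.2.2).choose

lemma mem_Z (R : RT T) {Y : Finset T} {m : T} :
    m ∈ Z R Y ↔ ∃ a ∈ Y, ∃ b ∈ Y, ∃ c ∈ Y, Med a b c m := by
  simp only [Z, mem_image, mem_product, Prod.exists]
  constructor
  · rintro ⟨a, b, c, ⟨h1, h2, h3⟩, rfl⟩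
    exact ⟨a, h1, b, h2, c, h3, (exmed R a b c).choose_spec⟩
  · rintro ⟨a, h1, b, h2, c, h3, h⟩
    exact ⟨a, b, c, ⟨h1, h2, h3⟩, umed R (exmed R a b c).choose_spec h⟩

lemma sub_Z (R : RT T) {Y : Finset T} {a : T} (h : a ∈ Y) : a ∈ Z R Y :=
  (mem_Z R).2 ⟨a, h, a, h, a, h, by simp [Med, seg]⟩

lemma far (R : RT T) {Y : Finset T} {z : T} (h : z ∈ Z R Y) (x : T) : ∃ a ∈ Y, z ∈ seg x a := by
  obtain ⟨a, h1, b, h2, c, -, h, -⟩ := (mem_Z R).1 h
  rcases tripod R h x with h | h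
  exacts [⟨a, h1, h⟩, ⟨b, h2, h⟩]

/-- directions at medians -/
noncomputable def D (R : RT T) (Y : Finset T) : Finset (T × Set T) :=
  ((Z R Y ×ˢ Y).filter fun q => q.2 ≠ q.1).image fun q => (q.1, dir q.1 q.2)

lemma mem_D (R : RT T) {Y : Finset T} {δ : T × Set T} :
    δ ∈ D R Y ↔ δ.1 ∈ Z R Y ∧ ∃ a ∈ Y, a ≠ δ.1 ∧ δ.2 = dir δ.1 a := by
  simp only [D, mem_image, mem_filter, mem_product, Prod.exists]
  constructor
  · rintro ⟨x, a, ⟨⟨h1, h2⟩, h3⟩, rfl⟩
    exact ⟨h1, a, h2, h3, rfl⟩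
  · rintro ⟨h1, a, h2, h3, h4⟩
    exact ⟨δ.1, a, ⟨⟨h1, h2⟩, h3⟩, Prod.ext rfl h4.symm⟩

lemma card_aux (R : RT T) {Y : Finset T} {r : T} (hr : r ∈ Y) :
    (((Z R Y).erase r) ×ˢ (univ : Finset Bool)).card + 2 = 2 * (Z R Y).card := by
  rw [card_product, card_erase_of_mem (sub_Z R hr), card_univ, Fintype.card_bool]
  have := card_pos.2 ⟨r, sub_Z R hr⟩
  omega

lemma upper (R : RT T) {Y : Finset T} {r : T} (hr : r ∈ Y) :
    (D R Y).card + 2 ≤ 2 * (Z R Y).card := by
  have h1 : ∀ δ : T × Set T, ∃ z, δ ∈ D R Y → z ∈ Z R Y ∧ z ∈ δ.2 ∧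
      ∀ u ∈ Z R Y, u ∈ δ.2 → dist δ.1 z ≤ dist δ.1 u := fun δ => by
    by_cases h : δ ∈ D R Y
    · obtain ⟨-, a, h2, h3, h4⟩ := (mem_D R).1 h
      obtain ⟨z, hz, hm⟩ := exists_min_image ((Z R Y).filter (· ∈ δ.2)) (dist δ.1)
        ⟨a, mem_filter.2 ⟨sub_Z R h2, h4 ▸ dself h3⟩⟩
      exact ⟨z, fun _ => ⟨(mem_filter.1 hz).1, (mem_filter.1 hz).2,
        fun u a b => hm u (mem_filter.2 ⟨a, b⟩)⟩⟩
    · exact ⟨r, fun h' => absurd h' h⟩
  choose nr hn using h1
  have e1 : ∀ δ ∈ D R Y, ∀ u ∈ δ.2, δ.2 = dir δ.1 u := fun δ h u hu => by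
    obtain ⟨-, a, -, -, h4⟩ := (mem_D R).1 h
    rw [h4] at hu ⊢
    exact (deq R hu).symm
  have e2 : ∀ δ ∈ D R Y, δ.1 ∉ δ.2 := fun δ h => by
    obtain ⟨-, a, -, -, h4⟩ := (mem_D R).1 h
    rw [h4]; exact dnot _ _
  have e3 : ∀ δ ∈ D R Y, ∀ δ' ∈ D R Y, r ∉ δ.2 → r ∉ δ'.2 → nr δ = nr δ' →
      dist r δ.1 ≤ dist r δ'.1 → δ.1 = δ'.1 := fun δ h δ' h' a a' e le => by
    by_contra ne
    obtain ⟨-, b2, b3⟩ := hn δ h
    obtain ⟨-, c2, -⟩ := hn δ' h'
    have s1 : δ.1 ∈ seg r (nr δ) := seg_of_not (e1 δ h _ b2 ▸ a)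
    have s2 : δ'.1 ∈ seg r (nr δ) := e ▸ seg_of_not (e1 δ' h' _ c2 ▸ a')
    have s3 := sdist R s1 s2 le
    simp only [seg, Set.mem_setOf_eq] at s1 s2
    have p1 := dist_pos.2 ne
    have p2 : 0 < dist δ'.1 (nr δ) := dist_pos.2 fun e' => e2 δ' h' (by rw [e', e]; exact c2)
    have := b3 δ'.1 ((mem_D R).1 h').1 (by
      rw [e1 δ h _ b2]
      simp only [dir, Set.mem_setOf_eq]
      rw [dist_comm (nr δ)]; linarith)
    linarith
  rw [← card_aux R hr]
  refine Nat.add_le_add_right (card_le_card_of_injOn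
    (fun δ => if r ∈ δ.2 then (δ.1, true) else (nr δ, false)) (fun δ h => ?_)
    fun δ h δ' h' e => ?_) 2
  · have h : δ ∈ D R Y := h
    by_cases a : r ∈ δ.2
    · simp only [a, if_true, coe_product, Set.mem_prod, mem_coe, mem_erase, mem_univ, and_true]
      exact ⟨fun e => e2 δ h (e ▸ a), ((mem_D R).1 h).1⟩
    · simp only [a, if_false, coe_product, Set.mem_prod, mem_coe, mem_erase, mem_univ, and_true]
      exact ⟨fun e => a (e ▸ (hn δ h).2.1), (hn δ h).1⟩
  · have h : δ ∈ D R Y := h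
    have h' : δ' ∈ D R Y := h'
    by_cases a : r ∈ δ.2 <;> by_cases a' : r ∈ δ'.2 <;>
      simp only [a, a', if_true, if_false, Prod.mk.injEq, and_true, reduceCtorEq,
        and_false] at e
    · exact Prod.ext e (by rw [e1 δ h r a, e1 δ' h' r a', e])
    · have : δ.1 = δ'.1 := by
        rcases le_total (dist r δ.1) (dist r δ'.1) with l | l
        exacts [e3 δ h δ' h' a a' e l, (e3 δ' h' δ h a' a e.symm l).symm]
      exact Prod.ext this (by rw [e1 δ h _ (hn δ h).2.1, e1 δ' h' _ (hn δ' h').2.1, e, this])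

lemma lower (R : RT T) {Y : Finset T} {r : T} (hr : r ∈ Y) :
    2 * (Z R Y).card ≤ (D R Y).card + 2 := by
  have h1 : ∀ z, ∃ x, z ≠ r → x ∈ Z R Y ∧ x ∈ seg r z ∧ x ≠ z ∧
      ∀ u ∈ Z R Y, u ∈ seg r z → u ≠ z → dist r u ≤ dist r x := fun z => by
    by_cases h : z ≠ r
    · obtain ⟨x, hx, hm⟩ := exists_max_image ((Z R Y).filter fun u => u ∈ seg r z ∧ u ≠ z)
        (dist r) ⟨r, mem_filter.2 ⟨sub_Z R hr, by simp [seg], h.symm⟩⟩
      exact ⟨x, fun _ => ⟨(mem_filter.1 hx).1, (mem_filter.1 hx).2.1, (mem_filter.1 hx).2.2,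
        fun u a b c => hm u (mem_filter.2 ⟨a, b, c⟩)⟩⟩
    · exact ⟨r, fun h' => absurd h' h⟩
  choose par hp using h1
  have key : ∀ z ∈ Z R Y, z ≠ r → ∀ z' ∈ Z R Y, z' ≠ r → par z = par z' →
      z' ∈ dir (par z) z → z = z' := by
    intro z hz nz z' hz' nz' e hd
    obtain ⟨-, a2, a3, a4⟩ := hp z nz
    obtain ⟨-, b2, b3, b4⟩ := hp z' nz'
    rw [← e] at b2 b3 b4
    obtain ⟨m, m1, m2, m3⟩ := exmed R r z z'
    have lt : dist r (par z) < dist r m := by
      simp only [seg, dir, Set.mem_setOf_eq] at a2 b2 m1 m2 m3 hd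
      rw [dist_comm z m] at m2
      linarith
    by_cases c1 : m = z <;> by_cases c2 : m = z'
    · rw [← c1, c2]
    · exact absurd (b4 m (c1 ▸ hz) m3 c2) (not_le.2 lt)
    · exact absurd (a4 m (c2 ▸ hz') m1 c1) (not_le.2 lt)
    · obtain ⟨a, ha, sa⟩ := far R hz r
      obtain ⟨a', ha', sa'⟩ := far R hz' r
      refine absurd (a4 m ((mem_Z R).2 ⟨r, hr, a, ha, a', ha', ?_⟩) m1 c1) (not_le.2 lt)
      have t1 := dist_triangle r m a
      have t2 := dist_triangle m z a
      have t3 := dist_triangle r m a'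
      have t4 := dist_triangle m z' a'
      have p1 := dist_pos.2 c1
      have p2 := dist_pos.2 c2
      simp only [seg, Set.mem_setOf_eq] at m1 m2 m3 sa sa'
      have u1 : dist m z + dist z a = dist m a := by linarith
      have u2 : dist m z' + dist z' a' = dist m a' := by linarith
      have d1 : a ∈ dir m z := by simp only [dir, Set.mem_setOf_eq]; linarith
      have d2 : a' ∈ dir m z' := by simp only [dir, Set.mem_setOf_eq]; linarith
      refine ⟨?_, seg_of_not fun h => ?_, ?_⟩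
      · simp only [seg, Set.mem_setOf_eq]; linarith
      · exact not_of_seg (x := m) (z := z) (y := z') m2
          (dtrans R d2 (dtrans R h (dsymm d1)))
      · simp only [seg, Set.mem_setOf_eq]; linarith
  rw [← card_aux R hr]
  refine Nat.add_le_add_right (card_le_card_of_injOn
    (fun q => if q.2 then (q.1, dir q.1 r) else (par q.1, dir (par q.1) q.1)) ?_ ?_) 2
  · rintro ⟨z, b⟩ h
    simp only [coe_product, Set.mem_prod, mem_coe, mem_erase, mem_univ, and_true] at h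
    cases b
    · obtain ⟨a1, -, a3, -⟩ := hp z h.1
      obtain ⟨a, ha, sa⟩ := far R h.2 (par z)
      have p1 := dist_pos.2 a3
      simp only [seg, Set.mem_setOf_eq] at sa
      have d1 : a ∈ dir (par z) z := by simp only [dir, Set.mem_setOf_eq]; linarith
      exact (mem_D R).2 ⟨a1, a, ha, fun e => dnot (par z) z (by rwa [e] at d1), (deq R d1).symm⟩
    · exact (mem_D R).2 ⟨h.2, r, hr, h.1.symm, rfl⟩
  · rintro ⟨z, b⟩ h ⟨z', b'⟩ h' e
    simp only [coe_product, Set.mem_prod, mem_coe, mem_erase, mem_univ, and_true] at h h'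
    cases b <;> cases b' <;>
      simp only [Bool.false_eq_true, if_true, if_false, Prod.mk.injEq] at e
    · have : z' ∈ dir (par z) z := e.2 ▸ dself (hp z' h'.1).2.2.1.symm
      rw [key z h.2 h.1 z' h'.2 h'.1 e.1 this]
    · exact absurd (e.2 ▸ dself h'.1.symm) (not_of_seg (hp z h.1).2.1)
    · exact absurd (e.2 ▸ dself h.1.symm) (not_of_seg (hp z' h'.1).2.1)
    · rw [e.1]

section act
variable {F : Type} [Group F] [MulAction F T]

lemma smul_dir (iso : ∀ (g : F) (x y : T), dist (g • x) (g • y) = dist x y) (g : F) (x a : T) :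
    g • dir x a = dir (g • x) (g • a) := by
  ext z
  rw [Set.mem_smul_set_iff_inv_smul_mem]
  simp only [dir, Set.mem_setOf_eq]
  rw [← iso g a, ← iso g x a, ← iso g x, smul_inv_smul]

lemma smul_Z (R : RT T) (iso : ∀ (g : F) (x y : T), dist (g • x) (g • y) = dist x y) (g : F)
    {Y Y' : Finset T} (h : ∀ a ∈ Y, g • a ∈ Y') {z : T} (hz : z ∈ Z R Y) : g • z ∈ Z R Y' := by
  obtain ⟨a, h1, b, h2, c, h3, hm⟩ := (mem_Z R).1 hz
  refine (mem_Z R).2 ⟨_, h a h1, _, h b h2, _, h c h3, ?_⟩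
  simpa only [Med, seg, Set.mem_setOf_eq, iso] using hm

lemma smul_D (R : RT T) (iso : ∀ (g : F) (x y : T), dist (g • x) (g • y) = dist x y) (g : F)
    {Y Y' : Finset T} (h : ∀ a ∈ Y, g • a ∈ Y') {δ : T × Set T} (hz : δ ∈ D R Y) :
    g • δ ∈ D R Y' := by
  obtain ⟨h1, a, h2, h3, h4⟩ := (mem_D R).1 hz
  refine (mem_D R).2 ⟨smul_Z R iso g h h1, _, h a h2, fun e => h3 (smul_left_cancel g e), ?_⟩
  rw [Prod.smul_snd, h4, smul_dir iso, Prod.smul_fst]

lemma free_D (R : RT T) (iso : ∀ (g : F) (x y : T), dist (g • x) (g • y) = dist x y)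
    (ta : ∀ (u : F) (x y : T), x ≠ y → u • x = x → u • y = y → u = 1) {Y : Finset T}
    {δ : T × Set T} (hz : δ ∈ D R Y) (g : F) (e : g • δ = δ) : g = 1 := by
  obtain ⟨x, S⟩ := δ
  obtain ⟨-, a, -, h3, h4⟩ := (mem_D R).1 hz
  simp only at h3 h4
  subst h4
  simp only [Prod.smul_mk, Prod.mk.injEq] at e
  obtain ⟨e1, e2⟩ := e
  rw [smul_dir iso, e1] at e2
  have h5 : a ∈ dir x (g • a) := e2 ▸ dself h3
  obtain ⟨m, m1, m2, m3⟩ := exmed R x a (g • a)
  have e3 : dist x (g • m) = dist x m := by rw [← iso g x m, e1]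
  have m4 : g • m ∈ seg x (g • a) := by
    simp only [seg, Set.mem_setOf_eq] at m1 ⊢
    rw [e3, iso, m1, ← iso g x a, e1]
  have := sdist R m4 m3 e3.le
  refine ta g x m ?_ e1 (dist_eq_zero.1 (by linarith))
  rintro rfl
  exact not_of_seg m2 h5

end act

lemma main (m : ℕ) [MulAction (FreeGroup (Fin m)) T] (R : RT T)
    (iso : ∀ (g : FreeGroup (Fin m)) (x y : T), dist (g • x) (g • y) = dist x y)
    (ta : ∀ (u : FreeGroup (Fin m)) (x y : T), x ≠ y → u • x = x → u • y = y → u = 1)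
    (p : T) (y : Fin (2 * m + 1) → T)
    (hy : ∀ i, y i ≠ p ∧ ∃ g : FreeGroup (Fin m), y i = g • p) :
    ∃ i j, i ≠ j ∧ ∃ g : FreeGroup (Fin m), g • p = p ∧ g • y i ∈ dir p (y j) := by
  by_contra hcon
  choose hy1 g hg using hy
  rcases Nat.eq_zero_or_pos m with rfl | hm
  · exact hy1 0 (by rw [hg 0, Subsingleton.elim (g 0) 1, one_smul])
  haveI : Nonempty (Fin m) := ⟨⟨0, hm⟩⟩
  obtain ⟨n, hn⟩ : ∃ n, ∀ i, (g i).toWord.length ≤ n :=
    ⟨univ.sup fun i => (g i).toWord.length, fun i =>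
      le_sup (f := fun i => (g i).toWord.length) (mem_univ i)⟩
  let W : Finset (FreeGroup (Fin m)) :=
    (List.finite_length_le (Fin m × Bool) (n + 1)).toFinset.image FreeGroup.mk
  have mW : ∀ L : List (Fin m × Bool), L.length ≤ n + 1 → FreeGroup.mk L ∈ W := fun L h =>
    mem_image_of_mem _ (by simpa using h)
  let Y : Finset T := W.image (· • p)
  let Yi : Fin m → Finset T := fun i => (W.filter fun w => of i * w ∈ W).image (· • p)
  have pY : p ∈ Y := mem_image.2 ⟨1, mW [] (by simp), one_smul _ _⟩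
  have pYi : ∀ i, p ∈ Yi i := fun i => mem_image.2 ⟨1, mem_filter.2 ⟨mW [] (by simp), by
    rw [mul_one]; exact mW [(i, true)] (by simp)⟩, one_smul _ _⟩
  have s1 : ∀ i, ∀ a ∈ Yi i, (1 : FreeGroup (Fin m)) • a ∈ Y := fun i a ha => by
    rw [one_smul]; exact image_subset_image (filter_subset _ _) ha
  have s2 : ∀ i, ∀ a ∈ Yi i, of i • a ∈ Y := fun i a ha => by
    obtain ⟨w, hw, rfl⟩ := mem_image.1 ha
    exact mem_image.2 ⟨_, (mem_filter.1 hw).2, mul_smul _ _ _⟩
  obtain ⟨ρ, h, Q, r1, r2, r3, r4, r5⟩ := GL.span (Z R Y) (fun i => Z R (Yi i)) fun i x hx =>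
    ⟨by simpa using smul_Z R iso 1 (s1 i) hx, smul_Z R iso _ (s2 i) hx⟩
  have conn : ∀ L : List (Fin m × Bool), L.length ≤ n + 1 → ρ (FreeGroup.mk L • p) = ρ p := by
    intro L
    induction L with
    | nil => intro _; rw [← FreeGroup.one_eq_mk, one_smul]
    | cons x L ih =>
      intro hL
      have hL' : L.length ≤ n + 1 := by simp at hL; omega
      rw [← ih hL']
      obtain ⟨i, b⟩ := x
      cases b
      · have e : of i * FreeGroup.mk ((i, false) :: L) = FreeGroup.mk L := by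
          rw [of, FreeGroup.mul_mk]
          exact Quot.sound (Red.Step.not (L₁ := []) (x := i) (b := true))
        refine r1 _ _ (.rel _ _ ⟨i, sub_Z R (mem_image.2 ⟨_, mem_filter.2 ⟨mW _ hL, ?_⟩, rfl⟩),
          ?_⟩)
        · rw [e]; exact mW _ hL'
        · rw [← mul_smul, e]
      · have e : of i * FreeGroup.mk L = FreeGroup.mk ((i, true) :: L) := by
          rw [of, FreeGroup.mul_mk]; rfl
        refine (r1 _ _ (.rel _ _ ⟨i, sub_Z R (mem_image.2 ⟨_, mem_filter.2 ⟨mW _ hL', ?_⟩, rfl⟩),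
          ?_⟩)).symm
        · rw [e]; exact mW _ hL
        · rw [← mul_smul, e]
  have conn' : ∀ a ∈ Y, ρ a = ρ p := fun a ha => by
    obtain ⟨w, hw, rfl⟩ := mem_image.1 ha
    obtain ⟨L, hL, rfl⟩ := mem_image.1 hw
    exact conn L (by simpa using hL)
  let Q' := Q.erase (ρ p)
  let cls : T × Set T → (T × Set T) ⊕ Set (T × Set T) := fun δ =>
    if ρ δ.1 ∈ Q' then .inl ((h δ.1)⁻¹ • δ) else .inr (MulAction.orbit (FreeGroup (Fin m)) δ)
  have f1 := GL.forest (D R Y) (fun i => D R (Yi i)) cls (fun i δ hδ => ?_)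
    (fun δ _ δ' _ e => ?_) fun δ hδ => free_D R iso ta hδ
  rotate_left
  · refine ⟨by simpa using smul_D R iso 1 (s1 i) hδ, smul_D R iso _ (s2 i) hδ, ?_⟩
    have hz := ((mem_D R).1 hδ).1
    have e : ρ (of i • δ.1) = ρ δ.1 := (r1 _ _ (.rel _ _ ⟨i, hz, rfl⟩)).symm
    simp only [cls, Prod.smul_fst, e]
    split_ifs with c
    · rw [r4 i _ hz (mem_of_mem_erase c), mul_inv_rev, mul_smul, inv_smul_smul]
    · rw [MulAction.orbit_smul]
  · simp only [cls] at e
    split_ifs at e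
    · exact ⟨h δ'.1 * (h δ.1)⁻¹, by rw [mul_smul, Sum.inl.inj e, smul_inv_smul]⟩
    · exact MulAction.orbit_eq_iff.1 (Sum.inr.inj e).symm
  have two : ∀ c, ∃ a : Bool → T, c ∈ Q' → (∀ b, a b ∈ Y ∧ a b ≠ c) ∧
      dir c (a false) ≠ dir c (a true) := fun c => by
    by_cases hc : c ∈ Q'
    · obtain ⟨c1, c2⟩ := r3 c (mem_of_mem_erase hc)
      have nY : ∀ a ∈ Y, a ≠ c := fun a ha e => ne_of_mem_erase hc (by
        rw [← conn' a ha, e, c2])
      obtain ⟨a, h1, b, h2, -, -, hm, -⟩ := (mem_Z R).1 c1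
      refine ⟨fun t => if t then b else a, fun _ => ⟨fun t => ?_, fun e => ?_⟩⟩
      · cases t
        exacts [⟨h1, nY a h1⟩, ⟨h2, nY b h2⟩]
      · exact not_of_seg hm (by
          have := dself (nY a h1)
          simp only [Bool.false_eq_true, if_true, if_false] at e
          rwa [e] at this)
    · exact ⟨fun _ => p, fun h' => absurd h' hc⟩
  choose a ha using two
  have f2 : ((Q' ×ˢ (univ : Finset Bool)).disjSum (univ : Finset (Fin (2 * m + 1)))).card ≤
      ((D R Y).image cls).card := by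
    have c1 : ∀ c ∈ Q', ∀ S, cls (c, S) = .inl ((h c)⁻¹ • (c, S)) := fun c hc S => by
      simp only [cls, (r3 c (mem_of_mem_erase hc)).2, hc, if_true]
    have c2 : ∀ S, cls (p, S) = .inr (MulAction.orbit (FreeGroup (Fin m)) (p, S)) := fun S => by
      simp only [cls, Q', notMem_erase, if_false]
    have c3 : ∀ c ∈ Q', (h c)⁻¹ • c = c := fun c hc => by
      obtain ⟨d1, d2⟩ := r3 c (mem_of_mem_erase hc)
      have := r2 c d1
      rw [d2] at this
      rw [inv_smul_eq_iff, this]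
    refine card_le_card_of_injOn
      (Sum.elim (fun q => cls (q.1, dir q.1 (a q.1 q.2))) fun i => cls (p, dir p (y i))) ?_ ?_
    · rintro (⟨c, b⟩ | i) hq
      · have hc : c ∈ Q' := by simpa using hq
        exact mem_image_of_mem _ ((mem_D R).2 ⟨(r3 c (mem_of_mem_erase hc)).1, _,
          ((ha c hc).1 b).1, ((ha c hc).1 b).2, rfl⟩)
      · refine mem_image_of_mem _ ((mem_D R).2 ⟨sub_Z R pY, y i, ?_, hy1 i, rfl⟩)
        refine mem_image.2 ⟨g i, ?_, (hg i).symm⟩
        rw [← mk_toWord (x := g i)]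
        exact mW _ ((hn i).trans (Nat.le_succ n))
    · rintro (⟨c, b⟩ | i) hq (⟨c', b'⟩ | j) hq' e <;> simp only [Sum.elim_inl, Sum.elim_inr] at e
      · have hc : c ∈ Q' := by simpa using hq
        have hc' : c' ∈ Q' := by simpa using hq'
        rw [c1 c hc, c1 c' hc', Sum.inl.injEq] at e
        have e1 := congrArg Prod.fst e
        simp only [Prod.smul_mk, c3 c hc, c3 c' hc'] at e1
        subst e1
        have e2 := congrArg Prod.snd (smul_left_cancel _ e)
        have := (ha c hc).2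
        cases b <;> cases b'
        exacts [rfl, absurd e2 this, absurd e2.symm this, rfl]
      · rw [c1 c (by simpa using hq), c2] at e; cases e
      · rw [c1 c' (by simpa using hq'), c2] at e; cases e
      · rw [c2, c2, Sum.inr.injEq, MulAction.orbit_eq_iff] at e
        obtain ⟨u, hu⟩ := e
        simp only [Prod.smul_mk, Prod.mk.injEq] at hu
        by_contra ne
        refine hcon ⟨j, i, fun e => ne (by rw [e]), u, hu.1, ?_⟩
        rw [← hu.2]
        exact Set.smul_mem_smul_set (dself (hy1 j))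
  rw [card_disjSum, card_product, card_univ, card_univ, Fintype.card_bool, Fintype.card_fin] at f2
  have f3 := upper R pY
  have f4 : ∑ i, 2 * (Z R (Yi i)).card ≤ ∑ i, ((D R (Yi i)).card + 2) :=
    sum_le_sum fun i _ => lower R (pYi i)
  rw [← mul_sum, sum_add_distrib, sum_const, card_univ, Fintype.card_fin, smul_eq_mul] at f4
  have f5 : Q.card ≤ Q'.card + 1 := by
    have := pred_card_le_card_erase (s := Q) (a := ρ p)
    simp only [Q']; omega
  have f6 : ∑ i, (D R (Yi i)).card + ((D R Y).image cls).card ≤ (D R Y).card := by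
    refine le_of_eq_of_le (congrArg _ (congrArg Finset.card ?_)) f1
    ext x
    simp only [mem_image]
  omega

end GLc

theorem stGL : St_GL := by
  intro F _ m β T _ _ R iso ta p y hy
  letI : MulAction (FreeGroup (Fin m)) T := MulAction.compHom T β.repr.symm.toMonoidHom
  have e : ∀ (g : FreeGroup (Fin m)) (x : T), g • x = β.repr.symm g • x := fun _ _ => rfl
  obtain ⟨i, j, h, g, h1, h2⟩ := GLc.main m R (fun g x y => iso _ x y)
    (fun u x y a b c => β.repr.symm.injective (by rw [_root_.map_one]; exact ta _ x y a b c)) p y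
    fun i => ⟨(hy i).1, by
      obtain ⟨g, hg⟩ := (hy i).2
      exact ⟨β.repr g, by rw [e, MulEquiv.symm_apply_apply, hg]⟩⟩
  exact ⟨i, j, h, β.repr.symm g, h1, h2⟩

end Pool.Agent.Lib.THU.NB

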