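import Pool.Agent.Lib.THU.NB.Defs

/-!
The tropical limit satisfies the triangle inequality.
-/

namespace Pool.Agent.Lib.THU.NB

variable {G : Type} [Group G] {P : Type} [MulAction G P] {C : Cusp G P} {w : P → P → ℝ}

/-- Only finitely many horoballs cut a long interval out of a given line. -/
lemma horo_finite (h : Tr C w 0) {s : ℝ} (hs : 0 < s) {p q : P} (hpq : p ≠ q) :
    {a | a ≠ p ∧ a ≠ q ∧ s ≤ w p q - w a p - w a q}.Finite := by
  refine Set.Finite.of_finite_image (f := fun a => ⌊w a p / s⌋)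
    ((Set.finite_Icc 0 ⌊w p q / s⌋).subset ?_) ?_
  · rintro _ ⟨a, ⟨h1, h2, h3⟩, rfl⟩
    have a1 := h.low a p h1
    have a2 := h.low a q h2
    exact ⟨Int.floor_nonneg.2 (div_nonneg (by linarith) hs.le),
      Int.floor_le_floor (div_le_div_of_nonneg_right (by linarith) hs.le)⟩
  · have key : ∀ x y : ℝ, y + s ≤ x → ⌊x / s⌋ ≠ ⌊y / s⌋ := fun x y e => by
      have : y / s + 1 ≤ x / s := by rw [div_add_one hs.ne']; gcongr
      have := Int.floor_le_floor this
      rw [Int.floor_add_one] at this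
      omega
    rintro a ⟨h1, h2, h3⟩ b ⟨h4, h5, h6⟩ e
    by_contra hne
    have a1 := h.four p q a b ⟨hpq, h1.symm, h4.symm, h2.symm, h5.symm, hne⟩
    have a2 := h.low a b hne
    rw [← h.symm a p h1, ← h.symm b p h4, ← h.symm a q h2, ← h.symm b q h5] at a1
    rcases le_max_iff.1 (le_of_add_le_add_right (a := (0 : ℝ)) (by simpa using a1) :
      w p q + w a b ≤ max (w a p + w b q) (w b p + w a q)) with t | t
    · exact key _ _ (by linarith) e
    · exact key _ _ (by linarith) e.symm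

theorem stHORO : St_HORO := by
  intro G _ P _ C w h a b e hab hae hbe
  by_contra hc
  have hs : 0 < w b e - w a b - w a e := by linarith
  set s := w b e - w a b - w a e with hs'
  have h1 : ∀ x : P, ∃ g ∈ C.d.ker, (∃ g ∈ C.d.ker, g • a = x) → g • a = x := fun x => by
    by_cases t : ∃ g ∈ C.d.ker, g • a = x
    · obtain ⟨g, g1, g2⟩ := t
      exact ⟨g, g1, fun _ => g2⟩
    · exact ⟨1, one_mem _, fun t' => (t t').elim⟩
  choose γ γ1 γ2 using h1
  have fin : (⋃ z ∈ (C.E0 : Set (P × P)), (fun x => ((γ x)⁻¹ • z.1, (γ x)⁻¹ • z.2)) ''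
      {x | x ≠ z.1 ∧ x ≠ z.2 ∧ s ≤ w z.1 z.2 - w x z.1 - w x z.2}).Finite :=
    C.E0.finite_toSet.biUnion fun z hz => (horo_finite h hs (C.E0_ne z hz)).image _
  obtain ⟨p, q, a1, a2, a3, a4, a5, a6⟩ := C.prop a (fun p => p = b ∨ w b p - w a b - w a p < s)
    ⟨b, hab.symm, Or.inl rfl⟩ ⟨e, hae.symm, by simp [hbe.symm, hs']⟩ fin.toFinset
  have hpq := C.E_ne p q a1
  rw [not_or, not_lt] at a5
  have key : s ≤ w p q - w a p - w a q := by
    by_cases t : p = b
    · exact t ▸ a5.2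
    have b1 := h.four b q a p ⟨Ne.symm a5.1, hab.symm, Ne.symm t, a3, hpq.symm, a2.symm⟩
    rw [← h.symm a b hab, ← h.symm p q hpq, h.symm q a a3, add_zero] at b1
    have b2 := a4.resolve_left t
    rcases le_max_iff.1 b1 with u | u <;> linarith [a5.2]
  obtain ⟨g, g1, g2⟩ := C.E_fin p q a1
  refine a6 ((γ (g • a))⁻¹ * g) (mul_mem (inv_mem (γ1 _)) g1)
    (by rw [mul_smul, inv_smul_eq_iff, γ2 _ ⟨g, g1, rfl⟩]) ?_
  simp only [Set.Finite.mem_toFinset, Set.mem_iUnion]
  refine ⟨_, g2, g • a, ⟨by simpa using a2.symm, by simpa using a3.symm, ?_⟩, by simp [mul_smul]⟩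
  rwa [h.inv g g1 p q hpq, h.inv g g1 a p a2.symm, h.inv g g1 a q a3.symm]

end Pool.Agent.Lib.THU.NB
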