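import Pool.Agent.Lib.THU.NB.Defs
import Pool.Agent.Lib.THU28.Cusp2

/-!
Step (5), sec. 1: the lambda lengths of a discrete representation are tree-like up to a universal
error.
-/

namespace Pool.Agent.Lib.THU.NB

open Matrix THU28

lemma par_of_om {x y : V2} (hx : x ≠ 0) (h : om x y = 0) : ∃ s : ℂ, y = s • x := by
  unfold om at h
  by_cases e : x 0 = 0
  · have e1 : x 1 ≠ 0 := fun e1 => hx (by ext i; fin_cases i <;> simp [e, e1])
    refine ⟨y 1 / x 1, ?_⟩
    ext i; fin_cases i <;> simp [e, e1]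
    simpa [e, e1] using h
  · refine ⟨y 0 / x 0, ?_⟩
    ext i; fin_cases i <;> simp [e]
    field_simp; linear_combination h

variable {G : Type} [Group G] {P : Type} [MulAction G P]

lemma exists_nrm (C : Cusp G P) (v : P → V2) (h : Rep C v) : ∃ r : P → ℂ, (∀ a, r a ≠ 0) ∧
    Nrm (F := C.d.ker) (fun a => ⟨C.c a, C.c_mem a⟩) (fun a => r a • v a) ∧
    ∀ (A : M2) (g : C.d.ker), THU28.Rp (fun a => r a • v a) A g → Rp v A (g : G) := by
  have v0 := ne_zero_of_inj h.inj C.two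
  have : ∀ a, ∃ r : ℂ, r ≠ 0 ∧ Rp v (tv (r • v a) 1) (C.c a) := fun a => by
    obtain ⟨A, hd, ht, hA⟩ := h.par a
    obtain ⟨s, hs⟩ := par_of_om (v0 _) (hA a)
    rw [(C.stab a _ (C.c_mem a)).2 (Subgroup.mem_zpowers _)] at hs
    obtain ⟨k, rfl⟩ := exists_tv hd ht (v0 a) hs
    obtain ⟨r, rfl⟩ := IsAlgClosed.exists_pow_nat_eq k two_pos
    refine ⟨r, ?_, by rwa [tv_smul, one_mul]⟩
    rintro rfl
    obtain ⟨ε, hε, hd'⟩ := h.disc
    exact C.c_ne a (hd' _ (C.c_mem a) _ hd hA fun i j => by simp [tv_zero, hε])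
  choose r r0 hr using this
  have V0 : ∀ a, r a • v a ≠ 0 := fun a => smul_ne_zero (r0 a) (v0 a)
  have k1 : ∀ (A : M2) (g : C.d.ker), THU28.Rp (fun a => r a • v a) A g → Rp v A (g : G) := by
    intro A g hA a
    obtain ⟨s, hs⟩ := hA.2 a
    have := congrArg (THU28.om (v (g • a))) hs
    simp only [mulVec_smul, om_smul_right, om_self, mul_zero] at this
    exact (mul_eq_zero.1 this).resolve_left (r0 a)
  have k2 : ∀ (A : M2) (g : C.d.ker), A.det = 1 → Rp v A (g : G) →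
      THU28.Rp (fun a => r a • v a) A g := fun A g hd hA => ⟨hd, fun a => par_of_om (V0 _) (by
    change THU28.om _ _ = 0
    rw [mulVec_smul, om_smul_right, om_smul_left]
    exact mul_eq_zero_of_right _ (mul_eq_zero_of_right _ (hA a)))⟩
  refine ⟨r, r0, ⟨fun a b hab => ?_, fun a => k2 _ _ (tv_det _ _) (hr a), fun g => ?_, ?_,
    fun a e => C.c_ne a (congrArg Subtype.val e), fun a g => ?_,
    fun x hx => C.fix1 x x.2 fun e => hx (Subtype.ext e), C.two⟩, k1⟩
  · rw [om_smul_right, om_smul_left]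
    exact mul_ne_zero (r0 b) (mul_ne_zero (r0 a) (h.inj a b hab))
  · obtain ⟨A, hd, hA | hA⟩ := h.mob g g.2
    · exact ⟨A, .inl (k2 _ _ hd hA)⟩
    · refine ⟨A, .inr ⟨hd, fun a => par_of_om (V0 _) ?_⟩⟩
      change THU28.om _ _ = 0
      rw [star_smul, mulVec_smul, om_smul_right, om_smul_left]
      exact mul_eq_zero_of_right _ (mul_eq_zero_of_right _ (hA a))
  · obtain ⟨ε, hε, hd⟩ := h.disc
    exact ⟨ε, hε, fun A g hA hn => Subtype.ext (hd g g.2 A hA.1 (k1 A g hA) hn)⟩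
  · refine (C.stab a g g.2).trans ⟨?_, ?_⟩
    · rintro ⟨k, hk⟩
      exact ⟨k, Subtype.ext hk⟩
    · rintro ⟨k, hk⟩
      exact ⟨k, congrArg Subtype.val hk⟩

lemma exists_max_ne {L : P → ℝ} {a x y : P} (h0 : L a = 0) (hp : ∀ z, z ≠ a → 0 < L z)
    (h : x ≠ a ∨ y ≠ a) : ∃ e, (e = x ∨ e = y) ∧ e ≠ a ∧ L x ≤ L e ∧ L y ≤ L e := by
  rcases le_total (L x) (L y) with l | l
  · refine ⟨y, .inr rfl, ?_, l, le_rfl⟩
    rintro rfl
    exact absurd (hp x (h.resolve_right (not_not.2 rfl))) (by linarith)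
  · refine ⟨x, .inl rfl, ?_, le_rfl, l⟩
    rintro rfl
    exact absurd (hp y (h.resolve_left (not_not.2 rfl))) (by linarith)

lemma log_le_X {p q o : ℝ} (hp : 0 < p) (hq : 0 < q) (ho : 0 < o) {S : ℝ}
    (h : |2 * Real.log p + 2 * Real.log q - 2 * (2 * Real.log o)| +
      |2 * Real.log q - 2 * Real.log p| ≤ 4 * S) :
    p ≤ Real.exp S * o ∧ q ≤ Real.exp S * o := by
  have h1 := le_abs_self (2 * Real.log p + 2 * Real.log q - 2 * (2 * Real.log o))
  have h2 := abs_le.1 (le_refl |2 * Real.log q - 2 * Real.log p|)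
  constructor
  · rw [← Real.exp_log hp, ← Real.exp_log ho, ← Real.exp_add, Real.exp_le_exp]; linarith
  · rw [← Real.exp_log hq, ← Real.exp_log ho, ← Real.exp_add, Real.exp_le_exp]; linarith

lemma tr_of_nrm (C : Cusp G P) (V : P → V2)
    (h : Nrm (F := C.d.ker) (fun a => ⟨C.c a, C.c_mem a⟩) V) :
    Tr C (fun a b => 2 * Real.log ‖THU28.om (V a) (V b)‖) 5000 := by
  have := C.bas.isFreeGroup
  have pos : ∀ a b, a ≠ b → 0 < ‖THU28.om (V a) (V b)‖ := fun a b hab =>
    norm_pos_iff.2 (h.inj a b hab)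
  refine ⟨fun a b _ => by rw [norm_om_swap], fun g hg a b _ => ?_, fun a b hab => ?_,
    fun a b c e ⟨ab, ac, ae, bc, be, ce⟩ => ?_, fun a b hab k hk => ?_,
    fun g hg g' hg' hc a b hab n1 n2 n3 n4 => ?_⟩
  · exact congrArg (fun x => 2 * Real.log x) (h.inv ⟨g, hg⟩ a b)
  · have h1 := Real.log_le_log (by norm_num) (h.low hab)
    have h2 := Real.log_le_sub_one_of_pos (show (0 : ℝ) < 72 by norm_num)
    rw [Real.log_pow, one_div, Real.log_inv] at h1
    push_cast at h1; linarith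
  · have e1 : THU28.om (V a) (V b) * THU28.om (V c) (V e) =
        THU28.om (V a) (V c) * THU28.om (V b) (V e) - THU28.om (V a) (V e) * THU28.om (V b) (V c) := by
      linear_combination pluecker (V a) (V b) (V c) (V e)
    have e2 := (congrArg norm e1).le.trans (norm_sub_le _ _)
    simp only [norm_mul] at e2
    have h2 := Real.log_le_sub_one_of_pos (show (0 : ℝ) < 2 by norm_num)
    have p0 := mul_pos (pos a b ab) (pos c e ce)
    have l0 := Real.log_mul (pos a b ab).ne' (pos c e ce).ne'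
    rcases le_total (‖THU28.om (V a) (V c)‖ * ‖THU28.om (V b) (V e)‖)
      (‖THU28.om (V a) (V e)‖ * ‖THU28.om (V b) (V c)‖) with l | l
    · have h1 := Real.log_le_log p0 (e2.trans (by linarith :
        _ ≤ 2 * (‖THU28.om (V a) (V e)‖ * ‖THU28.om (V b) (V c)‖)))
      rw [Real.log_mul two_ne_zero (mul_pos (pos a e ae) (pos b c bc)).ne',
        Real.log_mul (pos a e ae).ne' (pos b c bc).ne'] at h1
      refine le_trans ?_ (add_le_add_left (le_max_right _ _) _); linarith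
    · have h1 := Real.log_le_log p0 (e2.trans (by linarith :
        _ ≤ 2 * (‖THU28.om (V a) (V c)‖ * ‖THU28.om (V b) (V e)‖)))
      rw [Real.log_mul two_ne_zero (mul_pos (pos a c ac) (pos b e be)).ne',
        Real.log_mul (pos a c ac).ne' (pos b e be).ne'] at h1
      refine le_trans ?_ (add_le_add_left (le_max_left _ _) _); linarith
  · have e1 : ‖THU28.om (V b) (V (C.c a ^ k • b))‖ = _ := h.par_norm a b k
    have k1 : (1 : ℝ) ≤ |(k : ℝ)| := by exact_mod_cast Int.one_le_abs hk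
    have h1 := Real.log_le_sub_one_of_pos (show 0 < |(k : ℝ)| by linarith)
    have h2 := Real.log_nonneg k1
    simp only [e1]
    rw [Real.log_mul (by linarith) (pow_pos (pos a b hab) 2).ne', Real.log_pow, abs_le]
    push_cast; constructor <;> linarith
  · set u : C.d.ker := ⟨g, hg⟩
    set u' : C.d.ker := ⟨g', hg'⟩
    have hc' : ¬ Commute (u ^ 2) (u' ^ 2) := fun e => hc (congrArg Subtype.val (comm_of_sq e))
    have nb : ∀ x : P, g ^ 2 • x ≠ x ∨ g' ^ 2 • x ≠ x := fun x => by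
      by_contra e
      push Not at e
      obtain ⟨i, hi⟩ := (h.stab x (u ^ 2)).1 e.1
      obtain ⟨j, hj⟩ := (h.stab x (u' ^ 2)).1 e.2
      exact hc' (hi ▸ hj ▸ Commute.zpow_zpow_self _ _ _)
    obtain ⟨e, he, ea, e1, e2⟩ := exists_max_ne (L := fun z => ‖THU28.om (V a) (V z)‖)
      (by simp [om_self]) (fun z hz => pos a z hz.symm) (nb a)
    obtain ⟨f, hf, fb, f1, f2⟩ := exists_max_ne (L := fun z => ‖THU28.om (V z) (V b)‖)
      (by simp [om_self]) (fun z hz => pos z b hz) (nb b)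
    refine ⟨e, f, he, ea, hf, fb, ?_⟩
    simp only [X1, X2]
    set x1 := |2 * Real.log ‖THU28.om (V (g ^ 2 • a)) (V b)‖ +
      2 * Real.log ‖THU28.om (V a) (V (g ^ 2 • b))‖ - 2 * (2 * Real.log ‖THU28.om (V a) (V b)‖)|
    set x2 := |2 * Real.log ‖THU28.om (V a) (V (g ^ 2 • b))‖ -
      2 * Real.log ‖THU28.om (V (g ^ 2 • a)) (V b)‖|
    set x3 := |2 * Real.log ‖THU28.om (V (g' ^ 2 • a)) (V b)‖ +
      2 * Real.log ‖THU28.om (V a) (V (g' ^ 2 • b))‖ - 2 * (2 * Real.log ‖THU28.om (V a) (V b)‖)|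
    set x4 := |2 * Real.log ‖THU28.om (V a) (V (g' ^ 2 • b))‖ -
      2 * Real.log ‖THU28.om (V (g' ^ 2 • a)) (V b)‖|
    have p1 : 0 ≤ x1 := abs_nonneg _
    have p2 : 0 ≤ x2 := abs_nonneg _
    have p3 : 0 ≤ x3 := abs_nonneg _
    have p4 : 0 ≤ x4 := abs_nonneg _
    set S := (x1 + x2 + x3 + x4) / 4 with hS
    obtain ⟨a1, a2⟩ := log_le_X (S := S) (pos _ _ n1) (pos _ _ n3.symm) (pos a b hab)
      (by change x1 + x2 ≤ _; linarith)
    obtain ⟨b1, b2⟩ := log_le_X (S := S) (pos _ _ n2) (pos _ _ n4.symm) (pos a b hab)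
      (by change x3 + x4 ≤ _; linarith)
    obtain ⟨A, hA⟩ := h.sq u
    obtain ⟨B, hB⟩ := h.sq u'
    have k := h.small hA hB hc' hab (Real.one_le_exp (by linarith : 0 ≤ S)) (pos a e ea.symm)
      a1 a2 b1 b2 e1 e2 f1 f2
    have eb : e ≠ b := by rcases he with rfl | rfl <;> assumption
    have fa : f ≠ a := by rcases hf with rfl | rfl <;> assumption
    have c1 : ‖THU28.om (V e) (V b)‖ ≤ Real.exp S * ‖THU28.om (V a) (V b)‖ := by
      rcases he with rfl | rfl <;> assumption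
    have c2 : ‖THU28.om (V a) (V f)‖ ≤ Real.exp S * ‖THU28.om (V a) (V b)‖ := by
      rcases hf with rfl | rfl <;> assumption
    have l1 := Real.log_le_log (pos e b eb) c1
    have l2 := Real.log_le_log (pos a f fa.symm) c2
    have l3 := Real.log_le_log (pow_pos (pos a b hab) 2) k
    have l4 := Real.log_le_sub_one_of_pos (show (0 : ℝ) < 1024 by norm_num)
    rw [Real.log_mul (Real.exp_ne_zero _) (pos a b hab).ne', Real.log_exp] at l1 l2
    rw [Real.log_mul (by positivity) (mul_pos (pos a e ea.symm) (pos f b fb)).ne',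
      Real.log_mul (pos a e ea.symm).ne' (pos f b fb).ne', Real.log_pow, Real.log_pow,
      Real.log_mul (by norm_num) (by positivity), Real.log_pow, Real.log_exp] at l3
    rw [norm_om_swap (V f) (V b), norm_om_swap (V e) (V b)]
    push_cast at l3
    linarith

theorem stLAM : St_LAM := by
  refine ⟨5000, by norm_num, fun G _ P _ C v h => ?_⟩
  obtain ⟨r, r0, hN, hR⟩ := exists_nrm C v h
  refine ⟨_, tr_of_nrm C _ hN, fun a b c e ⟨ab, ac, _, _, be, ce⟩ => ?_, fun a b hab => ?_⟩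
  · have k : ∀ x y, x ≠ y → Real.log ‖THU28.om (r x • v x) (r y • v y)‖ =
        Real.log ‖r x‖ + Real.log ‖r y‖ + Real.log ‖om (v x) (v y)‖ := fun x y hxy => by
      have : ‖THU28.om (v x) (v y)‖ ≠ 0 := norm_ne_zero_iff.2 (h.inj x y hxy)
      rw [om_smul_left, om_smul_right, norm_mul, norm_mul, add_assoc,
        Real.log_mul (norm_ne_zero_iff.2 (r0 x)) (mul_ne_zero (norm_ne_zero_iff.2 (r0 y)) this),
        Real.log_mul (norm_ne_zero_iff.2 (r0 y)) this]
      rfl
    simp only [cw, crl, k _ _ ab, k _ _ ac, k _ _ be, k _ _ ce]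
    ring
  · have hA := (hN.par a).mul (hN.par b)
    refine ⟨_, hA.1, hR _ _ hA, ?_⟩
    have o0 := norm_pos_iff.2 (hN.inj a b hab)
    have h1 := Real.log_le_sub_one_of_pos (pow_pos o0 2)
    rw [Real.log_pow] at h1
    have h2 := norm_sub_le (2 : ℂ) (tv (r a • v a) 1 * tv (r b • v b) 1).trace
    rw [trace_tv_mul] at h2 ⊢
    simp only [sub_sub_cancel, one_mul, norm_pow, Complex.norm_ofNat] at h2 ⊢
    push_cast at h1
    linarith

end Pool.Agent.Lib.THU.NB
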