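import Pool.Agent.Lib.THU.NB.Defs
import Pool.Agent.Lib.THU28.Free

/-!
Rescaled limits of tree-like functions.
-/

namespace Pool.Agent.Lib.THU.NB

open Filter Topology

variable {G : Type} [Group G] {P : Type} [MulAction G P] {C : Cusp G P} {w w0 : P → P → ℝ}
  {δ r : ℝ}

lemma smul_ne' (g : G) {a b : P} (h : a ≠ b) : g • a ≠ g • b := (MulAction.injective g).ne h

lemma Dis.smul' (g : G) {a b c e : P} (h : Dis a b c e) : Dis (g • a) (g • b) (g • c) (g • e) :=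
  ⟨smul_ne' g h.1, smul_ne' g h.2.1, smul_ne' g h.2.2.1, smul_ne' g h.2.2.2.1,
    smul_ne' g h.2.2.2.2.1, smul_ne' g h.2.2.2.2.2⟩

lemma sh_sh (w : P → P → ℝ) (s s' : G) : sh (sh w s) s' = sh w (s * s') := by
  funext a b; simp [sh, mul_smul]

lemma Cusp.c_pow_ne (C : Cusp G P) {a b : P} (h : a ≠ b) {k : ℤ} (hk : k ≠ 0) :
    b ≠ C.c a ^ k • b := fun e => by
  have := C.bas.isFreeGroup
  have := THU28.tf (A := C.d.ker)
  have m := C.d.ker.zpow_mem (C.c_mem a) k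
  refine h (C.fix1 _ m (fun t => C.c_ne a ?_) a b
    ((C.stab a _ m).2 (Subgroup.zpow_mem_zpowers _ _)) e.symm)
  have : (⟨C.c a, C.c_mem a⟩ : C.d.ker) ^ k = 1 := Subtype.ext t
  exact congrArg Subtype.val ((IsMulTorsionFree.zpow_eq_one_iff_left hk).1 this)

lemma X1_mul (hr : 0 ≤ r) (a b : P) (g : G) : X1 (fun a b => r * w a b) a b g = r * X1 w a b g := by
  rw [X1, X1, ← abs_of_nonneg hr, ← abs_mul, abs_of_nonneg hr]; congr 1; ring

lemma X2_mul (hr : 0 ≤ r) (a b : P) (g : G) : X2 (fun a b => r * w a b) a b g = r * X2 w a b g := by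
  rw [X2, X2, ← abs_of_nonneg hr, ← abs_mul, abs_of_nonneg hr]; congr 1; ring

lemma Cusp.D_mul (C : Cusp G P) (hr : 0 ≤ r) : C.D (fun a b => r * w a b) = r * C.D w := by
  simp [Cusp.D, Finset.mul_sum, abs_mul, abs_of_nonneg hr]

lemma Tr.mul (h : Tr C w δ) (hr : 0 ≤ r) : Tr C (fun a b => r * w a b) (r * δ) where
  symm a b t := by rw [h.symm a b t]
  inv g hg a b t := by rw [h.inv g hg a b t]
  low a b t := by nlinarith [h.low a b t]
  four a b c e t := by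
    simp only [← mul_add, ← mul_max_of_nonneg _ _ hr]
    exact mul_le_mul_of_nonneg_left (h.four a b c e t) hr
  par a b t k hk := by
    have := mul_le_mul_of_nonneg_left (h.par a b t k hk) hr
    rw [← abs_of_nonneg hr, ← abs_mul, abs_of_nonneg hr] at this
    rwa [mul_assoc, mul_left_comm 2, ← mul_sub]
  small g hg g' hg' n a b t t1 t2 t3 t4 := by
    obtain ⟨e, f, h1, h2, h3, h4, h5⟩ := h.small g hg g' hg' n a b t t1 t2 t3 t4
    refine ⟨e, f, h1, h2, h3, h4, ?_⟩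
    simp only [X1_mul hr, X2_mul hr]
    nlinarith [mul_le_mul_of_nonneg_left h5 hr]

section
variable {ι : Type*} {F : Filter ι} {v : ι → P → P → ℝ}
  (hv : ∀ a b, a ≠ b → Tendsto (fun i => v i a b) F (𝓝 (w0 a b)))
include hv

lemma tendsto_X1 {a b : P} {g : G} (t : a ≠ b) (t1 : g • a ≠ b) (t2 : g • b ≠ a) :
    Tendsto (fun i => X1 (v i) a b g) F (𝓝 (X1 w0 a b g)) :=
  (((hv _ _ t1).add (hv _ _ t2.symm)).sub ((hv _ _ t).const_mul 2)).abs

lemma tendsto_X2 {a b : P} {g : G} (t1 : g • a ≠ b) (t2 : g • b ≠ a) :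
    Tendsto (fun i => X2 (v i) a b g) F (𝓝 (X2 w0 a b g)) :=
  ((hv _ _ t2.symm).sub (hv _ _ t1)).abs

lemma tendsto_cw {a b c e : P} (t : Dis a b c e) :
    Tendsto (fun i => cw (v i) a b c e) F (𝓝 (cw w0 a b c e)) :=
  (((hv _ _ t.1).add (hv _ _ t.2.2.2.2.2)).sub (hv _ _ t.2.1)).sub (hv _ _ t.2.2.2.2.1)

lemma tendsto_sh (s : G) (a b : P) (t : a ≠ b) :
    Tendsto (fun i => sh (v i) s a b) F (𝓝 (sh w0 s a b)) := hv _ _ (smul_ne' s t)

lemma tendsto_D (C : Cusp G P) : Tendsto (fun i => C.D (v i)) F (𝓝 (C.D w0)) :=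
  tendsto_finsetSum _ fun e he => (hv _ _ (C.E0_ne e he)).abs

end

lemma Tr.lim {ι : Type*} (U : Ultrafilter ι) {v : ι → P → P → ℝ} {ε : ι → ℝ}
    (h : ∀ i, Tr C (v i) (ε i)) (he : Tendsto ε U (𝓝 0))
    (hv : ∀ a b, a ≠ b → Tendsto (fun i => v i a b) U (𝓝 (w0 a b))) : Tr C w0 0 where
  symm a b t := tendsto_nhds_unique (hv a b t)
    ((hv b a t.symm).congr fun i => ((h i).symm a b t).symm)
  inv g hg a b t := tendsto_nhds_unique (hv _ _ (smul_ne' g t))
    ((hv a b t).congr fun i => ((h i).inv g hg a b t).symm)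
  low a b t := le_of_tendsto_of_tendsto' he.neg (hv a b t) fun i => (h i).low a b t
  four a b c e t := le_of_tendsto_of_tendsto' ((hv _ _ t.1).add (hv _ _ t.2.2.2.2.2))
    ((((hv _ _ t.2.1).add (hv _ _ t.2.2.2.2.1)).max
      ((hv _ _ t.2.2.1).add (hv _ _ t.2.2.2.1))).add he) fun i => (h i).four a b c e t
  par a b t k hk := le_of_tendsto_of_tendsto'
    ((hv _ _ (C.c_pow_ne t hk)).sub ((hv _ _ t).const_mul 2)).abs (he.mul_const _)
    fun i => (h i).par a b t k hk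
  small g hg g' hg' n a b t t1 t2 t3 t4 := by
    obtain ⟨⟨e, f⟩, ⟨h1, h3⟩, hq⟩ := (Ultrafilter.eventually_exists_mem_iff (f := U)
      (P := fun (q : P × P) i => q.1 ≠ a ∧ q.2 ≠ b ∧
        v i a q.2 - v i b q.2 - v i a q.1 + v i b q.1 ≤ 100 * (X1 (v i) a b (g ^ 2) +
          X2 (v i) a b (g ^ 2) + X1 (v i) a b (g' ^ 2) + X2 (v i) a b (g' ^ 2)) + ε i)
      ((Set.toFinite {g ^ 2 • a, g' ^ 2 • a}).prod (Set.toFinite {g ^ 2 • b, g' ^ 2 • b}))).1
      (.of_forall fun i =>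
        let ⟨e, f, h1, h2, h3, h4, h5⟩ := (h i).small g hg g' hg' n a b t t1 t2 t3 t4
        ⟨(e, f), ⟨h1, h3⟩, h2, h4, h5⟩)
    obtain ⟨_, h2, h4, -⟩ := hq.exists
    have e1 : b ≠ e := by rcases h1 with rfl | rfl <;> [exact t1.symm; exact t2.symm]
    have e2 : a ≠ f := by rcases h3 with rfl | rfl <;> [exact t3.symm; exact t4.symm]
    exact ⟨e, f, h1, h2, h3, h4, le_of_tendsto_of_tendsto
      ((((hv _ _ e2).sub (hv _ _ (Ne.symm h4))).sub (hv _ _ (Ne.symm h2))).add (hv _ _ e1))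
      ((((((tendsto_X1 hv t t1 t3).add (tendsto_X2 hv t1 t3)).add (tendsto_X1 hv t t2 t4)).add
        (tendsto_X2 hv t2 t4)).const_mul 100).add he) (hq.mono fun i q => q.2.2)⟩

/-- bounded families have limits along an ultrafilter -/
lemma exists_lim {ι : Type*} (U : Ultrafilter ι) (v : ι → P → P → ℝ)
    (h : ∀ a b, a ≠ b → ∃ K, ∀ i, |v i a b| ≤ K) :
    ∃ w0 : P → P → ℝ, ∀ a b, a ≠ b → Tendsto (fun i => v i a b) U (𝓝 (w0 a b)) := by
  have : ∀ a b, ∃ l, a ≠ b → Tendsto (fun i => v i a b) U (𝓝 l) := fun a b => by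
    by_cases t : a = b
    · exact ⟨0, fun e => (e t).elim⟩
    obtain ⟨K, hK⟩ := h a b t
    obtain ⟨l, -, hl⟩ := (isCompact_Icc (a := -K) (b := K)).ultrafilter_le_nhds'
      (U.map fun i => v i a b) (Filter.mem_map.2 (univ_mem' fun i => abs_le.1 (hK i)))
    exact ⟨l, fun _ => hl⟩
  choose w0 h0 using this
  exact ⟨w0, h0⟩

lemma D_shift (hG : St_GENB) (C : Cusp G P) (s : G) : ∃ K : ℝ, 0 ≤ K ∧ ∀ (w : P → P → ℝ) (δ : ℝ),
    0 ≤ δ → Tr C w δ → C.D (sh w s) ≤ K * (C.D w + δ) := by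
  choose K K0 hK using fun e : C.E0 => hG G P C _ _ (smul_ne' s (C.E0_ne e.1 e.2))
  refine ⟨∑ e, K e, Finset.sum_nonneg fun e _ => K0 e, fun w δ h0 h => ?_⟩
  rw [Finset.sum_mul, Cusp.D, ← Finset.sum_coe_sort]
  exact Finset.sum_le_sum fun e _ => hK e w δ h0 h

theorem stLIM (hG : St_GENB) (hS : St_SHIFT) : St_LIM := by
  intro G _ P _ C w δ L B h0 hw hq hB
  rw [or_iff_not_imp_left]
  intro hb
  have ex : ∀ i : ℕ, ∃ (n : ℕ) (k : ℤ), |k| ≤ n ∧ (i : ℝ) + 1 < C.D (sh (w n) (C.t ^ k)) ∧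
      ∀ l : ℤ, |l| ≤ n → C.D (sh (w n) (C.t ^ l)) ≤ C.D (sh (w n) (C.t ^ k)) := fun i => by
    obtain ⟨n, k, h1, h2⟩ : ∃ (n : ℕ) (k : ℤ), |k| ≤ n ∧ (i : ℝ) + 1 < C.D (sh (w n) (C.t ^ k)) := by
      by_contra t
      exact hb ⟨i + 1, fun n k e => not_lt.1 fun e' => t ⟨n, k, e, e'⟩⟩
    obtain ⟨k', h3, h4⟩ := (Finset.Icc (-(n : ℤ)) n).exists_max_image
      (fun k => C.D (sh (w n) (C.t ^ k))) ⟨0, by simp⟩
    have m : ∀ l : ℤ, |l| ≤ n → l ∈ Finset.Icc (-(n : ℤ)) n := fun l e =>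
      Finset.mem_Icc.2 (abs_le.1 e)
    exact ⟨n, k', abs_le.2 (Finset.mem_Icc.1 h3), h2.trans_le (h4 k (m k h1)),
      fun l e => h4 l (m l e)⟩
  choose n k hk hM hx using ex
  set u : ℕ → P → P → ℝ := fun i => sh (w (n i)) (C.t ^ k i) with hu
  set M : ℕ → ℝ := fun i => C.D (u i)
  have M1 : ∀ i, 1 ≤ M i := fun i => le_trans (by simp) (hM i).le
  have M0 : ∀ i, 0 ≤ (M i)⁻¹ := fun i => inv_nonneg.2 (zero_le_one.trans (M1 i))
  have MM : ∀ i, (M i)⁻¹ * M i = 1 := fun i => inv_mul_cancel₀ (zero_lt_one.trans_le (M1 i)).ne'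
  have tu : ∀ i, Tr C (u i) δ := fun i => hS G P C _ _ _ (hw _)
  let U := hyperfilter ℕ
  have Mt : Tendsto M U atTop := (tendsto_atTop_mono (fun i => by linarith [hM i])
    tendsto_natCast_atTop_atTop).mono_left Nat.hyperfilter_le_atTop
  have Mi : ∀ x : ℝ, Tendsto (fun i => (M i)⁻¹ * x) U (𝓝 0) := fun x => by
    simpa using Mt.inv_tendsto_atTop.mul_const x
  obtain ⟨w0, hv⟩ := exists_lim U (fun i a b => (M i)⁻¹ * u i a b) fun a b t => by
    obtain ⟨K, K0, hK⟩ := hG G P C a b t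
    refine ⟨K * (1 + δ), fun i => (hK _ _ (mul_nonneg (M0 i) h0) ((tu i).mul (M0 i))).trans ?_⟩
    rw [C.D_mul (M0 i), MM]
    gcongr
    exact mul_le_of_le_one_left h0 (inv_le_one_of_one_le₀ (M1 i))
  refine ⟨w0, Tr.lim U (fun i => (tu i).mul (M0 i)) (Mi δ) hv, fun a b c e t hc => ?_,
    tendsto_nhds_unique (tendsto_D hv C) (tendsto_const_nhds.congr fun i => ?_), fun j => ?_⟩
  · have key : ∀ s : G, Commute s C.t → (∀ n a b c e, Dis a b c e →
        cw (sh (w n) s) a b c e ≤ L * max (cw (w n) a b c e) 0 + B) →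
        cw (sh w0 s) a b c e ≤ 0 := fun s hs hq => by
      have := le_of_tendsto_of_tendsto' (tendsto_cw (tendsto_sh hv s) t)
        ((((tendsto_cw hv t).max (tendsto_const_nhds (x := 0))).const_mul L).add (Mi B)) fun i => by
          have h1 := mul_le_mul_of_nonneg_left (hq (n i) _ _ _ _ (t.smul' (C.t ^ k i))) (M0 i)
          rw [mul_add, mul_left_comm, mul_max_of_nonneg _ _ (M0 i), mul_zero] at h1
          convert h1 using 1
          · simp only [cw, sh, hu, smul_smul, (hs.zpow_right (k i)).eq]; ring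
          · simp only [cw, sh, hu]; congr 3; ring
      simpa [max_eq_right hc] using this
    exact ⟨key _ (Commute.refl _) fun n a b c e t => (hq n a b c e t).1,
      key _ (Commute.refl _).inv_left fun n a b c e t => (hq n a b c e t).2⟩
  · rw [C.D_mul (M0 i), MM]
  · choose K K0 hK using fun l : ℤ => D_shift hG C (C.t ^ l)
    refine le_of_tendsto (tendsto_D (tendsto_sh hv (C.t ^ j)) C) ?_
    filter_upwards [(eventually_all_finset (Finset.Icc (-|j|) |j|)).2 fun l _ =>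
      Mt.eventually_gt_atTop (K l * (B + δ))] with i hi
    have far : ∀ m : ℤ, C.D (sh (w (n i)) (C.t ^ m)) ≤ B → |j| < |k i - m| := fun m e => by
      refine not_le.1 fun t => (hi (k i - m) (Finset.mem_Icc.2 (abs_le.1 t))).not_ge ?_
      have := hK (k i - m) _ _ h0 (hS G P C _ _ (C.t ^ m) (hw (n i)))
      rw [sh_sh, ← zpow_add, add_sub_cancel] at this
      exact this.trans (mul_le_mul_of_nonneg_left (by linarith) (K0 _))
    have h1 := far _ (hB (n i)).1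
    have h2 := far _ (hB (n i)).2
    have h3 := hx i (k i + j) (by
      have := hk i
      simp only [Int.abs_eq_natAbs] at *
      omega)
    have e : sh (fun a b => (M i)⁻¹ * u i a b) (C.t ^ j) =
        fun a b => (M i)⁻¹ * sh (w (n i)) (C.t ^ (k i + j)) a b := by
      funext a b; simp [sh, hu, zpow_add, mul_smul]
    rw [e, C.D_mul (M0 i), ← MM i]
    exact mul_le_mul_of_nonneg_left h3 (M0 i)

end Pool.Agent.Lib.THU.NB
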