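import Pool.Agent.Lib.THU.NB.RT

/-!
No segment of the limit tree wanders under the fibre group.
-/

namespace Pool.Agent.Lib.THU.NB

open MeasureTheory Set
open scoped ENNReal Classical

theorem stNW : St_NW := by
  intro G _ P _ C T _ _ p h x y hxy hw
  borelize T
  have := C.countable_ker
  have h1 : ∑' u : C.d.ker, μH[1] ({z | (u : G)⁻¹ • z ∈ seg x y} ∩ KK C p) ≤ μH[1] (KK C p) := by
    refine hm_tsum_le (ι := C.d.ker) (fun u => {z | (u : G)⁻¹ • z ∈ seg x y})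
      (fun u => (isClosed_seg x y).preimage
      (isometry_smul' h.iso (u : G)⁻¹).continuous) (fun u u' hu z hz z' hz' => ?_) (isClosed_KK C p)
    have hne : (u' : G)⁻¹ * u ≠ 1 := fun e => hu (Subtype.ext (inv_mul_eq_one.1 e).symm)
    refine MulAction.injective (u : G)⁻¹ (hw _ (C.d.ker.mul_mem (C.d.ker.inv_mem u'.2) u.2) hne
      ⟨hz.1, ?_⟩ ⟨hz'.1, ?_⟩)
    · simpa [mul_smul] using hz.2
    · simpa [mul_smul] using hz'.2
  have h2 : ∑' u : C.d.ker, μH[1] {z | z ∈ seg x y ∧ (u : G) • z ∈ KK C p} ≠ ∞ := by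
    refine ne_top_of_le_ne_top h.hm_KK (le_of_eq_of_le (tsum_congr fun u => ?_) h1)
    rw [← hm_preimage h.iso (u : G) (_ ∩ _)]
    simp
  have h3 : ∀ a : T, ∀ᵐ z ∂(μH[1] : Measure T), z ∉ ({a} : Set T) := fun a =>
    measure_eq_zero_iff_ae_notMem.1 (hm_subsingleton subsingleton_singleton)
  obtain ⟨z, hz, hf, zx, zy⟩ := Measure.exists_mem_of_measure_ne_zero_of_ae (μ := μH[1]) (s := seg x y)
    (by rw [h.rt.hm_seg]; simpa using hxy)
    (ae_restrict_of_ae ((ae_finite_setOfPred_mem h2).and ((h3 x).and (h3 y))))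
  have ex : ∀ w : T, w ≠ z → ∃ b, p b ∈ dir z w := fun w hw => by
    obtain ⟨a, b, e⟩ := h.hull w
    rcases h.rt.dir_conv e (mem_dir_self hw) with e | e
    exacts [⟨a, e⟩, ⟨b, e⟩]
  obtain ⟨b, hb⟩ := ex y (Ne.symm zy)
  obtain ⟨e, he⟩ := ex x (Ne.symm zx)
  have he' : p e ∉ dir z y := fun h' =>
    not_mem_dir.2 (seg_comm x y ▸ hz) (h.rt.dir_trans h' (mem_dir_comm.1 he))
  have hbe : b ≠ e := fun e' => he' (e' ▸ hb)
  obtain ⟨t1, t2⟩ := C.three hbe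
  obtain ⟨a1, a2, hE, -, -, c1, c2, hS⟩ := C.prop (C.c b • e) (fun a => p a ∈ dir z y)
    ⟨b, t1.symm, hb⟩ ⟨e, t2.symm, he'⟩
    ((hf.toFinset ×ˢ C.E0).image fun q => ((q.1 : G)⁻¹ • q.2.1, (q.1 : G)⁻¹ • q.2.2))
  obtain ⟨g, hg, hg'⟩ := C.E_fin a1 a2 hE
  refine hS 1 (one_mem _) (one_smul _ _) (Finset.mem_image.2 ⟨(⟨g, hg⟩, g • a1, g • a2),
    Finset.mem_product.2 ⟨hf.mem_toFinset.2 ⟨hz, mem_biUnion hg' ?_⟩, hg'⟩, by simp⟩)
  simp only [h.eqv]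
  exact (smul_mem_seg h.iso g).2 (h.rt.sep c1 c2)

end Pool.Agent.Lib.THU.NB
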