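import Pool.Agent.Lib.THU.NB.Defs

/-!
An invariant pseudometric with the four point condition is induced by an equivariant map to a
real tree.  The tree is a set of distance functions with the supremum metric.
-/

namespace Pool.Agent.Lib.THU.NB

namespace TREE

variable {P : Type} {w : P → P → ℝ}

/-- tree pseudometrics -/
structure TM (w : P → P → ℝ) : Prop where
  zero : ∀ a, w a a = 0
  symm : ∀ a b, w a b = w b a
  four : ∀ a b c e, w a b + w c e ≤ max (w a c + w b e) (w a e + w b c)

/-- the distance function of the point at distance `s` from `a` on the segment from `a` to `b` -/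
def pt (w : P → P → ℝ) (a b : P) (s : ℝ) (e : P) : ℝ := max (w a e - s) (w b e - w a b + s)

/-- the points of the tree -/
def TT (w : P → P → ℝ) : Type := {f : P → ℝ // ∃ a b s, 0 ≤ s ∧ s ≤ w a b ∧ f = pt w a b s}

lemma ext4 {ay az au by' bz bu yz yu zu l s : ℝ} (ha : ay + zu ≤ max (az + yu) (au + yz))
    (hb : by' + zu ≤ max (bz + yu) (bu + yz)) :
    max (ay - s) (by' - l + s) + zu ≤
      max (max (az - s) (bz - l + s) + yu) (max (au - s) (bu - l + s) + yz) := by
  have h1 := le_max_left (az - s) (bz - l + s)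
  have h2 := le_max_right (az - s) (bz - l + s)
  have h3 := le_max_left (au - s) (bu - l + s)
  have h4 := le_max_right (au - s) (bu - l + s)
  rcases le_total (ay - s) (by' - l + s) with t | t
  · rw [max_eq_right t]
    rcases le_max_iff.1 hb with u | u
    · exact le_max_of_le_left (by linarith)
    · exact le_max_of_le_right (by linarith)
  · rw [max_eq_left t]
    rcases le_max_iff.1 ha with u | u
    · exact le_max_of_le_left (by linarith)
    · exact le_max_of_le_right (by linarith)

lemma pt_left (h : TM w) {a b : P} {s : ℝ} (h0 : 0 ≤ s) : pt w a b s a = s := by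
  rw [pt, h.zero, h.symm b a, max_eq_right (by linarith)]
  ring

lemma pt_right (h : TM w) {a b : P} {s : ℝ} (h1 : s ≤ w a b) : pt w a b s b = w a b - s := by
  rw [pt, h.zero, max_eq_left (by linarith)]

lemma pt_self (a e : P) : pt w a a 0 e = max (w a e) (w a e - w a a) := by simp [pt]

lemma four1 (h : TM w) (y : TT w) (e a b : P) :
    y.1 e + w a b ≤ max (y.1 a + w e b) (y.1 b + w e a) := by
  obtain ⟨c, f, s, -, -, hy⟩ := y.2
  rw [hy]
  exact ext4 (h.four _ _ _ _) (h.four _ _ _ _)

lemma tight (h : TM w) (y : TT w) (a e : P) : w a e ≤ y.1 a + y.1 e := by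
  obtain ⟨c, f, s, -, -, hy⟩ := y.2
  rw [hy]
  have h1 := le_max_left (w c a - s) (w f a - w c f + s)
  have h2 := le_max_right (w c a - s) (w f a - w c f + s)
  have h3 := le_max_left (w c e - s) (w f e - w c f + s)
  have h4 := le_max_right (w c e - s) (w f e - w c f + s)
  have h5 := h.symm a c
  have h6 := h.symm e f
  have h7 := h.symm a f
  have h8 := h.symm e c
  unfold pt
  rcases le_max_iff.1 (h.four a e c f) with u | u <;> linarith

lemma abs_le_key (h : TM w) (y : TT w) (a b : P) (s : ℝ) (e : P) :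
    |pt w a b s e - y.1 e| ≤ max (y.1 a - s) (y.1 b - w a b + s) := by
  have h1 := le_max_left (y.1 a - s) (y.1 b - w a b + s)
  have h2 := le_max_right (y.1 a - s) (y.1 b - w a b + s)
  have h3 := le_max_left (w a e - s) (w b e - w a b + s)
  have h4 := le_max_right (w a e - s) (w b e - w a b + s)
  have h5 := tight h y a e
  have h6 := tight h y b e
  have h7 := h.symm e a
  have h8 := h.symm e b
  unfold pt
  rw [abs_le]
  constructor
  · rcases le_max_iff.1 (four1 h y e a b) with u | u <;> linarith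
  · rw [sub_le_iff_le_add]
    exact max_le (by linarith) (by linarith)

/-- the supremum distance -/
noncomputable def D (x y : TT w) : ℝ := ⨆ e, |x.1 e - y.1 e|

lemma bdd (h : TM w) (x y : TT w) : BddAbove (Set.range fun e => |x.1 e - y.1 e|) := by
  obtain ⟨a, b, s, -, -, hx⟩ := x.2
  exact ⟨_, by rintro _ ⟨e, rfl⟩; simpa only [hx] using abs_le_key h y a b s e⟩

lemma le_D (h : TM w) (x y : TT w) (e : P) : |x.1 e - y.1 e| ≤ D x y := le_ciSup (bdd h x y) e

lemma D_eq (h : TM w) {x : TT w} {a b : P} {s : ℝ} (h0 : 0 ≤ s) (h1 : s ≤ w a b)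
    (hx : x.1 = pt w a b s) (y : TT w) : D x y = max (y.1 a - s) (y.1 b - w a b + s) := by
  have : Nonempty P := ⟨a⟩
  refine le_antisymm (ciSup_le fun e => hx ▸ abs_le_key h y a b s e) (max_le ?_ ?_)
  · have := (abs_le.1 (le_D h x y a)).1
    rw [hx, pt_left h h0] at this
    linarith
  · have := (abs_le.1 (le_D h x y b)).1
    rw [hx, pt_right h h1] at this
    linarith

/-- the metric -/
@[reducible] noncomputable def met (h : TM w) (o : P) : MetricSpace (TT w) where
  dist := D
  dist_self x := by have : Nonempty P := ⟨o⟩; simp [D]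
  dist_comm x y := by simp only [D, abs_sub_comm]
  dist_triangle x y z := by
    have : Nonempty P := ⟨o⟩
    exact ciSup_le fun e => (abs_sub_le _ (y.1 e) _).trans (add_le_add (le_D h x y e) (le_D h y z e))
  eq_of_dist_eq_zero {x y} t := Subtype.ext (funext fun e =>
    sub_eq_zero.1 (abs_nonpos_iff.1 ((le_D h x y e).trans t.le)))

lemma D_comm (x y : TT w) : D x y = D y x := by simp only [D, abs_sub_comm]

/-- the map to the tree -/
def pp (h : TM w) (a : P) : TT w := ⟨w a, a, a, 0, le_rfl, (h.zero a).ge, by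
  funext e; simp [pt, h.zero]⟩

lemma D_pp (h : TM w) (a : P) (y : TT w) : D (pp h a) y = y.1 a := by
  rw [D_eq h le_rfl (h.zero a).ge (by funext e; simp [pp, pt, h.zero]) y]
  simp [h.zero]

/-- the four point inequality -/
def Four (x y z u : TT w) : Prop := D x y + D z u ≤ max (D x z + D y u) (D x u + D y z)

lemma Four.step (h : TM w) {x y z u : TT w} (H : ∀ a, Four (pp h a) y z u) : Four x y z u := by
  obtain ⟨a, b, s, h0, h1, hx⟩ := x.2
  have ha := H a
  have hb := H b
  simp only [Four, D_pp] at ha hb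
  simp only [Four, D_eq h h0 h1 hx]
  exact ext4 ha hb

lemma Four.sw {x y z u : TT w} (H : Four x y z u) : Four y x z u := by
  unfold Four at *
  rw [D_comm y x, max_comm, add_comm (D y u), add_comm (D y z)]
  exact H

lemma Four.sw' {x y z u : TT w} (H : Four x y z u) : Four z u x y := by
  unfold Four at *
  rw [add_comm, D_comm z x, D_comm u y, D_comm z y, D_comm u x, add_comm (D y z)]
  exact H

lemma four (h : TM w) (x y z u : TT w) : Four x y z u := by
  refine .step h fun a => .sw (.step h fun b => .sw' (.step h fun c => .sw (.step h fun e => ?_)))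
  simp only [Four, D_pp]
  change w c e + w a b ≤ max (w b e + w a c) (w a e + w b c)
  rw [add_comm, add_comm (w b e)]
  exact h.four _ _ _ _

lemma far (h : TM w) (x y : TT w) : ∃ e, y.1 e = x.1 e + D x y := by
  obtain ⟨a, b, s, h0, h1, hx⟩ := x.2
  rw [D_eq h h0 h1 hx, hx]
  rcases le_total (y.1 a - s) (y.1 b - w a b + s) with t | t
  · exact ⟨b, by rw [max_eq_right t, pt_right h h1]; ring⟩
  · exact ⟨a, by rw [max_eq_left t, pt_left h h0]; ring⟩

lemma geo (h : TM w) (x y : TT w) (s : ℝ) (h0 : 0 ≤ s) (h1 : s ≤ D x y) :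
    ∃ z, D x z = s ∧ D z y = D x y - s := by
  obtain ⟨e, he⟩ := far h x y
  obtain ⟨f, hf⟩ := far h y x
  rw [D_comm y x] at hf
  have x0 : 0 ≤ x.1 e := by have := tight h x e e; rw [h.zero] at this; linarith
  have y0 : 0 ≤ y.1 f := by have := tight h y f f; rw [h.zero] at this; linarith
  rcases h0.eq_or_lt with rfl | hs
  · refine ⟨x, ?_, by simp⟩
    have : Nonempty P := ⟨e⟩
    simp [D]
  have k1 := four h (pp h e) y x (pp h f)
  simp only [Four, D_pp, D_comm x (pp h f), D_comm y (pp h f), D_comm y x] at k1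
  have k2 := tight h x e f
  have k3 : (pp h f).1 e = w e f := h.symm _ _
  have k : w e f = x.1 e + D x y + y.1 f := by
    rcases le_max_iff.1 k1 with u | u <;> linarith
  have a0 : 0 ≤ x.1 e + s := by linarith
  have a1 : x.1 e + s ≤ w e f := by linarith
  refine ⟨⟨_, e, f, _, a0, a1, rfl⟩, ?_, ?_⟩
  · rw [D_comm, D_eq h a0 a1 rfl, max_eq_right (by linarith)]
    linarith
  · rw [D_eq h a0 a1 rfl, max_eq_left (by linarith)]
    linarith

variable {G : Type} [Group G] [MulAction G P]

lemma pt_smul (hi : ∀ (g : G) a b, w (g • a) (g • b) = w a b) (g : G) (a b : P) (s : ℝ) :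
    (fun e => pt w a b s (g⁻¹ • e)) = pt w (g • a) (g • b) s := by
  funext e
  simp only [pt, ← hi g a (g⁻¹ • e), ← hi g b (g⁻¹ • e), smul_inv_smul, hi g a b]

/-- the action -/
@[reducible] def act (hi : ∀ (g : G) a b, w (g • a) (g • b) = w a b) : MulAction G (TT w) where
  smul g x := ⟨fun e => x.1 (g⁻¹ • e), by
    obtain ⟨a, b, s, h0, h1, hx⟩ := x.2
    exact ⟨g • a, g • b, s, h0, by rwa [hi], by rw [hx, pt_smul hi]⟩⟩
  one_smul x := Subtype.ext (funext fun e => congrArg x.1 (by simp))
  mul_smul g k x := Subtype.ext (funext fun e => congrArg x.1 (by simp [mul_smul]))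

end TREE

open TREE in
theorem stTREE : St_TREE := by
  intro G _ P _ w ⟨o⟩ h1 h2 h3 hi
  have h : TM w := ⟨h1, h2, h3⟩
  let _ := met h o
  let _ := act hi
  have sm : ∀ (g : G) (x : TT w) e, (g • x).1 e = x.1 (g⁻¹ • e) := fun _ _ _ => rfl
  refine ⟨TT w, met h o, act hi, pp h, ⟨four h, geo h⟩, fun g x y => ?_, fun g a => ?_,
    fun x => ?_, fun a b => (D_pp h a _).trans (h2 _ _)⟩
  · obtain ⟨a, b, s, s0, s1, hx⟩ := x.2
    change D _ _ = D _ _
    rw [D_eq h s0 s1 hx, D_eq h (a := g • a) (b := g • b) s0 (by rwa [hi])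
      (by rw [← pt_smul hi, ← hx]; rfl), sm, sm, inv_smul_smul, inv_smul_smul, hi]
  · refine Subtype.ext (funext fun e => ?_)
    change w (g • a) e = w a (g⁻¹ • e)
    rw [← hi g a, smul_inv_smul]
  · obtain ⟨a, b, s, s0, s1, hx⟩ := x.2
    refine ⟨a, b, ?_⟩
    change D _ _ + D _ _ = D _ _
    rw [D_comm x, D_pp, D_pp, D_pp, hx, pt_left h s0, pt_right h s1]
    change _ = w b a
    rw [h2 b a]
    ring

end Pool.Agent.Lib.THU.NB
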