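import Pool.Agent.Lib.THU.NB.RT
import Pool.Agent.Lib.THU28.Free

/-!
Arc stabilisers in the fibre group are trivial.
-/

namespace Pool.Agent.Lib.THU.NB

open MeasureTheory Set
open scoped ENNReal

namespace TRIV

section free
variable {A : Type} [Group A] [IsFreeGroup A]

/-- centralisers in free groups are cyclic -/
lemma cent {u : A} (hu : u ≠ 1) :
    ∃ r : A, Commute u r ∧ ∀ z, Commute u z → ∃ i : ℤ, r ^ i = z := by
  have m : ∀ z, z ∈ Subgroup.centralizer ({u} : Set A) ↔ Commute u z := fun z => by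
    rw [Subgroup.mem_centralizer_singleton_iff]; exact ⟨fun h => Eq.symm h, fun h => h.symm.eq⟩
  rcases THU28.dichotomy (A := Subgroup.centralizer ({u} : Set A)) with
    ⟨r, hr⟩ | ⟨⟨a, b, hab⟩, -⟩
  · refine ⟨r, (m _).1 r.2, fun z hz => ?_⟩
    obtain ⟨i, hi⟩ := hr ⟨z, (m z).2 hz⟩
    exact ⟨i, congrArg Subtype.val hi⟩
  · exact absurd (Subtype.ext (THU28.ct hu ((m _).1 a.2) ((m _).1 b.2)).eq) hab

/-- an automorphism sending `u` into its centraliser has a square fixing `u` -/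
lemma aut_sq (φ : A ≃* A) {u : A} (hu : u ≠ 1) (h : Commute u (φ u)) : φ (φ u) = u := by
  have := THU28.tf (A := A)
  obtain ⟨r, hr, hz⟩ := cent hu
  have key : ∀ ψ : A ≃* A, Commute u (ψ u) → ∃ a : ℤ, r ^ a = ψ r := fun ψ e =>
    hz _ (THU28.ct (a := ψ u) (by simpa using hu) e.symm (hr.map ψ))
  obtain ⟨a, ha⟩ := key φ h
  obtain ⟨b, hb⟩ := key φ.symm (by simpa using (h.map φ.symm).symm)
  obtain ⟨n, rfl⟩ := hz u (Commute.refl u)
  have r1 : r ≠ 1 := fun e => hu (by simp [e])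
  have e1 : r ^ (a * b - 1) = 1 := by
    have : φ (r ^ b) = r := by rw [hb]; simp
    rw [map_zpow, ← ha, ← zpow_mul] at this
    rw [zpow_sub_one, this, mul_inv_cancel]
  have e2 : a * b = 1 := by
    have := (IsMulTorsionFree.zpow_eq_one_iff_right r1).1 e1
    omega
  have e3 : a * a = 1 := by
    rcases Int.eq_one_or_neg_one_of_mul_eq_one e2 with e | e <;> simp [e]
  have e4 : φ (φ r) = r := by rw [← ha, map_zpow, ← ha, ← zpow_mul, e3, zpow_one]
  rw [map_zpow, map_zpow, e4]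

end free

variable {G : Type} [Group G] {P : Type} [MulAction G P] (C : Cusp G P)

lemma centG {u : G} (hk : u ∈ C.d.ker) (hu : u ≠ 1) :
    ∃ r : G, Commute u r ∧ ∀ z ∈ C.d.ker, Commute u z → ∃ i : ℤ, r ^ i = z := by
  have := C.free
  obtain ⟨r, hr, hz⟩ := cent (A := C.d.ker) (u := ⟨u, hk⟩) (fun e => hu (congrArg Subtype.val e))
  refine ⟨r, congrArg Subtype.val hr.eq, fun z h e => ?_⟩
  obtain ⟨i, hi⟩ := hz ⟨z, h⟩ (Subtype.ext e.eq)
  exact ⟨i, congrArg Subtype.val hi⟩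

/-- malnormality in the whole group, for elements fixing no cusp -/
lemma normG {u g : G} (hk : u ∈ C.d.ker) (hu : u ≠ 1) (hp : ∀ a : P, u • a ≠ a)
    (h : Commute u (g * u * g⁻¹)) : g ∈ C.d.ker ∧ Commute u g := by
  have := C.free
  have hu' : (⟨u, hk⟩ : C.d.ker) ≠ 1 := fun e => hu (congrArg Subtype.val e)
  have h1 := congrArg Subtype.val
    (aut_sq (A := C.d.ker) (MulAut.conjNormal g) hu' (Subtype.ext (by simpa using h.eq)))
  simp only [MulAut.conjNormal_apply] at h1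
  have hg : g ∈ C.d.ker := by
    by_contra hg
    have h2 : g * g ∉ C.d.ker := fun e => hg (by
      rw [MonoidHom.mem_ker, map_mul] at e
      have := congrArg Multiplicative.toAdd e
      rw [toAdd_mul, toAdd_one] at this
      rw [MonoidHom.mem_ker, ← toAdd_eq_zero]
      omega)
    obtain ⟨a, ha⟩ := C.per u hk (g * g) h2 (by
      rw [Commute, SemiconjBy]
      nth_rewrite 2 [← h1]
      group)
    exact hp a ha
  exact ⟨hg, congrArg Subtype.val
    (THU28.maln (A := C.d.ker) (u := ⟨u, hk⟩) (a := ⟨g, hg⟩) (Subtype.ext h.eq)).eq⟩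

end TRIV

open TRIV in
theorem stTRIV : St_TRIV := by
  intro G _ P _ C T _ _ p h u hk x y hxy hx hy
  by_contra hu
  borelize T
  have := C.countable
  have hp : ∀ a : P, u • a ≠ a := fun a ha => by
    have h1 := h.rot u hk hu a ha x
    have h2 := h.rot u hk hu a ha y
    rw [hx, dist_self] at h1
    rw [hy, dist_self] at h2
    have e1 : x = p a := dist_eq_zero.1 (by linarith)
    have e2 : y = p a := dist_eq_zero.1 (by linarith)
    exact hxy (e1.trans e2.symm)
  obtain ⟨r, hr, hz⟩ := centG C hk hu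
  obtain ⟨n, hn⟩ := hz u hk (Commute.refl u)
  have n0 : n ≠ 0 := fun e => hu (by rw [← hn, e, zpow_zero])
  let Y : ℤ × G → Set T := fun c =>
    {z | (∃ g, (C.d g).toAdd = c.1 ∧ c.2 = g * u * g⁻¹) ∧ c.2 • z = z}
  have hY : ∀ c, IsClosed (Y c) := fun c =>
    IsClosed.inter (s₁ := {_z : T | ∃ g, (C.d g).toAdd = c.1 ∧ c.2 = g * u * g⁻¹})
      isClosed_const (isClosed_fix h.iso c.2)
  have hd : ∀ c c', c ≠ c' → (Y c ∩ Y c').Subsingleton := by
    rintro ⟨j, v⟩ ⟨j', v'⟩ hne z ⟨⟨⟨g, dg, ev⟩, z1⟩, ⟨⟨g', dg', ev'⟩, z2⟩⟩ z' ⟨⟨-, z3⟩, -, z4⟩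
    by_contra hzz
    simp only at dg dg' ev ev' z1 z2 z3 z4
    subst ev ev' dg dg'
    have c := h.small _ (C.conj_mem g hk) _ (C.conj_mem g' hk) z z' hzz z1 z3 z2 z4
    have c' : Commute u (g⁻¹ * g' * u * (g⁻¹ * g')⁻¹) := by
      have := c.map (MulAut.conj g⁻¹)
      simp only [MulAut.conj_apply] at this
      convert this using 1 <;> group
    obtain ⟨k1, k2⟩ := normG C hk hu hp c'
    apply hne
    rw [MonoidHom.mem_ker, map_mul, map_inv, inv_mul_eq_one] at k1
    rw [k1]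
    congr 1
    calc g * u * g⁻¹ = g * (u * (g⁻¹ * g')) * g'⁻¹ := by group
      _ = g * (g⁻¹ * g' * u) * g'⁻¹ := by rw [k2.eq]
      _ = _ := by group
  have ML := hm_tsum_le Y hY hd (isClosed_KK C p)
  have pos : μH[1] {z : T | u • z = z} ≠ 0 := fun e => by
    have h1 : μH[1] (seg x y) = 0 :=
      measure_mono_null (fun z hz => h.rt.fix_seg h.iso hx hy hz) e
    rw [h.rt.hm_seg, ENNReal.ofReal_eq_zero] at h1
    exact absurd (dist_pos.2 hxy) (not_lt.2 h1)
  have step : ∀ j : ℤ, μH[1] {z : T | u • z = z} ≤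
      (Finset.Ico (0 : ℤ) |n|).card * ∑' v : G, μH[1] (Y (j, v) ∩ KK C p) := fun j => by
    have ch : ∀ v : G, ∃ g : G, (∃ g, (C.d g).toAdd = j ∧ v = g * u * g⁻¹) →
        (C.d g).toAdd = j ∧ v = g * u * g⁻¹ := fun v => by
      by_cases e : ∃ g, (C.d g).toAdd = j ∧ v = g * u * g⁻¹
      · exact ⟨e.choose, fun _ => e.choose_spec⟩
      · exact ⟨1, fun e' => absurd e' e⟩
    choose γ hγ using ch
    have cov : {z : T | u • z = z} ⊆ ⋃ v : G, ⋃ i ∈ Finset.Ico (0 : ℤ) |n|,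
        {z | (γ v * r ^ i) • z ∈ Y (j, v) ∩ KK C p} := by
      intro z hz0
      have hz1 : u • z = z := hz0
      obtain ⟨f, hf, hK⟩ := h.cover (C.t ^ j • z)
      rw [← mul_smul] at hK
      set g := f * C.t ^ j with hg
      have dg : (C.d g).toAdd = j := by
        rw [hg, map_mul, MonoidHom.mem_ker.1 hf, one_mul, C.d_t_zpow, toAdd_ofAdd]
      have ex : ∃ g', (C.d g').toAdd = j ∧ g * u * g⁻¹ = g' * u * g'⁻¹ := ⟨g, dg, rfl⟩
      obtain ⟨d1, e1⟩ := hγ _ ex
      set g' := γ (g * u * g⁻¹)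
      have k1 : g'⁻¹ * g ∈ C.d.ker := by
        rw [MonoidHom.mem_ker, map_mul, map_inv, inv_mul_eq_one]
        exact Multiplicative.toAdd.injective (d1.trans dg.symm)
      have k2 : Commute u (g'⁻¹ * g) := by
        rw [Commute, SemiconjBy]
        calc u * (g'⁻¹ * g) = g'⁻¹ * (g' * u * g'⁻¹) * g := by group
          _ = g'⁻¹ * (g * u * g⁻¹) * g := by rw [← e1]
          _ = _ := by group
      obtain ⟨i, hi⟩ := hz _ k1 k2
      have e2 : (g' * r ^ (i % n)) • z = g • z := by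
        have e3 : g = g' * r ^ (i % n) * u ^ (i / n) := by
          rw [← hn, ← zpow_mul, mul_assoc, ← zpow_add, Int.emod_add_mul_ediv, hi]; group
        rw [e3, mul_smul _ (u ^ (i / n)),
          MulAction.mem_stabilizer_iff.1 (zpow_mem (MulAction.mem_stabilizer_iff.2 hz1) _)]
      refine mem_iUnion.2 ⟨g * u * g⁻¹, mem_biUnion
        (Finset.mem_Ico.2 ⟨Int.emod_nonneg i n0, Int.emod_lt_abs i n0⟩) ?_⟩
      rw [mem_ofPred_eq, e2]
      refine ⟨⟨ex, ?_⟩, hK⟩
      show (g * u * g⁻¹) • g • z = g • z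
      rw [← mul_smul, inv_mul_cancel_right, mul_smul, hz1]
    refine (measure_mono cov).trans ((measure_iUnion_le _).trans ?_)
    rw [← ENNReal.tsum_mul_left]
    refine ENNReal.tsum_le_tsum fun v => (measure_biUnion_finset_le _ _).trans ?_
    simp only [hm_preimage h.iso]
    rw [Finset.sum_const, nsmul_eq_mul]
  have fin := ENNReal.tsum_le_tsum step
  rw [ENNReal.tsum_const_eq_top_of_ne_zero pos, ENNReal.tsum_mul_left, top_le_iff,
    ← ENNReal.tsum_prod' (f := fun c : ℤ × G => μH[1] (Y c ∩ KK C p))] at fin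
  exact ENNReal.mul_ne_top (ENNReal.natCast_ne_top _) (ne_top_of_le_ne_top h.hm_KK ML) fin

end Pool.Agent.Lib.THU.NB
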