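import Pool.Agent.Lib.THU.NB.Asm
import Pool.Agent.Lib.THU.NB.LAM
import Pool.Agent.Lib.THU.NB.LIM
import Pool.Agent.Lib.THU.NB.AVG
import Pool.Agent.Lib.THU.NB.HORO
import Pool.Agent.Lib.THU.NB.TREE
import Pool.Agent.Lib.THU.NB.ACT
import Pool.Agent.Lib.THU.NB.TRIV
import Pool.Agent.Lib.THU.NB.GL
import Pool.Agent.Lib.THU.NB.FIX
import Pool.Agent.Lib.THU.NB.NW

/-!
Step (5), unconditional form.
-/

namespace Pool.Agent.Lib.THU.NB

/-- uniform bound for the cross ratios of cusps at all levels -/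
theorem stNB : St_NB :=
  stNB_of stLAM stGENB stSHIFT (stLIM stGENB stSHIFT) (stAVG stGENB stSHIFT)
    (stACT stHORO stTREE) stTRIV (stFIX stGL) stWAND stNW

end Pool.Agent.Lib.THU.NB
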