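import Pool.Agent.Lib.THU.NB.RT
import Pool.Agent.Lib.THU.FA.Defs
import Pool.Agent.Lib.THU28.Free

/-!
The Farey graph gives the combinatorial data of step (5).
-/

namespace Pool.Agent.Lib.THU.NB

open Pool.Agent.Lib.THU.FA OnePoint

/-- the cusp with vector `q + k p` -/
lemma far_comb {p q : P} (h : |D p q| = 1) (k : ℤ) :
    ∃ (r : P) (η : ℤ), (η = 1 ∨ η = -1) ∧ ∀ x, D x r = η * (D x q + k * D x p) := by
  have hc : IsCoprime (nu q + k * nu p) (de q + k * de p) := by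
    rcases (abs_eq zero_le_one).1 h with e | e <;> unfold D at e
    · exact ⟨-de p, nu p, by linear_combination e⟩
    · exact ⟨de p, -nu p, by linear_combination -e⟩
  obtain ⟨η, h1, h2, h3⟩ := vec_pt hc
  exact ⟨pt (nu q + k * nu p) (de q + k * de p), η, h1, fun x => by simp only [D, h2, h3]; ring⟩

lemma far_abs {η x : ℤ} (h : η = 1 ∨ η = -1) : |η * x| = |x| := by
  rcases h with rfl | rfl <;> simp

lemma far_symm (p q : P) : |D q p| = |D p q| := by rw [D_swap, abs_neg]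

lemma far_inf_zero : |D ∞ ((0 : ℚ) : P)| = 1 := by simp [D]

lemma far_ne {p q : P} (h : |D p q| = 1) : p ≠ q := by
  rintro rfl
  simp [D_self] at h

lemma far_split {a c : P} (h : 1 < |D a c|) : ∃ b e, Dis a b c e ∧ |D a b| = 1 ∧ |D a e| = 1 ∧
    |D c b| < |D a c| ∧ |D c e| < |D a c| := by
  obtain ⟨A, hA⟩ := exists_inf a
  have h0 : |D a (A • ((0 : ℚ) : P))| = 1 := by rw [← hA, abs_D_smul, far_inf_zero]
  generalize A • ((0 : ℚ) : P) = z at h0
  have n0 : D c a ≠ 0 := fun e => by rw [← far_symm, e] at h; simp at h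
  obtain ⟨b, η, b1, b2⟩ := far_comb h0 (-(D c z / D c a))
  obtain ⟨e, θ, e1, e2⟩ := far_comb h0 (-(D c z / D c a) - Int.sign (D c a))
  have a1 : |D a b| = 1 := by rw [b2, far_abs b1, D_self, mul_zero, add_zero, h0]
  have a2 : |D a e| = 1 := by rw [e2, far_abs e1, D_self, mul_zero, add_zero, h0]
  have r0 := Int.emod_nonneg (D c z) n0
  have r1 := Int.emod_lt_abs (D c z) n0
  have r2 := Int.emod_add_ediv_mul (D c z) (D c a)
  have r3 := Int.sign_mul_self_eq_abs (D c a)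
  have a3 : |D c b| = D c z % D c a := by
    rw [b2, far_abs b1, ← abs_of_nonneg r0]; congr 1; linarith
  have a4 : |D c e| = |D c a| - D c z % D c a := by
    rw [e2, far_abs e1, ← abs_neg, ← abs_of_nonneg (sub_nonneg.2 r1.le)]; congr 1; linarith
  have n1 : b ≠ c := by rintro rfl; omega
  have n2 : c ≠ e := by rintro rfl; omega
  have n3 : b ≠ e := by
    rintro rfl
    have t1 := (b2 a).symm.trans (e2 a)
    have t2 := (b2 c).symm.trans (e2 c)
    have z0 := D_ne (far_ne h0)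
    simp only [D_self, mul_zero, add_zero, mul_eq_mul_right_iff, z0, or_false] at t1
    subst t1
    have : η ≠ 0 := by omega
    have t3 := mul_left_cancel₀ this t2
    have := abs_pos.2 n0
    linarith
  have := abs_pos.2 (D_ne n1.symm)
  rw [far_symm a c] at r1 a4
  exact ⟨b, e, ⟨far_ne a1, fun t => n0 (t ▸ D_self _), far_ne a2, n1, n3, n2⟩, a1, a2,
    by omega, by omega⟩

theorem far_gen (R : P → P → Prop) (h1 : ∀ a b, |D a b| = 1 → R a b)
    (h2 : ∀ a b c e, Dis a b c e → R a b → R a e → R c b → R c e → R a c) (a c : P)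
    (hne : a ≠ c) : R a c := by
  induction hn : (D a c).natAbs using Nat.strong_induction_on generalizing a c with
  | _ n ih =>
    have := abs_pos.2 (D_ne hne)
    rcases eq_or_lt_of_le (show 1 ≤ |D a c| by omega) with t | t
    · exact h1 a c t.symm
    obtain ⟨b, e, a1, a2, a3, a4, a5⟩ := far_split t
    rw [Int.abs_eq_natAbs, Int.abs_eq_natAbs] at a4 a5
    exact h2 a b c e a1 (h1 _ _ a2) (h1 _ _ a3) (ih _ (by omega) c b a1.2.2.2.1.symm rfl)
      (ih _ (by omega) c e a1.2.2.2.2.2 rfl)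

theorem far_prop (a : P) (χ : P → Prop) (h1 : ∃ b, b ≠ a ∧ χ b) (h2 : ∃ e, e ≠ a ∧ ¬ χ e)
    (N : ℤ) : ∃ p q, |D p q| = 1 ∧ p ≠ a ∧ q ≠ a ∧ χ p ∧ ¬ χ q ∧ N < |D a p| + |D a q| := by
  have base : ∃ p q, |D p q| = 1 ∧ p ≠ a ∧ q ≠ a ∧ χ p ∧ ¬ χ q := by
    by_contra H
    push Not at H
    obtain ⟨b, b1, b2⟩ := h1
    obtain ⟨e, e1, e2⟩ := h2
    refine e2 ((far_gen (fun x y => x ≠ a → y ≠ a → (χ x ↔ χ y)) (fun x y h hx hy =>
      ⟨H x y h hx hy, H y x (by rwa [far_symm]) hy hx⟩) (fun x u y v hd a1 a2 a3 a4 hx hy => ?_)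
      b e (fun t => e2 (t ▸ b2)) b1 e1).1 b2)
    by_cases t : u = a
    · have : v ≠ a := fun t' => hd.2.2.2.2.1 (t.trans t'.symm)
      exact (a2 hx this).trans (a4 hy this).symm
    · exact (a1 hx t).trans (a3 hy t).symm
  have key : ∀ n : ℕ, ∃ p q, |D p q| = 1 ∧ p ≠ a ∧ q ≠ a ∧ χ p ∧ ¬ χ q ∧
      (n : ℤ) ≤ |D a p| + |D a q| := by
    intro n
    induction n with
    | zero =>
      obtain ⟨p, q, a1, a2, a3, a4, a5⟩ := base
      exact ⟨p, q, a1, a2, a3, a4, a5, by positivity⟩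
    | succ n ih =>
      obtain ⟨p, q, a1, a2, a3, a4, a5, a6⟩ := ih
      have p0 := D_ne a2.symm
      have q0 := D_ne a3.symm
      obtain ⟨k, k1, k2⟩ : ∃ k : ℤ, (k = 1 ∨ k = -1) ∧ |D a q + k * D a p| = |D a p| + |D a q| := by
        rcases lt_or_gt_of_ne p0 with t | t <;> rcases lt_or_gt_of_ne q0 with t' | t'
        · exact ⟨1, Or.inl rfl, by rw [abs_of_neg t, abs_of_neg t', abs_of_neg (by omega)]; ring⟩
        · exact ⟨-1, Or.inr rfl, by rw [abs_of_neg t, abs_of_pos t', abs_of_pos (by omega)]; ring⟩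
        · exact ⟨-1, Or.inr rfl, by rw [abs_of_pos t, abs_of_neg t', abs_of_neg (by omega)]; ring⟩
        · exact ⟨1, Or.inl rfl, by rw [abs_of_pos t, abs_of_pos t', abs_of_pos (by omega)]; ring⟩
      obtain ⟨r, η, r1, r2⟩ := far_comb a1 k
      have b1 : |D a r| = |D a p| + |D a q| := by rw [r2, far_abs r1, k2]
      have := abs_pos.2 p0
      have := abs_pos.2 q0
      have b2 : r ≠ a := by rintro rfl; rw [D_self] at b1; simp only [abs_zero] at b1; omega
      by_cases t : χ r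
      · exact ⟨r, q, by rw [far_symm, r2, far_abs r1, D_self, zero_add, far_abs k1, far_symm, a1],
          b2, a3, t, a5, by push_cast; omega⟩
      · exact ⟨p, r, by rw [r2, far_abs r1, D_self, mul_zero, add_zero, a1], a2, b2, a4, t,
          by push_cast; omega⟩
  obtain ⟨p, q, a1, a2, a3, a4, a5, a6⟩ := key (N.toNat + 1)
  exact ⟨p, q, a1, a2, a3, a4, a5, by push_cast at a6; omega⟩

/-- the square of a matrix fixing a cusp fixes its vector -/
lemma far_vec {A : GZ} {p : P} (h : A • p = p) : ∃ ε : ℤ, ε * ε = 1 ∧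
    A 0 0 * nu p + A 0 1 * de p = ε * nu p ∧ A 1 0 * nu p + A 1 1 * de p = ε * de p := by
  obtain ⟨ε, h1, h2, h3⟩ := vec_smul A p
  rw [h] at h2 h3
  rcases h1 with rfl | rfl
  · exact ⟨1, rfl, by linarith, by linarith⟩
  · exact ⟨-1, rfl, by linarith, by linarith⟩

lemma far_sq {A : GZ} {p q : P} (hp : A • p = p) (hq : A • q = q) (h : p ≠ q) : A ^ 2 = 1 := by
  obtain ⟨ε, e0, e1, e2⟩ := far_vec hp
  obtain ⟨η, f0, f1, f2⟩ := far_vec hq
  have h0 := D_ne h
  unfold D at h0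
  ext i j
  simp only [sq, Units.val_mul, Matrix.mul_apply, Fin.sum_univ_two, Units.val_one]
  refine mul_right_cancel₀ h0 ?_
  fin_cases i <;> fin_cases j <;> simp only [Fin.zero_eta, Fin.mk_one, Fin.isValue,
    Matrix.one_apply_eq, ne_eq, zero_ne_one, one_ne_zero, not_false_eq_true, Matrix.one_apply_ne]
  · linear_combination de q * ((A 0 0 + ε) * e1 + A 0 1 * e2 + nu p * e0) -
      de p * ((A 0 0 + η) * f1 + A 0 1 * f2 + nu q * f0)
  · linear_combination nu p * ((A 0 0 + η) * f1 + A 0 1 * f2 + nu q * f0) -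
      nu q * ((A 0 0 + ε) * e1 + A 0 1 * e2 + nu p * e0)
  · linear_combination de q * (A 1 0 * e1 + (A 1 1 + ε) * e2 + de p * e0) -
      de p * (A 1 0 * f1 + (A 1 1 + η) * f2 + de q * f0)
  · linear_combination nu p * (A 1 0 * f1 + (A 1 1 + η) * f2 + de q * f0) -
      nu q * (A 1 0 * e1 + (A 1 1 + ε) * e2 + de p * e0)

lemma far_comm_inf {A B : GZ} (hA : A • (∞ : P) = ∞) (hB : B • (∞ : P) = ∞) :
    Commute (A ^ 2) (B ^ 2) := by
  obtain ⟨ε, e0, e1, e2⟩ := far_vec hA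
  obtain ⟨η, f0, f1, f2⟩ := far_vec hB
  simp only [nu_inf, de_inf, mul_one, mul_zero, add_zero] at e1 e2 f1 f2
  have a := det_eq A
  have b := det_eq B
  rw [e1, e2] at a
  rw [f1, f2] at b
  have a' : A 1 1 * A 1 1 = 1 := by
    rcases a with a | a <;> nlinarith
  have b' : B 1 1 * B 1 1 = 1 := by
    rcases b with b | b <;> nlinarith
  ext i j
  simp only [sq, Units.val_mul, Matrix.mul_apply, Fin.sum_univ_two]
  fin_cases i <;> fin_cases j <;> simp [e1, e2, f1, f2, e0, f0, a', b', add_comm]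

lemma far_comm {A B : GZ} {p : P} (hA : A • p = p) (hB : B • p = p) : Commute (A ^ 2) (B ^ 2) := by
  obtain ⟨C, rfl⟩ := exists_inf p
  have key : ∀ X : GZ, X • C • (∞ : P) = C • ∞ → (C⁻¹ * X * C) • (∞ : P) = ∞ := fun X h => by
    rw [mul_smul, mul_smul, h, inv_smul_smul]
  have := (far_comm_inf (key A hA) (key B hB)).map (MulAut.conj C)
  simpa [sq, mul_assoc] using this

section

variable {F : Type} [Group F] {σ : F →* GZ}

lemma lat_fix1 (h : Lat σ) {x : F} (hx : x ≠ 1) {a b : P} (ha : σ x • a = a) (hb : σ x • b = b) :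
    a = b := by
  by_contra hne
  exact hx (h.tf x 2 two_pos (h.inj _ (Or.inl (by rw [map_pow, far_sq ha hb hne]))))

lemma lat_par (h : Lat σ) (a : P) : ∃ x : F, x ≠ 1 ∧ σ x • a = a := by
  obtain ⟨S, hS⟩ := h.fin
  obtain ⟨C, rfl⟩ := exists_inf a
  let T : ℤ → GZ := fun k => mk 1 k 0 1 (Or.inl (by ring))
  choose x B hB e using fun k : ℤ => hS (C * T k)
  obtain ⟨k, l, hkl, e'⟩ := Finite.exists_ne_map_eq_of_infinite fun k => (⟨B k, hB k⟩ : S)
  have e1 : B k = B l := congrArg Subtype.val e'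
  have e2 : σ (x k * (x l)⁻¹) = C * T k * (C * T l)⁻¹ := by
    rw [e k, e l, e1, map_mul, map_inv]; group
  have hT : ∀ k, T k • (∞ : P) = ∞ := fun k => (smul_inf_iff _).2 rfl
  refine ⟨x k * (x l)⁻¹, fun t => hkl ?_, ?_⟩
  · rw [t, map_one, eq_mul_inv_iff_mul_eq, one_mul, mul_right_inj] at e2
    exact (congrArg (fun X : GZ => X 0 1) e2).symm
  · rw [e2, mul_inv_rev, mul_smul, mul_smul, mul_smul, inv_smul_smul, inv_smul_eq_iff.2 (hT l).symm,
      hT]

lemma lat_stab [IsFreeGroup F] (h : Lat σ) (a : P) :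
    ∃ c : F, c ≠ 1 ∧ ∀ x, σ x • a = a ↔ x ∈ Subgroup.zpowers c := by
  let U : Subgroup F := (MulAction.stabilizer GZ a).comap σ
  rcases THU28.dichotomy (A := U) with ⟨r, hr⟩ | ⟨⟨x, y, hxy⟩, -⟩
  · have key : ∀ x, σ x • a = a ↔ x ∈ Subgroup.zpowers (r : F) := fun x =>
      ⟨fun hx => let ⟨k, hk⟩ := hr ⟨x, hx⟩; ⟨k, by simpa using congrArg Subtype.val hk⟩,
        by rintro ⟨k, rfl⟩; exact U.zpow_mem r.2 k⟩
    obtain ⟨x, x1, x2⟩ := lat_par h a
    refine ⟨r, fun t => x1 ?_, key⟩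
    simpa [t] using (key x).1 x2
  · refine (hxy ?_).elim
    have h1 : Commute ((x : F) ^ (2 : ℤ)) ((y : F) ^ (2 : ℤ)) := by
      have := far_comm (A := σ x) (B := σ y) x.2 y.2
      rw [← map_pow, ← map_pow] at this
      rw [zpow_ofNat, zpow_ofNat, ← commutatorElement_eq_one_iff_commute]
      exact h.inj _ (Or.inl (by rw [map_commutatorElement, this.commutator_eq]))
    exact Subtype.ext (THU28.commute_of_zpow two_ne_zero
      (THU28.commute_of_zpow two_ne_zero h1).symm).symm.eq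

end

theorem exists_cusp (G : Type) [Group G] [MulAction G P] (d : G →* Multiplicative ℤ) (m : ℕ)
    (bas : FreeGroupBasis (Fin m) d.ker) (t : G) (dt : d t = Multiplicative.ofAdd 1)
    (s : d.ker →* GZ) (hs : Lat s) (hact : ∀ (x : d.ker) (p : P), (x : G) • p = s x • p)
    (per : ∀ x ∈ d.ker, ∀ g : G, g ∉ d.ker → Commute g x → ∃ a : P, x • a = a) :
    ∃ C : Cusp G P, C.d = d ∧ C.t = t ∧ ∀ a b, C.E a b ↔ |D a b| = 1 := by
  classical
  have := bas.isFreeGroup
  choose c c1 c2 using lat_stab hs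
  obtain ⟨S, hS⟩ := hs.fin
  refine ⟨{
    d := d, m := m, bas := bas, t := t, dt := dt, c := fun a => c a, E := fun a b => |D a b| = 1
    E0 := S.image fun B => (B • (∞ : P), B • ((0 : ℚ) : P))
    c_mem := fun a => (c a).2
    c_ne := fun a => by simpa using c1 a
    stab := fun a g hg => ?_
    fix1 := fun x hx h a b ha hb => lat_fix1 hs (x := ⟨x, hx⟩) (by simpa using h)
      (by rw [← hact]; exact ha) (by rw [← hact]; exact hb)
    per := per
    two := ⟨_, _, far_ne far_inf_zero⟩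
    E_ne := fun a b => far_ne
    E_fin := fun a b h => ?_
    E0_ne := fun e he => ?_
    gen := far_gen
    prop := fun a χ h1 h2 T => ?_ }, rfl, rfl, fun _ _ => Iff.rfl⟩
  · rw [show g • a = s ⟨g, hg⟩ • a from hact ⟨g, hg⟩ a, c2]
    exact ⟨fun ⟨k, hk⟩ => ⟨k, by simpa using congrArg Subtype.val hk⟩,
      fun ⟨k, hk⟩ => ⟨k, Subtype.ext (by simpa using hk)⟩⟩
  · obtain ⟨A, rfl, rfl⟩ := exists_edge h
    obtain ⟨x, B, hB, rfl⟩ := hS A
    refine ⟨(x⁻¹ : d.ker), x⁻¹.2, Finset.mem_image.2 ⟨B, hB, ?_⟩⟩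
    simp only [hact, map_inv, mul_smul, inv_smul_smul]
  · obtain ⟨B, -, rfl⟩ := Finset.mem_image.1 he
    exact far_ne (by rw [abs_D_smul, far_inf_zero])
  · obtain ⟨N, hN⟩ := (T.image fun z => |D a z.1| + |D a z.2|).bddAbove
    obtain ⟨p, q, a1, a2, a3, a4, a5, a6⟩ := far_prop a χ h1 h2 N
    refine ⟨p, q, a1, a2, a3, a4, a5, fun g hg e hm => ?_⟩
    have b := hN (Finset.mem_coe.2 (Finset.mem_image_of_mem _ hm))
    have key : ∀ x, |D a (g • x)| = |D a x| := fun x => by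
      conv_lhs => rw [← e]
      rw [show g • a = s ⟨g, hg⟩ • a from hact ⟨g, hg⟩ a,
        show g • x = s ⟨g, hg⟩ • x from hact ⟨g, hg⟩ x, abs_D_smul]
    simp only [key] at b
    omega

end Pool.Agent.Lib.THU.NB
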