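import Pool.Agent.Lib.THU.NB.RT
import Pool.Agent.Lib.THU28.Free

/-!
Bounds from the edge representatives, and shifts.
-/

namespace Pool.Agent.Lib.THU.NB

variable {G : Type} [Group G] {P : Type} [MulAction G P]

theorem Cusp.D_nonneg (C : Cusp G P) (w : P → P → ℝ) : 0 ≤ C.D w :=
  Finset.sum_nonneg fun _ _ => abs_nonneg _

theorem Cusp.zpow_eq_one (C : Cusp G P) {x : G} (hx : x ∈ C.d.ker) (h1 : x ≠ 1) {n : ℤ}
    (h : x ^ n = 1) : n = 0 := by
  by_contra hn
  have : IsFreeGroup C.d.ker := C.bas.isFreeGroup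
  have := THU28.tf (A := C.d.ker)
  have e : (⟨x, hx⟩ : C.d.ker) ^ n = 1 ^ n := by
    rw [one_zpow]
    exact Subtype.ext (by simpa using h)
  exact h1 (congrArg Subtype.val (zpow_left_injective hn e))

theorem Cusp.c_fix (C : Cusp G P) (a : P) : C.c a • a = a :=
  (C.stab a _ (C.c_mem a)).2 (Subgroup.mem_zpowers _)

theorem Cusp.c_conj (C : Cusp G P) (s : G) (a : P) :
    s * C.c a * s⁻¹ = C.c (s • a) ∨ s * C.c a * s⁻¹ = (C.c (s • a))⁻¹ := by
  obtain ⟨m, hm⟩ := (C.stab (s • a) _ (C.conj_mem s (C.c_mem a))).1 (by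
    rw [mul_smul, inv_smul_smul, mul_smul, C.c_fix])
  obtain ⟨n, hn⟩ := (C.stab a _ (C.conj_mem s⁻¹ (C.c_mem (s • a)))).1 (by
    rw [inv_inv, mul_smul, mul_smul, C.c_fix, inv_smul_smul])
  simp only at hm hn
  have e1 : C.c a ^ (n * m) = C.c a := by
    rw [zpow_mul, hn, conj_zpow, hm]
    group
  have e2 : C.c a ^ (n * m - 1) = 1 := by
    rw [zpow_sub, e1, zpow_one, mul_inv_cancel]
  have e3 := C.zpow_eq_one (C.c_mem a) (C.c_ne a) e2
  rcases Int.eq_one_or_neg_one_of_mul_eq_one' (show n * m = 1 by omega) with ⟨-, h⟩ | ⟨-, h⟩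
  · left; rw [← hm, h, zpow_one]
  · right; rw [← hm, h, zpow_neg_one]

theorem stGENB : St_GENB := by
  intro G _ P _ C a b hab
  refine C.gen (fun a b => ∃ K : ℝ, 0 ≤ K ∧ ∀ (w : P → P → ℝ) (δ : ℝ), 0 ≤ δ → Tr C w δ →
    |w a b| ≤ K * (C.D w + δ)) ?_ ?_ a b hab
  · intro a b h
    obtain ⟨g, hg, he⟩ := C.E_fin a b h
    refine ⟨1, zero_le_one, fun w δ hδ T => ?_⟩
    have h1 := T.inv g hg a b (C.E_ne a b h)
    have h2 : |w (g • a) (g • b)| ≤ C.D w :=
      Finset.single_le_sum (f := fun e : P × P => |w e.1 e.2|) (fun _ _ => abs_nonneg _) he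
    rw [← h1]
    linarith
  · rintro a b c e ⟨h1, h2, h3, h4, h5, h6⟩ ⟨K1, p1, q1⟩ ⟨K2, p2, q2⟩ ⟨K3, p3, q3⟩ ⟨K4, p4, q4⟩
    refine ⟨K1 + K2 + K3 + K4 + 2, by linarith, fun w δ hδ T => ?_⟩
    have hD := C.D_nonneg w
    have r1 := abs_le.1 (q1 w δ hδ T)
    have r2 := abs_le.1 (q2 w δ hδ T)
    have r3 := abs_le.1 (q3 w δ hδ T)
    have r4 := abs_le.1 (q4 w δ hδ T)
    have f := T.four a c b e ⟨h2, h1, h3, h4.symm, h6, h5⟩
    have l1 := T.low b e h5
    have l2 := T.low a c h2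
    have s1 := mul_nonneg p1 (add_nonneg hD hδ)
    have s2 := mul_nonneg p2 (add_nonneg hD hδ)
    have s3 := mul_nonneg p3 (add_nonneg hD hδ)
    have s4 := mul_nonneg p4 (add_nonneg hD hδ)
    rw [abs_le]
    refine ⟨by nlinarith, ?_⟩
    rcases le_total (w a b + w c e) (w a e + w c b) with h | h
    · rw [max_eq_right h] at f
      nlinarith
    · rw [max_eq_left h] at f
      nlinarith

theorem stSHIFT : St_SHIFT := by
  intro G _ P _ C w δ s T
  have inj : ∀ {a b : P}, a ≠ b → s • a ≠ s • b := fun h e => h (MulAction.injective s e)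
  have cj : ∀ (g : G) (a : P), (s * g * s⁻¹) • s • a = s • g • a := fun g a => by
    rw [mul_smul, inv_smul_smul, mul_smul]
  have cj2 : ∀ (g : G) (a : P), (s * g * s⁻¹) ^ 2 • s • a = s • g ^ 2 • a := fun g a => by
    rw [conj_pow, cj]
  refine ⟨fun a b h => T.symm _ _ (inj h), fun g hg a b h => ?_, fun a b h => T.low _ _ (inj h),
    fun a b c e ⟨h1, h2, h3, h4, h5, h6⟩ =>
      T.four _ _ _ _ ⟨inj h1, inj h2, inj h3, inj h4, inj h5, inj h6⟩, fun a b h k hk => ?_,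
    fun g hg h hh hc a b hab n1 n2 n3 n4 => ?_⟩
  · have := T.inv _ (C.conj_mem s hg) _ _ (inj h)
    rw [cj, cj] at this
    exact this
  · have e : s • C.c a ^ k • b = (s * C.c a * s⁻¹) ^ k • s • b := by rw [conj_zpow, cj]
    change |w (s • b) (s • C.c a ^ k • b) - 2 * w (s • a) (s • b)| ≤ _
    rw [e]
    rcases C.c_conj s a with h1 | h1
    · rw [h1]
      exact T.par _ _ (inj h) k hk
    · rw [h1, inv_zpow']
      have := T.par _ _ (inj h) (-k) (neg_ne_zero.2 hk)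
      rwa [Int.cast_neg, abs_neg] at this
  · have hc' : ¬ Commute (s * g * s⁻¹) (s * h * s⁻¹) := fun e => hc (by
      have e1 : s * (g * h) * s⁻¹ = s * (h * g) * s⁻¹ := by
        have := e.eq
        calc s * (g * h) * s⁻¹ = s * g * s⁻¹ * (s * h * s⁻¹) := by group
          _ = s * h * s⁻¹ * (s * g * s⁻¹) := this
          _ = s * (h * g) * s⁻¹ := by group
      exact mul_left_cancel (mul_right_cancel e1))
    obtain ⟨e, f, he, he', hf, hf', key⟩ := T.small _ (C.conj_mem s hg) _ (C.conj_mem s hh) hc'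
      (s • a) (s • b) (inj hab) (by rw [cj2]; exact inj n1) (by rw [cj2]; exact inj n2)
      (by rw [cj2]; exact inj n3) (by rw [cj2]; exact inj n4)
    simp only [X1, X2, cj2] at key he hf
    refine ⟨s⁻¹ • e, s⁻¹ • f, ?_, fun x => he' (by rw [← x, smul_inv_smul]), ?_,
      fun x => hf' (by rw [← x, smul_inv_smul]), ?_⟩
    · rcases he with rfl | rfl <;> simp
    · rcases hf with rfl | rfl <;> simp
    · simp only [sh, X1, X2, smul_inv_smul]
      exact key

end Pool.Agent.Lib.THU.NB
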