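import Pool.Agent.Lib.THU.NB.Defs

/-!
Basic facts on real trees: segments, medians, directions, isometric actions, length measure.
-/

namespace Pool.Agent.Lib.THU.NB

open MeasureTheory Set
open scoped ENNReal

section tree
variable {T : Type} [MetricSpace T]

lemma mem_seg {x y z : T} : z ∈ seg x y ↔ dist x z + dist z y = dist x y := Iff.rfl

lemma mem_dir {x y z : T} : z ∈ dir x y ↔ dist y z < dist x y + dist x z := Iff.rfl

lemma seg_comm (x y : T) : seg x y = seg y x := by
  ext z
  simp only [mem_seg, dist_comm z x, dist_comm y z, dist_comm y x]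
  constructor <;> intro h <;> linarith

lemma left_mem_seg (x y : T) : x ∈ seg x y := by simp [mem_seg]

lemma right_mem_seg (x y : T) : y ∈ seg x y := by simp [mem_seg]

lemma seg_self (x : T) : seg x x = {x} := by
  ext z
  simp only [mem_seg, dist_self, mem_singleton_iff, dist_comm z x]
  constructor
  · intro h
    have : dist x z = 0 := by linarith [dist_nonneg (x := x) (y := z)]
    exact (dist_eq_zero.1 this).symm
  · rintro rfl; simp

lemma isClosed_seg (x y : T) : IsClosed (seg x y) :=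
  isClosed_eq (by fun_prop) continuous_const

/-- points of a segment are determined by the distance to an end -/
lemma RT.dist_seg (h : RT T) {x y u v : T} (hu : u ∈ seg x y) (hv : v ∈ seg x y) :
    dist u v = |dist x u - dist x v| := by
  have h1 := h.four u v x y
  have h2 := abs_dist_sub_le u v x
  rw [mem_seg] at hu hv
  rw [dist_comm u x, dist_comm v x] at h1 h2
  apply le_antisymm _ h2
  rcases le_max_iff.1 h1 with h3 | h3
  · have := le_abs_self (dist x u - dist x v); linarith
  · have := neg_abs_le (dist x u - dist x v); linarith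

lemma RT.uniq (h : RT T) {x y u v : T} (hu : u ∈ seg x y) (hv : v ∈ seg x y)
    (e : dist x u = dist x v) : u = v := by
  have := h.dist_seg hu hv
  rw [e, sub_self, abs_zero] at this
  exact dist_eq_zero.1 this

lemma RT.ex_at (h : RT T) (x y : T) {s : ℝ} (h0 : 0 ≤ s) (h1 : s ≤ dist x y) :
    ∃ z ∈ seg x y, dist x z = s := by
  obtain ⟨z, e1, e2⟩ := h.geo x y s h0 h1
  exact ⟨z, by rw [mem_seg]; linarith, e1⟩

lemma Med.dist_eq {x y z m : T} (h : Med x y z m) :
    2 * dist x m = dist x y + dist x z - dist y z := by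
  obtain ⟨h1, h2, h3⟩ := h
  rw [mem_seg] at h1 h2 h3
  rw [dist_comm y m] at h2
  linarith

lemma Med.swap12 {x y z m : T} (h : Med x y z m) : Med y x z m :=
  ⟨seg_comm x y ▸ h.1, h.2.2, h.2.1⟩

lemma Med.swap23 {x y z m : T} (h : Med x y z m) : Med x z y m :=
  ⟨h.2.2, seg_comm y z ▸ h.2.1, h.1⟩

lemma RT.ex_med (h : RT T) (x y z : T) : ∃ m, Med x y z m := by
  have t1 := dist_triangle_left y z x
  have t2 := dist_triangle x y z
  obtain ⟨m, e1, e2⟩ := h.geo x y ((dist x y + dist x z - dist y z) / 2) (by linarith)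
    (by linarith)
  have h1 := h.four m z x y
  have t3 := dist_triangle x m z
  rw [dist_comm m x, dist_comm z y, dist_comm z x] at h1
  have h2 : dist m z ≤ dist x z - dist x m := by
    rcases le_max_iff.1 h1 with h3 | h3 <;> linarith
  refine ⟨m, ?_, ?_, ?_⟩ <;> rw [mem_seg]
  · linarith
  · rw [dist_comm y m]; linarith
  · linarith

lemma RT.med_uniq (h : RT T) {x y z m m' : T} (h1 : Med x y z m) (h2 : Med x y z m') : m = m' :=
  h.uniq h1.1 h2.1 (by linarith [h1.dist_eq, h2.dist_eq])

/-- distance from a point of a segment to any point -/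
lemma RT.dist_of_mem (h : RT T) {x y u : T} (hu : u ∈ seg x y) (z : T) :
    dist u z = max (dist x z - dist x u) (dist y z - dist u y) := by
  have h1 := h.four u z x y
  have t1 := dist_triangle x u z
  have t2 := dist_triangle y u z
  rw [mem_seg] at hu
  rw [dist_comm u x, dist_comm z y, dist_comm z x] at h1
  rw [dist_comm y u] at t2
  apply le_antisymm
  · rcases le_max_iff.1 h1 with h3 | h3
    · exact le_max_of_le_right (by linarith)
    · exact le_max_of_le_left (by linarith)
  · exact max_le (by linarith) (by linarith)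

lemma RT.seg_sub (h : RT T) (a b c : T) : seg a c ⊆ seg a b ∪ seg b c := by
  intro u hu
  have h1 := h.dist_of_mem hu b
  rcases max_cases (dist a b - dist a u) (dist c b - dist u c) with ⟨h2, -⟩ | ⟨h2, -⟩
  · left; rw [mem_seg]; linarith
  · right; rw [mem_seg, dist_comm b u, dist_comm b c]; linarith

lemma seg_left {x y u z : T} (hu : u ∈ seg x y) (hz : z ∈ seg x u) : z ∈ seg x y := by
  rw [mem_seg] at *
  have := dist_triangle z u y
  have := dist_triangle x z y
  linarith

lemma seg_right {x y u z : T} (hu : u ∈ seg x y) (hz : z ∈ seg u y) : z ∈ seg x y := by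
  rw [seg_comm] at *
  exact seg_left hu hz

lemma RT.seg_conv (h : RT T) {x y u v : T} (hu : u ∈ seg x y) (hv : v ∈ seg x y) :
    seg u v ⊆ seg x y := by
  intro z hz
  rcases h.seg_sub u x v hz with h1 | h1
  · rw [seg_comm] at h1; exact seg_left hu h1
  · exact seg_left hv h1

/-- local to global -/
lemma RT.align (h : RT T) {a x y b : T} (hne : x ≠ y) (h1 : x ∈ seg a y) (h2 : y ∈ seg x b) :
    dist a b = dist a x + dist x y + dist y b := by
  have h3 := h.four a y x b
  have h4 := dist_pos.2 hne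
  have t := dist_triangle4 a x y b
  rw [mem_seg] at h1 h2
  rw [dist_comm y x] at h3
  rcases le_max_iff.1 h3 with h5 | h5 <;> linarith

lemma mem_dir_self {x y : T} (h : y ≠ x) : y ∈ dir x y := by
  have := dist_pos.2 h.symm
  rw [mem_dir, dist_self]; linarith

lemma self_not_mem_dir (x y : T) : x ∉ dir x y := by
  rw [mem_dir, dist_self, dist_comm]; linarith

lemma ne_of_mem_dir {x y z : T} (h : z ∈ dir x y) : z ≠ x := by
  rintro rfl; exact self_not_mem_dir _ _ h

lemma mem_dir_comm {x y z : T} : z ∈ dir x y ↔ y ∈ dir x z := by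
  rw [mem_dir, mem_dir, dist_comm z y, add_comm]

lemma not_mem_dir {x y z : T} : z ∉ dir x y ↔ x ∈ seg y z := by
  have := dist_triangle y x z
  rw [mem_dir, mem_seg, not_lt, dist_comm x y]
  constructor <;> intro h <;> linarith

lemma RT.dir_trans (h : RT T) {x y z u : T} (h1 : z ∈ dir x y) (h2 : u ∈ dir x z) :
    u ∈ dir x y := by
  have h3 := h.four y u x z
  rw [mem_dir] at *
  rw [dist_comm y x, dist_comm u z, dist_comm u x] at h3
  rcases le_max_iff.1 h3 with h4 | h4 <;> linarith

lemma RT.dir_eq (h : RT T) {x y z : T} (h1 : z ∈ dir x y) : dir x z = dir x y :=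
  Subset.antisymm (fun _ hu => h.dir_trans h1 hu)
    (fun _ hu => h.dir_trans (mem_dir_comm.1 h1) hu)

/-- a point of a direction and a point outside are separated by the base point -/
lemma RT.sep (h : RT T) {x u a b : T} (ha : a ∈ dir x u) (hb : b ∉ dir x u) : x ∈ seg a b := by
  rw [← not_mem_dir, h.dir_eq ha]; exact hb

/-- the complement of a direction is convex -/
lemma RT.dir_conv (h : RT T) {x u a b y : T} (hy : y ∈ seg a b) (hd : y ∈ dir x u) :
    a ∈ dir x u ∨ b ∈ dir x u := by
  by_contra hc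
  push Not at hc
  have h1 := h.sep hd hc.1
  have h2 := h.sep hd hc.2
  have h3 := dist_pos.2 (ne_of_mem_dir hd)
  have h4 := dist_triangle a x b
  rw [mem_seg] at h1 h2 hy
  rw [dist_comm y a, dist_comm x a] at h1
  linarith

lemma mem_dir_of_seg {x y z : T} (hz : z ∈ seg x y) (hne : z ≠ x) : z ∈ dir x y := by
  have := dist_pos.2 hne.symm
  rw [mem_seg] at hz
  rw [mem_dir, dist_comm y z]; linarith

lemma Med.ne_iff {x y z m : T} (h : Med x y z m) : m ≠ x ↔ z ∈ dir x y := by
  have := h.dist_eq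
  rw [mem_dir, ne_comm, ← dist_pos]
  constructor <;> intro h <;> linarith

end tree

section action
variable {T : Type} [MetricSpace T] {G : Type} [Group G] [MulAction G T]

lemma smul_mem_seg (hi : ∀ (g : G) (x y : T), dist (g • x) (g • y) = dist x y) (g : G)
    {x y z : T} : g • z ∈ seg (g • x) (g • y) ↔ z ∈ seg x y := by
  simp only [mem_seg, hi]

lemma smul_mem_dir (hi : ∀ (g : G) (x y : T), dist (g • x) (g • y) = dist x y) (g : G)
    {x y z : T} : g • z ∈ dir (g • x) (g • y) ↔ z ∈ dir x y := by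
  simp only [mem_dir, hi]

lemma smul_med (hi : ∀ (g : G) (x y : T), dist (g • x) (g • y) = dist x y) (g : G)
    {x y z m : T} : Med (g • x) (g • y) (g • z) (g • m) ↔ Med x y z m := by
  simp only [Med, smul_mem_seg hi]

lemma isometry_smul' (hi : ∀ (g : G) (x y : T), dist (g • x) (g • y) = dist x y) (g : G) :
    Isometry (fun x : T => g • x) := Isometry.of_dist_eq (hi g)

lemma RT.fix_seg (h : RT T) (hi : ∀ (g : G) (x y : T), dist (g • x) (g • y) = dist x y) {g : G}
    {x y z : T} (hx : g • x = x) (hy : g • y = y) (hz : z ∈ seg x y) : g • z = z := by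
  have h1 := (smul_mem_seg hi g).2 hz
  have h2 := hi g x z
  rw [hx] at h2
  rw [hx, hy] at h1
  exact h.uniq h1 hz h2

/-- an isometry fixing a point and a direction at it fixes an arc -/
lemma RT.fix_dir (h : RT T) (hi : ∀ (g : G) (x y : T), dist (g • x) (g • y) = dist x y) {g : G}
    {x y : T} (hx : g • x = x) (hy : g • y ∈ dir x y) : ∃ m ∈ seg x y, m ≠ x ∧ g • m = m := by
  obtain ⟨m, hm⟩ := h.ex_med x y (g • y)
  refine ⟨m, hm.1, hm.ne_iff.2 hy, ?_⟩
  have h1 := (smul_mem_seg hi g).2 hm.1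
  have h2 := hi g x m
  rw [hx] at h1 h2
  exact h.uniq h1 hm.2.2 h2

lemma isClosed_fix (hi : ∀ (g : G) (x y : T), dist (g • x) (g • y) = dist x y) (g : G) :
    IsClosed {x : T | g • x = x} :=
  isClosed_eq (isometry_smul' hi g).continuous continuous_id

end action

section measure
variable {T : Type} [MetricSpace T] [MeasurableSpace T] [BorelSpace T]

lemma RT.hm_seg (h : RT T) (x y : T) : μH[1] (seg x y) = ENNReal.ofReal (dist x y) := by
  have key : ∀ s : Icc (0 : ℝ) (dist x y), ∃ z ∈ seg x y, dist x z = s :=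
    fun s => h.ex_at x y s.2.1 s.2.2
  choose γ hγ eγ using key
  have hi : Isometry γ := Isometry.of_dist_eq fun s r => by
    rw [h.dist_seg (hγ s) (hγ r), eγ, eγ, Subtype.dist_eq, Real.dist_eq]
  have hr : seg x y = γ '' univ := by
    apply Subset.antisymm
    · intro z hz
      have h0 : dist x z ≤ dist x y := by
        rw [mem_seg] at hz; linarith [dist_nonneg (x := z) (y := y)]
      exact ⟨⟨dist x z, dist_nonneg, h0⟩, trivial, h.uniq (hγ _) hz (eγ _)⟩
    · rintro _ ⟨s, -, rfl⟩; exact hγ s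
  rw [hr, hi.hausdorffMeasure_image (Or.inl zero_le_one),
    ← (isometry_subtype_coe (s := Icc (0 : ℝ) (dist x y))).hausdorffMeasure_image
      (Or.inl zero_le_one), Subtype.coe_image_univ, hausdorffMeasure_real, Real.volume_Icc,
    sub_zero]

lemma hm_subsingleton {s : Set T} (hs : s.Subsingleton) : μH[1] s = 0 := by
  have := Measure.nullSingletonClass_hausdorff T zero_lt_one
  exact hs.measure_zero _

lemma hm_smul {G : Type} [Group G] [MulAction G T]
    (hi : ∀ (g : G) (x y : T), dist (g • x) (g • y) = dist x y) (g : G) (s : Set T) :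
    μH[1] ((fun x => g • x) '' s) = μH[1] s :=
  (isometry_smul' hi g).hausdorffMeasure_image (Or.inl zero_le_one) s

lemma hm_preimage {G : Type} [Group G] [MulAction G T]
    (hi : ∀ (g : G) (x y : T), dist (g • x) (g • y) = dist x y) (g : G) (s : Set T) :
    μH[1] {x | g • x ∈ s} = μH[1] s := by
  rw [← hm_smul hi g⁻¹ s]
  congr 1
  ext x
  constructor
  · intro hx; exact ⟨g • x, hx, by simp⟩
  · rintro ⟨z, hz, rfl⟩; simpa using hz

/-- ML -/
lemma hm_tsum_le {ι : Type} [Countable ι] (Y : ι → Set T) (hY : ∀ i, IsClosed (Y i))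
    (hd : ∀ i j, i ≠ j → (Y i ∩ Y j).Subsingleton) {K : Set T} (hK : IsClosed K) :
    ∑' i, μH[1] (Y i ∩ K) ≤ μH[1] K := by
  have h1 : ∑' i, μH[1] (Y i ∩ K) = μH[1] (⋃ i, Y i ∩ K) := by
    refine (measure_iUnion₀ ?_ fun i => ((hY i).inter hK).measurableSet.nullMeasurableSet).symm
    intro i j hij
    exact hm_subsingleton ((hd i j hij).anti fun z hz => ⟨hz.1.1, hz.2.1⟩)
  rw [h1]
  exact measure_mono (iUnion_subset fun i => inter_subset_right)

end measure

section cusp
variable {G : Type} [Group G] {P : Type} [MulAction G P]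

lemma Cusp.free (C : Cusp G P) : IsFreeGroup C.d.ker := C.bas.isFreeGroup

lemma Cusp.countable_ker (C : Cusp G P) : Countable C.d.ker :=
  C.bas.repr.toEquiv.injective.countable

lemma Cusp.d_t_zpow (C : Cusp G P) (k : ℤ) : C.d (C.t ^ k) = Multiplicative.ofAdd k := by
  rw [map_zpow, C.dt, ← ofAdd_zsmul, smul_eq_mul, mul_one]

lemma Cusp.decomp (C : Cusp G P) (g : G) : ∃ f ∈ C.d.ker, g = f * C.t ^ (C.d g).toAdd := by
  refine ⟨g * (C.t ^ (C.d g).toAdd)⁻¹, ?_, by simp⟩
  rw [MonoidHom.mem_ker, map_mul, map_inv, C.d_t_zpow]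
  simp

lemma Cusp.countable (C : Cusp G P) : Countable G := by
  have := C.countable_ker
  refine Function.Surjective.countable (f := fun x : C.d.ker × ℤ => (x.1 : G) * C.t ^ x.2) ?_
  intro g
  obtain ⟨f, hf, e⟩ := C.decomp g
  exact ⟨(⟨f, hf⟩, _), e.symm⟩

lemma Cusp.conj_mem (C : Cusp G P) (g : G) {x : G} (hx : x ∈ C.d.ker) : g * x * g⁻¹ ∈ C.d.ker :=
  (MonoidHom.normal_ker C.d).conj_mem x hx g

/-- every cusp is equivalent to an end of an edge representative -/
lemma Cusp.ex_rep (C : Cusp G P) (a : P) : ∃ g ∈ C.d.ker, ∃ e ∈ C.E0, g • a = e.1 ∨ g • a = e.2 := by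
  obtain ⟨b, c, hbc⟩ := C.two
  have key := C.gen (fun a c => (∃ g ∈ C.d.ker, ∃ e ∈ C.E0, g • a = e.1 ∨ g • a = e.2) ∧
    ∃ g ∈ C.d.ker, ∃ e ∈ C.E0, g • c = e.1 ∨ g • c = e.2)
    (fun a b h => by
      obtain ⟨g, hg, he⟩ := C.E_fin a b h
      exact ⟨⟨g, hg, _, he, Or.inl rfl⟩, g, hg, _, he, Or.inr rfl⟩)
    (fun a b c e _ h1 _ h2 _ => ⟨h1.1, h2.1⟩)
  by_cases h : a = b
  · exact (key a c (h ▸ hbc)).1
  · exact (key a b h).1

/-- there are at least three cusps -/
lemma Cusp.three (C : Cusp G P) {a b : P} (h : a ≠ b) : C.c a • b ≠ a ∧ C.c a • b ≠ b := by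
  have h1 : C.c a • a = a := (C.stab a _ (C.c_mem a)).2 (Subgroup.mem_zpowers _)
  refine ⟨fun e => h ?_, fun e => h (C.fix1 _ (C.c_mem a) (C.c_ne a) a b h1 e)⟩
  exact (MulAction.injective (C.c a) (e.trans h1.symm)).symm

variable {C : Cusp G P} {T : Type} [MetricSpace T] [MulAction G T] {p : P → T}

lemma isClosed_KK (C : Cusp G P) (p : P → T) : IsClosed (KK C p) :=
  isClosed_biUnion_finset fun _ _ => isClosed_seg _ _

lemma Act.cover_seg (h : Act C p) {a b : P} (hab : a ≠ b) {x : T} (hx : x ∈ seg (p a) (p b)) :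
    ∃ f ∈ C.d.ker, f • x ∈ KK C p := by
  refine C.gen (fun a b => ∀ x ∈ seg (p a) (p b), ∃ f ∈ C.d.ker, f • x ∈ KK C p) ?_ ?_ a b hab x hx
  · intro a b hE x hx
    obtain ⟨g, hg, he⟩ := C.E_fin a b hE
    refine ⟨g, hg, mem_biUnion he ?_⟩
    simp only [h.eqv]
    exact (smul_mem_seg h.iso g).2 hx
  · intro a b c e _ h1 _ h2 _ x hx
    rcases h.rt.seg_sub (p a) (p b) (p c) hx with h3 | h3
    · exact h1 x h3
    · exact h2 x (seg_comm (p b) (p c) ▸ h3)

/-- the translates of `KK` cover the tree -/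
lemma Act.cover (h : Act C p) (x : T) : ∃ f ∈ C.d.ker, f • x ∈ KK C p := by
  obtain ⟨a, b, hx⟩ := h.hull x
  by_cases hab : a = b
  · subst hab
    rw [seg_self, mem_singleton_iff] at hx
    obtain ⟨b, c, hbc⟩ := C.two
    by_cases h1 : a = b
    · exact h.cover_seg (h1 ▸ hbc : a ≠ c) (hx ▸ left_mem_seg _ _)
    · exact h.cover_seg h1 (hx ▸ left_mem_seg _ _)
  · exact h.cover_seg hab hx

lemma Act.hm_KK [MeasurableSpace T] [BorelSpace T] (h : Act C p) : μH[1] (KK C p) ≠ ∞ := by
  refine ((measure_biUnion_finset_le _ _).trans_lt ?_).ne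
  refine ENNReal.sum_lt_top.2 fun e _ => ?_
  rw [h.rt.hm_seg]
  exact ENNReal.ofReal_lt_top

end cusp

end Pool.Agent.Lib.THU.NB
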