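import Pool.Agent.Lib.THU.NB.GENB

/-!
Assembly of step (5) from the blocks.
-/

namespace Pool.Agent.Lib.THU.NB

variable {G : Type} [Group G] {P : Type} [MulAction G P]

lemma Dis.smul2 {a b c e : P} (h : Dis a b c e) (g : G) : Dis (g • a) (g • b) (g • c) (g • e) := by
  obtain ⟨h1, h2, h3, h4, h5, h6⟩ := h
  exact ⟨(MulAction.injective g).ne h1, (MulAction.injective g).ne h2,
    (MulAction.injective g).ne h3, (MulAction.injective g).ne h4, (MulAction.injective g).ne h5,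
    (MulAction.injective g).ne h6⟩

lemma Cusp.c_smul (C : Cusp G P) (g : G) (a : P) :
    C.c (g • a) = g * C.c a * g⁻¹ ∨ C.c (g • a) = g * (C.c a)⁻¹ * g⁻¹ := by
  rcases C.c_conj g a with h | h
  · exact Or.inl h.symm
  · right
    rw [← inv_inv (C.c (g • a)), ← h]; group

theorem no_trop (hA : St_AVG) (hC : St_ACT) (hT : St_TRIV) (hF : St_FIX) (hW : St_WAND)
    (hN : St_NW) (C : Cusp G P) (w0 : P → P → ℝ) (h1 : Tr C w0 0) (h2 : Comp C w0)
    (h3 : C.D w0 = 1) (h4 : ∀ j : ℤ, C.D (sh w0 (C.t ^ j)) ≤ 1) : False := by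
  obtain ⟨w, a1, a2, a3⟩ := hA G P C w0 h1 h2 h3 h4
  obtain ⟨T, _, _, p, hp⟩ := hC G P C w a1 a2 a3
  have ta := hT G P C T p hp
  obtain ⟨x, y, hxy, hw⟩ := hW G P C T p hp ta (hF G P C T p hp ta)
  exact hN G P C T p hp x y hxy hw

theorem stNB_of (hL : St_LAM) (hG : St_GENB) (hS : St_SHIFT) (hI : St_LIM) (hA : St_AVG)
    (hC : St_ACT) (hT : St_TRIV) (hF : St_FIX) (hW : St_WAND) (hN : St_NW) : St_NB := by
  intro G _ P _ C v L B hR hQ hE
  obtain ⟨δ, hδ, hL⟩ := hL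
  choose w hw hcw htr using fun n => hL G P C (v n) (hR n)
  have hend : ∀ a b : P, a ≠ b → ∃ M : ℝ, ∀ n : ℕ, |sh (w n) (C.t ^ (n : ℤ)) a b| ≤ M ∧
      |sh (w n) (C.t ^ (-(n : ℤ))) a b| ≤ M := by
    intro a b hab
    have ma := C.c_mem a
    have mb := C.c_mem b
    obtain ⟨M1, h1⟩ := hE _ (mul_mem ma mb)
    obtain ⟨M2, h2⟩ := hE _ (mul_mem ma (inv_mem mb))
    obtain ⟨M3, h3⟩ := hE _ (mul_mem (inv_mem ma) mb)
    obtain ⟨M4, h4⟩ := hE _ (mul_mem (inv_mem ma) (inv_mem mb))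
    have key : ∀ (n : ℕ) (s : G), s = C.t ^ (n : ℤ) ∨ s = C.t ^ (-(n : ℤ)) →
        |sh (w n) s a b| ≤ max δ (max (max M1 M2) (max M3 M4) + 2) := by
      intro n s hs
      have hne : s • a ≠ s • b := (MulAction.injective s).ne hab
      obtain ⟨A, hd, hp, hle⟩ := htr n _ _ hne
      have hlow := (hw n).low _ _ hne
      have hA : ‖A.trace‖ ≤ max (max M1 M2) (max M3 M4) := by
        rcases C.c_smul s a with ea | ea <;> rcases C.c_smul s b with eb | eb <;>
          rw [ea, eb] at hp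
        · have e : s * C.c a * s⁻¹ * (s * C.c b * s⁻¹) = s * (C.c a * C.c b) * s⁻¹ := by group
          rw [e] at hp
          exact (h1 n A hd (by rcases hs with rfl | rfl; exacts [Or.inl hp, Or.inr hp])).trans
            ((le_max_left _ _).trans (le_max_left _ _))
        · have e : s * C.c a * s⁻¹ * (s * (C.c b)⁻¹ * s⁻¹) = s * (C.c a * (C.c b)⁻¹) * s⁻¹ := by
            group
          rw [e] at hp
          exact (h2 n A hd (by rcases hs with rfl | rfl; exacts [Or.inl hp, Or.inr hp])).trans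
            ((le_max_right _ _).trans (le_max_left _ _))
        · have e : s * (C.c a)⁻¹ * s⁻¹ * (s * C.c b * s⁻¹) = s * ((C.c a)⁻¹ * C.c b) * s⁻¹ := by
            group
          rw [e] at hp
          exact (h3 n A hd (by rcases hs with rfl | rfl; exacts [Or.inl hp, Or.inr hp])).trans
            ((le_max_left _ _).trans (le_max_right _ _))
        · have e : s * (C.c a)⁻¹ * s⁻¹ * (s * (C.c b)⁻¹ * s⁻¹) =
              s * ((C.c a)⁻¹ * (C.c b)⁻¹) * s⁻¹ := by group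
          rw [e] at hp
          exact (h4 n A hd (by rcases hs with rfl | rfl; exacts [Or.inl hp, Or.inr hp])).trans
            ((le_max_right _ _).trans (le_max_right _ _))
      rw [abs_le]
      have := le_max_left δ (max (max M1 M2) (max M3 M4) + 2)
      have := le_max_right δ (max (max M1 M2) (max M3 M4) + 2)
      constructor <;> simp only [sh] <;> linarith
    exact ⟨_, fun n => ⟨key n _ (Or.inl rfl), key n _ (Or.inr rfl)⟩⟩
  choose! M hM using hend
  have hD : ∀ n : ℕ, C.D (sh (w n) (C.t ^ (n : ℤ))) ≤ ∑ e ∈ C.E0, M e.1 e.2 ∧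
      C.D (sh (w n) (C.t ^ (-(n : ℤ)))) ≤ ∑ e ∈ C.E0, M e.1 e.2 := fun n =>
    ⟨Finset.sum_le_sum fun e he => (hM _ _ (C.E0_ne e he) n).1,
      Finset.sum_le_sum fun e he => (hM _ _ (C.E0_ne e he) n).2⟩
  set B0 := max (2 * B) (∑ e ∈ C.E0, M e.1 e.2) with hB0
  have hb1 : 2 * B ≤ B0 := le_max_left _ _
  have hb2 : ∑ e ∈ C.E0, M e.1 e.2 ≤ B0 := le_max_right _ _
  have hq : ∀ n a b c e, Dis a b c e →
      cw (sh (w n) C.t) a b c e ≤ L * max (cw (w n) a b c e) 0 + B0 ∧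
      cw (sh (w n) C.t⁻¹) a b c e ≤ L * max (cw (w n) a b c e) 0 + B0 := by
    intro n a b c e hd
    obtain ⟨q1, q2⟩ := hQ n a b c e hd
    have e0 := hcw n a b c e hd
    have e1 : cw (sh (w n) C.t) a b c e = _ := hcw n _ _ _ _ (hd.smul2 C.t)
    have e2 : cw (sh (w n) C.t⁻¹) a b c e = _ := hcw n _ _ _ _ (hd.smul2 C.t⁻¹)
    have e3 : max (cw (w n) a b c e) 0 = 2 * max (crl (v n) a b c e) 0 := by
      rw [e0, mul_max_of_nonneg _ _ zero_le_two, mul_zero]
    rw [e1, e2, e3]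
    constructor <;> linarith
  rcases hI G P C w δ L B0 hδ hw hq (fun n => ⟨(hD n).1.trans hb2, (hD n).2.trans hb2⟩) with
    ⟨B', hB'⟩ | ⟨w0, h1, h2, h3, h4⟩
  · intro a b c e hd
    obtain ⟨K1, k1, g1⟩ := hG G P C a b hd.1
    obtain ⟨K2, k2, g2⟩ := hG G P C c e hd.2.2.2.2.2
    obtain ⟨K3, k3, g3⟩ := hG G P C a c hd.2.1
    obtain ⟨K4, k4, g4⟩ := hG G P C b e hd.2.2.2.2.1
    refine ⟨(K1 + K2 + K3 + K4) * (B' + δ), fun n k hk => ?_⟩
    have ht := hS G P C _ δ (C.t ^ k) (hw n)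
    have hb := hB' n k hk
    have e0 : cw (sh (w n) (C.t ^ k)) a b c e = _ := hcw n _ _ _ _ (hd.smul2 (C.t ^ k))
    have f1 := (g1 _ δ hδ ht).trans (mul_le_mul_of_nonneg_left (add_le_add_left hb δ) k1)
    have f2 := (g2 _ δ hδ ht).trans (mul_le_mul_of_nonneg_left (add_le_add_left hb δ) k2)
    have f3 := (g3 _ δ hδ ht).trans (mul_le_mul_of_nonneg_left (add_le_add_left hb δ) k3)
    have f4 := (g4 _ δ hδ ht).trans (mul_le_mul_of_nonneg_left (add_le_add_left hb δ) k4)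
    have p1 := abs_nonneg (sh (w n) (C.t ^ k) a b)
    have p2 := abs_nonneg (sh (w n) (C.t ^ k) c e)
    have p3 := abs_nonneg (sh (w n) (C.t ^ k) a c)
    have p4 := abs_nonneg (sh (w n) (C.t ^ k) b e)
    have f1' := abs_le.1 f1
    have f2' := abs_le.1 f2
    have f3' := abs_le.1 f3
    have f4' := abs_le.1 f4
    rw [cw] at e0
    rw [abs_le]
    constructor <;> linarith [f1'.1, f1'.2, f2'.1, f2'.2, f3'.1, f3'.2, f4'.1, f4'.2]
  · exact (no_trop hA hC hT hF hW hN C w0 h1 h2 h3 h4).elim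

end Pool.Agent.Lib.THU.NB
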